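import Pool.Agent.H48.SX.Defs

/-!
# [H48 SX AXN] the size of the Siegel bound

PROOF. Put `Υ = N0 α₂`, `z = Υ/α₁ ≥ 1` (for `α₁ > 0`; `N0 ≥ 1`, `α₂ ≥ α₁`). `I₁ ≤ z`, `M₁ ≤ Υ/ξ₁ ≤ Q z`, `I₂ ≤ N0`, `M₂ ≤ N0 α₂/ξ₂ ≤ Q N0`,
`d ≤ 5 Q z`. The base is at most `(z (n (Q z + 1))) (N0 (n (Q N0 + 1))) C q^(2 d + 2 n) κ^(2n) (1/ρ)^d ≤ B1 z² B2^z` with `B1, B2 ≥ 1` depending only on
`n, N0, Q, C, q, κ, ρ` (`Q z + 1 ≤ 2 Q z`, and `B2 = (q² (1/ρ))^(5Q)` as real power; or use `exp`), `z² ≤ exp(2z)`, so it is `≤ exp(B3 z)` with a constant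
`B3 ≥ 0` (`B1 ≤ exp(log B1 · z)` as `z ≥ 1`); the `E`-th power is `≤ exp(E B3 z) ≤ exp(η Υ)` if `E B3 ≤ η α₁`: `L0 = max 1 (E B3/η)`.
(If a factor is `0` the bound is trivial; all factors are `≥ 0`.)
-/

namespace Pool.Agent.H48.SX

open Finset Polynomial Pool.Agent.H37.TE Pool.Agent.H98.TE Pool.Agent.H4.TP Pool.Agent.H98.XG
open scoped ENNReal

private lemma axn_geo {N0 Q : ℕ} {α₁ ξ₁ α₂ ξ₂ : ℝ} (hN0 : 1 ≤ N0) (hα : 1 ≤ α₁) (h12 : α₁ ≤ α₂)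
    (h1 : α₁ ≤ Q * ξ₁) (h2 : α₂ ≤ Q * ξ₂) {I₁ M₁ I₂ M₂ : ℕ} (hI₁ : I₁ * α₁ ≤ N0 * α₂)
    (hM₁ : M₁ * ξ₁ ≤ N0 * α₂) (hI₂ : I₂ * α₂ ≤ N0 * α₂) (hM₂ : M₂ * ξ₂ ≤ N0 * α₂) :
    1 ≤ N0 * α₂ / α₁ ∧ N0 * α₂ / α₁ * α₁ = N0 * α₂ ∧ (I₁ : ℝ) ≤ N0 * α₂ / α₁ ∧
      (M₁ : ℝ) ≤ Q * (N0 * α₂ / α₁) ∧ (I₂ : ℝ) ≤ N0 ∧ (M₂ : ℝ) ≤ Q * N0 := by
  have hα0 : 0 < α₁ := by linarith
  have hα20 : 0 < α₂ := by linarith
  have hN : (1 : ℝ) ≤ N0 := by exact_mod_cast hN0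
  have hQ0 : (0 : ℝ) ≤ Q := Nat.cast_nonneg _
  refine ⟨?_, div_mul_cancel₀ _ hα0.ne', ?_, ?_, le_of_mul_le_mul_right hI₂ hα20, ?_⟩
  · rw [le_div_iff₀ hα0]
    nlinarith
  · rw [le_div_iff₀ hα0]
    exact hI₁
  · rw [← mul_div_assoc, le_div_iff₀ hα0]
    calc (M₁ : ℝ) * α₁ ≤ M₁ * (Q * ξ₁) := by gcongr
      _ = Q * (M₁ * ξ₁) := by ring
      _ ≤ Q * (N0 * α₂) := by gcongr
  · refine le_of_mul_le_mul_right ?_ hα20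
    calc (M₂ : ℝ) * α₂ ≤ M₂ * (Q * ξ₂) := by gcongr
      _ = Q * (M₂ * ξ₂) := by ring
      _ ≤ Q * (N0 * α₂) := by gcongr
      _ = Q * N0 * α₂ := by ring

private lemma axn_cnt {n N0 Q I₁ M₁ I₂ M₂ : ℕ} {z : ℝ} (hz : 1 ≤ z) (h1 : (I₁ : ℝ) ≤ z)
    (h2 : (M₁ : ℝ) ≤ Q * z) (h3 : (I₂ : ℝ) ≤ N0) (h4 : (M₂ : ℝ) ≤ Q * N0) :
    ((I₁ : ℝ) * (n * (M₁ + 1))) * (I₂ * (n * (M₂ + 1))) ≤
      ((n : ℝ) * (Q + 1) * (N0 * (n * (Q * N0 + 1)))) * z ^ 2 := by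
  have hQ0 : (0 : ℝ) ≤ Q := Nat.cast_nonneg _
  have h5 : (M₁ : ℝ) + 1 ≤ (Q + 1) * z := by nlinarith
  calc ((I₁ : ℝ) * (n * (M₁ + 1))) * (I₂ * (n * (M₂ + 1))) ≤
        (z * (n * ((Q + 1) * z))) * (N0 * (n * (Q * N0 + 1))) := by gcongr
    _ = _ := by ring

private lemma axn_exp {B z : ℝ} (hB : 0 ≤ B) (hz : 1 ≤ z) :
    B * z ^ 2 ≤ Real.exp ((B + 2) * z) := by
  have h1 : z ≤ Real.exp z := by
    have := Real.add_one_le_exp z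
    linarith
  have h2 : B ≤ Real.exp (B * z) := by
    have h3 := Real.add_one_le_exp (B * z)
    nlinarith
  calc B * z ^ 2 ≤ Real.exp (B * z) * Real.exp z ^ 2 := by gcongr
    _ = Real.exp ((B + 2) * z) := by
        rw [← Real.exp_nat_mul, ← Real.exp_add]
        congr 1
        push_cast
        ring

theorem axn (n N0 E Q q : ℕ) (C κ ρ η : ℝ) (hC : 1 ≤ C) (hκ : 1 ≤ κ) (hρ : 0 < ρ) (hρ1 : ρ ≤ 1)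
    (hq : 1 ≤ q) (hN0 : 1 ≤ N0) (hQ : 1 ≤ Q) (hη : 0 < η) :
    ∃ L0 : ℝ, 1 ≤ L0 ∧ ∀ α₁ ξ₁ α₂ ξ₂ : ℝ, L0 ≤ α₁ → α₁ ≤ α₂ → α₁ ≤ Q * ξ₁ → α₂ ≤ Q * ξ₂ →
      ∀ I₁ M₁ I₂ M₂ d : ℕ, I₁ * α₁ ≤ N0 * α₂ → M₁ * ξ₁ ≤ N0 * α₂ → I₂ * α₂ ≤ N0 * α₂ →
      M₂ * ξ₂ ≤ N0 * α₂ → d * α₁ ≤ 5 * Q * (N0 * α₂) →
      (((I₁ : ℝ) * (n * (M₁ + 1))) * (I₂ * (n * (M₂ + 1))) *
        (C * ((q : ℝ) ^ (2 * d + 2 * n) * κ ^ (2 * n) * (1 / ρ) ^ d))) ^ E ≤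
        Real.exp (η * (N0 * α₂)) := by
  set B : ℝ := ((n : ℝ) * (Q + 1) * (N0 * (n * (Q * N0 + 1)))) *
    (C * ((q : ℝ) ^ (2 * n) * κ ^ (2 * n))) with hB
  have hB0 : 0 ≤ B := by positivity
  have hqr : (1 : ℝ) ≤ q := by exact_mod_cast hq
  set R : ℝ := (q : ℝ) ^ 2 * (1 / ρ) with hR
  have hρ' : 1 ≤ 1 / ρ := by rwa [le_div_iff₀ hρ, one_mul]
  have hR1 : 1 ≤ R := by
    have h3 : (1 : ℝ) ≤ (q : ℝ) ^ 2 := one_le_pow₀ hqr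
    nlinarith
  have hlR : 0 ≤ Real.log R := Real.log_nonneg hR1
  set B3 : ℝ := B + 2 + 5 * Q * Real.log R with hB3
  refine ⟨max 1 (E * B3 / η), le_max_left _ _, ?_⟩
  intro α₁ ξ₁ α₂ ξ₂ hα h12 h1 h2 I₁ M₁ I₂ M₂ d hI₁ hM₁ hI₂ hM₂ hd
  have hα1 : 1 ≤ α₁ := (le_max_left _ _).trans hα
  have hα0 : 0 < α₁ := by linarith
  obtain ⟨hz, hzα, g1, g2, g3, g4⟩ := axn_geo hN0 hα1 h12 h1 h2 hI₁ hM₁ hI₂ hM₂
  have hαB : E * B3 ≤ η * α₁ := by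
    have h3 := (le_max_right _ _).trans hα
    rw [div_le_iff₀ hη] at h3
    linarith
  set Υ : ℝ := N0 * α₂ with hΥ
  set z : ℝ := Υ / α₁ with hzdef
  have hd' : (d : ℝ) ≤ 5 * Q * z := by
    refine le_of_mul_le_mul_right ?_ hα0
    calc (d : ℝ) * α₁ ≤ 5 * Q * Υ := hd
      _ = 5 * Q * z * α₁ := by rw [← hzα]; ring
  have f1 : R ^ d ≤ Real.exp (5 * Q * Real.log R * z) := by
    calc R ^ d = Real.exp (Real.log R) ^ d := by rw [Real.exp_log (by linarith)]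
      _ = Real.exp (d * Real.log R) := by rw [← Real.exp_nat_mul]
      _ ≤ Real.exp (5 * Q * Real.log R * z) := by
          apply Real.exp_le_exp.2
          calc (d : ℝ) * Real.log R ≤ 5 * Q * z * Real.log R := by gcongr
            _ = _ := by ring
  have f2 : ((I₁ : ℝ) * (n * (M₁ + 1))) * (I₂ * (n * (M₂ + 1))) *
        (C * ((q : ℝ) ^ (2 * d + 2 * n) * κ ^ (2 * n) * (1 / ρ) ^ d)) ≤ Real.exp (B3 * z) := by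
    calc ((I₁ : ℝ) * (n * (M₁ + 1))) * (I₂ * (n * (M₂ + 1))) *
          (C * ((q : ℝ) ^ (2 * d + 2 * n) * κ ^ (2 * n) * (1 / ρ) ^ d))
        = (((I₁ : ℝ) * (n * (M₁ + 1))) * (I₂ * (n * (M₂ + 1)))) *
          (C * ((q : ℝ) ^ (2 * n) * κ ^ (2 * n))) * R ^ d := by
          rw [hR, pow_add, mul_pow, ← pow_mul]
          ring
      _ ≤ (((n : ℝ) * (Q + 1) * (N0 * (n * (Q * N0 + 1)))) * z ^ 2) *
          (C * ((q : ℝ) ^ (2 * n) * κ ^ (2 * n))) * R ^ d := by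
          have := axn_cnt (n := n) hz g1 g2 g3 g4
          gcongr
      _ = (B * z ^ 2) * R ^ d := by rw [hB]; ring
      _ ≤ Real.exp ((B + 2) * z) * Real.exp (5 * Q * Real.log R * z) := by
          have := axn_exp hB0 hz
          gcongr
      _ = Real.exp (B3 * z) := by
          rw [← Real.exp_add, hB3]
          congr 1
          ring
  have f0 : 0 ≤ ((I₁ : ℝ) * (n * (M₁ + 1))) * (I₂ * (n * (M₂ + 1))) *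
        (C * ((q : ℝ) ^ (2 * d + 2 * n) * κ ^ (2 * n) * (1 / ρ) ^ d)) := by positivity
  calc (((I₁ : ℝ) * (n * (M₁ + 1))) * (I₂ * (n * (M₂ + 1))) *
        (C * ((q : ℝ) ^ (2 * d + 2 * n) * κ ^ (2 * n) * (1 / ρ) ^ d))) ^ E
      ≤ Real.exp (B3 * z) ^ E := pow_le_pow_left₀ f0 f2 E
    _ = Real.exp (E * B3 * z) := by
        rw [← Real.exp_nat_mul]
        congr 1
        ring
    _ ≤ Real.exp (η * Υ) := by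
        apply Real.exp_le_exp.2
        rw [← hzα]
        nlinarith

end Pool.Agent.H48.SX
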