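import Pool.Agent.H48.SX.Defs

/-!
# [H48 SX CNT] lattice points of a simplex in dimension four

PROOF. For `w : Fin d → ℝ` positive and `W ≥ 0` the set of `p : Fin d → ℕ` with `∑ p_i w_i ≤ W` is finite and its number `N_d(W)` satisfies
`N_d(W) ∏ w_i ≤ (W + ∑ w_i)^d / d!`. Induction on `d`: `N_{d+1}(W) = ∑_{k = 0}^{⌊W/w_0⌋} N_d(W - k w_0)`, and
`w_0 z^d ≤ ((z + w_0)^(d+1) - z^(d+1))/(d+1)` for `z ≥ 0` (all terms of the binomial formula are `≥ 0`); with `z_k = W - k w_0 + ∑_{i ≥ 1} w_i`,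
`z_k + w_0 = z_(k-1)`, the sum telescopes: `w_0 ∑_k z_k^d ≤ (z_0 + w_0)^(d+1)/(d+1)`. (Or do the four steps one after the other: `d = 0, 1, 2, 3`.)
Here `d = 4` and the pairs `(μ, μ')` are the vectors `(μ 0, μ 1, μ' 0, μ' 1)` (`Finsupp` on `Fin 2` is determined by the two values; e.g. `S` is the image
of a filtered product of ranges `range (⌊W/α⌋ + 1)` under `(p, q) ↦ single 0 p + single 1 q`).
-/

namespace Pool.Agent.H48.SX

open Finset Polynomial Pool.Agent.H37.TE Pool.Agent.H98.TE Pool.Agent.H4.TP Pool.Agent.H98.XG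
open scoped ENNReal

private theorem pw_step (d : ℕ) {w z : ℝ} (hw : 0 ≤ w) (hz : 0 ≤ z) :
    w * z ^ d * (d + 1) ≤ (z + w) ^ (d + 1) - z ^ (d + 1) := by
  induction d with
  | zero => simp
  | succ d ih =>
    have e1 : (z + w) ^ (d + 1 + 1) - z ^ (d + 1 + 1)
        = z * ((z + w) ^ (d + 1) - z ^ (d + 1)) + w * (z + w) ^ (d + 1) := by ring
    have e2 : z ^ (d + 1) ≤ (z + w) ^ (d + 1) := pow_le_pow_left₀ hz (by linarith) _
    have e3 : z * (w * z ^ d * (d + 1)) ≤ z * ((z + w) ^ (d + 1) - z ^ (d + 1)) :=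
      mul_le_mul_of_nonneg_left ih hz
    have e4 : w * z ^ (d + 1) ≤ w * (z + w) ^ (d + 1) := mul_le_mul_of_nonneg_left e2 hw
    have e5 : w * z ^ (d + 1) * ((d + 1 : ℕ) + 1)
        = z * (w * z ^ d * (d + 1)) + w * z ^ (d + 1) := by
      push_cast
      ring
    rw [e5, e1]
    linarith

private theorem sum_step (d : ℕ) {w z : ℝ} (hw : 0 ≤ w) (m : ℕ) (hz : 0 ≤ z - m * w) :
    (∑ k ∈ range (m + 1), w * (z - k * w) ^ d) * (d + 1) ≤
      (z + w) ^ (d + 1) - (z - m * w) ^ (d + 1) := by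
  induction m with
  | zero =>
    simp only [Nat.cast_zero, zero_mul, sub_zero, zero_add, range_one, sum_singleton] at hz ⊢
    exact pw_step d hw hz
  | succ m ih =>
    have h0 : 0 ≤ z - m * w := by
      push_cast at hz
      nlinarith
    have h1 := ih h0
    have h2 := pw_step d hw hz
    have h3 : z - ((m + 1 : ℕ) : ℝ) * w + w = z - m * w := by
      push_cast
      ring
    rw [h3] at h2
    rw [sum_range_succ, add_mul]
    linarith

private theorem gen : ∀ (d : ℕ) (w : Fin d → ℝ), (∀ i, 0 < w i) →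
    ∃ T : ℝ → Finset (Fin d → ℕ), (∀ W p, p ∈ T W ↔ ∑ i, (p i : ℝ) * w i ≤ W) ∧
      ∀ W, 0 ≤ W → ((T W).card : ℝ) * ∏ i, w i ≤ (W + ∑ i, w i) ^ d / (d.factorial : ℝ) := by
  intro d
  induction d with
  | zero =>
    intro w _
    refine ⟨fun W => if 0 ≤ W then {Fin.elim0} else ∅, ?_, ?_⟩
    · intro W p
      simp only [univ_eq_empty, sum_empty]
      split_ifs with h
      · simp only [mem_singleton, h, iff_true]
        exact Subsingleton.elim _ _
      · simp [h]
    · intro W hW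
      simp [hW]
  | succ d ih =>
    intro w hw
    obtain ⟨T, hT, hc⟩ := ih (fun i => w i.succ) (fun i => hw i.succ)
    have w0 : 0 < w 0 := hw 0
    refine ⟨fun W => (range (⌊W / w 0⌋₊ + 1)).biUnion
      (fun k => (T (W - k * w 0)).image (fun q => (Fin.cons k q : Fin (d + 1) → ℕ))), ?_, ?_⟩
    · intro W p
      simp only [mem_biUnion, mem_range, mem_image]
      constructor
      · rintro ⟨k, _, q, hq, rfl⟩
        rw [hT] at hq
        rw [Fin.sum_univ_succ]
        simp only [Fin.cons_zero, Fin.cons_succ]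
        linarith
      · intro h
        rw [Fin.sum_univ_succ] at h
        have h2 : 0 ≤ ∑ i : Fin d, (p i.succ : ℝ) * w i.succ :=
          sum_nonneg fun i _ => mul_nonneg (Nat.cast_nonneg _) (hw _).le
        refine ⟨p 0, ?_, fun i => p i.succ, ?_, ?_⟩
        · refine Nat.lt_succ_of_le (Nat.le_floor ?_)
          rw [le_div_iff₀ w0]
          linarith
        · rw [hT]
          linarith
        · funext i
          refine Fin.cases ?_ (fun j => ?_) i
          · rfl
          · rfl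
    · intro W hW
      have hm : ∀ k ∈ range (⌊W / w 0⌋₊ + 1), 0 ≤ W - k * w 0 := by
        intro k hk
        have h1 : k ≤ ⌊W / w 0⌋₊ := Nat.lt_succ_iff.mp (mem_range.mp hk)
        have h2 : (k : ℝ) ≤ W / w 0 :=
          le_trans (Nat.cast_le.mpr h1) (Nat.floor_le (div_nonneg hW w0.le))
        rw [le_div_iff₀ w0] at h2
        linarith
      set m := ⌊W / w 0⌋₊ with hmd
      set s : ℝ := ∑ i : Fin d, w i.succ with hs
      have s0 : 0 ≤ s := sum_nonneg fun i _ => (hw _).le
      have P0 : 0 ≤ ∏ i : Fin d, w i.succ := prod_nonneg fun i _ => (hw _).le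
      have c1 : ((((range (m + 1)).biUnion
          (fun k => (T (W - k * w 0)).image (fun q => (Fin.cons k q : Fin (d + 1) → ℕ)))).card :
          ℕ) : ℝ) ≤ ∑ k ∈ range (m + 1), ((T (W - k * w 0)).card : ℝ) := by
        have h1 := card_biUnion_le (s := range (m + 1))
          (t := fun k => (T (W - k * w 0)).image (fun q => (Fin.cons k q : Fin (d + 1) → ℕ)))
        have h2 : (∑ k ∈ range (m + 1), ((T (W - k * w 0)).image
            (fun q => (Fin.cons k q : Fin (d + 1) → ℕ))).card) ≤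
            ∑ k ∈ range (m + 1), (T (W - k * w 0)).card :=
          sum_le_sum fun k _ => card_image_le
        exact_mod_cast le_trans h1 h2
      have c2 : (∑ k ∈ range (m + 1), ((T (W - k * w 0)).card : ℝ)) * ∏ i : Fin (d + 1), w i ≤
          (∑ k ∈ range (m + 1), w 0 * ((W + s) - k * w 0) ^ d) / (d.factorial : ℝ) := by
        rw [Fin.prod_univ_succ, sum_mul, sum_div]
        refine sum_le_sum fun k hk => ?_
        have h3 := hc (W - k * w 0) (hm k hk)
        have h4 : (W - k * w 0 + ∑ i : Fin d, w i.succ) = (W + s) - k * w 0 := by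
          rw [hs]
          ring
        rw [h4] at h3
        have h5 := mul_le_mul_of_nonneg_left h3 w0.le
        calc ((T (W - k * w 0)).card : ℝ) * (w 0 * ∏ i : Fin d, w i.succ)
            = w 0 * (((T (W - k * w 0)).card : ℝ) * ∏ i : Fin d, w i.succ) := by ring
          _ ≤ w 0 * (((W + s) - k * w 0) ^ d / (d.factorial : ℝ)) := h5
          _ = _ := by ring
      have hm0 : 0 ≤ W - m * w 0 := hm m (mem_range.mpr (Nat.lt_succ_self m))
      have c3 := sum_step d w0.le (z := W + s) m (by linarith)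
      have c4 : 0 ≤ ((W + s) - m * w 0) ^ (d + 1) := pow_nonneg (by linarith) _
      have f0 : (0 : ℝ) < (d.factorial : ℝ) := Nat.cast_pos.mpr (Nat.factorial_pos d)
      have f1 : (((d + 1).factorial : ℕ) : ℝ) = (d + 1) * (d.factorial : ℝ) := by
        rw [Nat.factorial_succ]
        push_cast
        ring
      have d0 : (0 : ℝ) < (d : ℝ) + 1 := by positivity
      have P1 : 0 ≤ ∏ i : Fin (d + 1), w i := prod_nonneg fun i _ => (hw _).le
      refine le_trans (mul_le_mul_of_nonneg_right c1 P1) (le_trans c2 ?_)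
      rw [f1, div_le_div_iff₀ f0 (by positivity)]
      have e1 : W + ∑ i : Fin (d + 1), w i = W + s + w 0 := by
        rw [Fin.sum_univ_succ, hs]
        ring
      rw [e1]
      calc (∑ k ∈ range (m + 1), w 0 * ((W + s) - k * w 0) ^ d) * ((d + 1) * (d.factorial : ℝ))
          = ((∑ k ∈ range (m + 1), w 0 * ((W + s) - k * w 0) ^ d) * (d + 1)) *
              (d.factorial : ℝ) := by ring
        _ ≤ (W + s + w 0) ^ (d + 1) * (d.factorial : ℝ) :=
            mul_le_mul_of_nonneg_right (by linarith) f0.le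

theorem cnt {α₁ ξ₁ α₂ ξ₂ W : ℝ} (h1 : 0 < α₁) (h2 : 0 < ξ₁) (h3 : 0 < α₂) (h4 : 0 < ξ₂)
    (hW : 0 ≤ W) : ∃ S : Finset ((Fin 2 →₀ ℕ) × (Fin 2 →₀ ℕ)),
      (∀ μ μ' : Fin 2 →₀ ℕ, (μ, μ') ∈ S ↔ wt α₁ ξ₁ α₂ ξ₂ μ μ' ≤ W) ∧
      (S.card : ℝ) * (α₁ * ξ₁ * α₂ * ξ₂) ≤ (W + (α₁ + ξ₁ + α₂ + ξ₂)) ^ 4 / 24 := by
  classical
  obtain ⟨T, hT, hc⟩ := gen 4 ![α₁, ξ₁, α₂, ξ₂] (by
    intro i
    fin_cases i
    · exact h1
    · exact h2
    · exact h3
    · exact h4)
  let g : (Fin 4 → ℕ) → (Fin 2 →₀ ℕ) × (Fin 2 →₀ ℕ) := fun p =>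
    (Finsupp.single 0 (p 0) + Finsupp.single 1 (p 1),
      Finsupp.single 0 (p 2) + Finsupp.single 1 (p 3))
  refine ⟨(T W).image g, ?_, ?_⟩
  · intro μ μ'
    simp only [mem_image]
    constructor
    · rintro ⟨p, hp, hg⟩
      rw [hT] at hp
      have e1 : μ = Finsupp.single 0 (p 0) + Finsupp.single 1 (p 1) := (congrArg Prod.fst hg).symm
      have e2 : μ' = Finsupp.single 0 (p 2) + Finsupp.single 1 (p 3) := (congrArg Prod.snd hg).symm
      have a0 : μ 0 = p 0 := by
        rw [e1]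
        simp
      have a1 : μ 1 = p 1 := by
        rw [e1]
        simp
      have b0 : μ' 0 = p 2 := by
        rw [e2]
        simp
      have b1 : μ' 1 = p 3 := by
        rw [e2]
        simp
      unfold wt
      rw [a0, a1, b0, b1]
      simp only [Fin.sum_univ_four] at hp
      simpa using hp
    · intro h
      refine ⟨![μ 0, μ 1, μ' 0, μ' 1], ?_, ?_⟩
      · rw [hT]
        unfold wt at h
        simp only [Fin.sum_univ_four]
        simpa using h
      · refine Prod.ext ?_ ?_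
        · refine Finsupp.ext fun i => ?_
          fin_cases i
          · simp [g]
          · simp [g]
        · refine Finsupp.ext fun i => ?_
          fin_cases i
          · simp [g]
          · simp [g]
  · have h5 := hc W hW
    have h6 : (((T W).image g).card : ℝ) ≤ ((T W).card : ℝ) := by exact_mod_cast card_image_le
    have h7 : 0 ≤ α₁ * ξ₁ * α₂ * ξ₂ := by positivity
    have e3 : ∏ i : Fin 4, (![α₁, ξ₁, α₂, ξ₂] : Fin 4 → ℝ) i = α₁ * ξ₁ * α₂ * ξ₂ := by
      simp [Fin.prod_univ_four]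
    have e4 : ∑ i : Fin 4, (![α₁, ξ₁, α₂, ξ₂] : Fin 4 → ℝ) i = α₁ + ξ₁ + α₂ + ξ₂ := by
      simp [Fin.sum_univ_four]
    have e5 : ((Nat.factorial 4 : ℕ) : ℝ) = 24 := by norm_num [Nat.factorial]
    rw [e3, e4, e5] at h5
    exact le_trans (mul_le_mul_of_nonneg_right h6 h7) h5

end Pool.Agent.H48.SX
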