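import Pool.Agent.H48.SX.Defs

/-!
# [H48 SX LMC] the number of functions

PROOF. `lam_card`: the cardinality is `I · QQ n M`, `QQ n M = ∑_{k<n} (M + 1 - k)`. Upper bound: `QQ n M ≤ n (M+1)`. Lower bound: `I = ⌊Υ/α⌋ > Υ/α - 1`, so
`I α ≥ Υ - α ≥ 0`; `QQ n M ≥ n (M + 1 - n)` as real numbers (`(M + 1 - k : ℕ) ≥ M + 1 - k ≥ M + 1 - n` in `ℝ`), `M + 1 > Υ/ξ`, so
`QQ n M · ξ ≥ n (Υ - n ξ) ≥ 0`. Multiply.
-/

namespace Pool.Agent.H48.SX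

open Finset Polynomial Pool.Agent.H37.TE Pool.Agent.H98.TE Pool.Agent.H4.TP Pool.Agent.H98.XG
open scoped ENNReal

theorem lam_ub (I n M : ℕ) : Fintype.card (Lam I n M) ≤ I * (n * (M + 1)) := by
  rw [lam_card]
  refine Nat.mul_le_mul_left _ ?_
  unfold QQ
  calc ∑ k : Fin n, (M + 1 - (k : ℕ)) ≤ ∑ _k : Fin n, (M + 1) := Finset.sum_le_sum fun k _ => Nat.sub_le _ _
    _ = n * (M + 1) := by simp

theorem lam_lb {n : ℕ} {α ξ Υ : ℝ} (hα : 0 < α) (hξ : 0 < ξ) (h1 : α ≤ Υ) (h2 : n * ξ ≤ Υ) :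
    (Υ - α) * (n * (Υ - n * ξ)) ≤ (Fintype.card (Lam ⌊Υ / α⌋₊ n ⌊Υ / ξ⌋₊) : ℝ) * (α * ξ) := by
  rw [lam_card]
  have hI : Υ - α ≤ (⌊Υ / α⌋₊ : ℝ) * α := by
    have h3 : Υ / α < ⌊Υ / α⌋₊ + 1 := Nat.lt_floor_add_one _
    rw [div_lt_iff₀ hα] at h3
    linarith
  have hM : Υ ≤ ((⌊Υ / ξ⌋₊ : ℝ) + 1) * ξ := by
    have h3 : Υ / ξ < ⌊Υ / ξ⌋₊ + 1 := Nat.lt_floor_add_one _
    rw [div_lt_iff₀ hξ] at h3
    exact h3.le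
  obtain ⟨M, hMM⟩ : ∃ M : ℕ, M = ⌊Υ / ξ⌋₊ := ⟨_, rfl⟩
  rw [← hMM] at hM ⊢
  have hQ : (n : ℝ) * ((M : ℝ) + 1 - n) ≤ (QQ n M : ℝ) := by
    unfold QQ
    rw [Nat.cast_sum]
    calc (n : ℝ) * ((M : ℝ) + 1 - n) = ∑ _k : Fin n, ((M : ℝ) + 1 - n) := by
          rw [Finset.sum_const, Finset.card_univ, Fintype.card_fin, nsmul_eq_mul]
      _ ≤ ∑ k : Fin n, ((M + 1 - (k : ℕ) : ℕ) : ℝ) := by
        refine Finset.sum_le_sum fun k _ => ?_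
        have h3 : M + 1 ≤ (M + 1 - (k : ℕ)) + (k : ℕ) := by omega
        have h4 : ((M : ℝ) + 1) ≤ ((M + 1 - (k : ℕ) : ℕ) : ℝ) + (k : ℕ) := by exact_mod_cast h3
        have h5 : ((k : ℕ) : ℝ) ≤ n := by exact_mod_cast k.2.le
        linarith
  have hn0 : (0 : ℝ) ≤ n := Nat.cast_nonneg n
  have hQξ : (n : ℝ) * (Υ - n * ξ) ≤ (QQ n M : ℝ) * ξ := by
    have h3 : (n : ℝ) * ((M : ℝ) + 1 - n) * ξ ≤ (QQ n M : ℝ) * ξ := mul_le_mul_of_nonneg_right hQ hξ.le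
    have h4 : (n : ℝ) * Υ ≤ n * (((M : ℝ) + 1) * ξ) := mul_le_mul_of_nonneg_left hM hn0
    nlinarith
  have h5 := mul_le_mul hI hQξ (mul_nonneg hn0 (by linarith)) (by positivity)
  refine h5.trans (le_of_eq ?_)
  push_cast
  ring

end Pool.Agent.H48.SX
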