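import Pool.Agent.H48.SX.Defs

/-!
# [H48 SX PRM] the parameters

PROOF. Put `f(x) = r (1 + x) (4 + x + (2 j + 4) x)^4 / 24` and `g(x) = n² (1 - x)² (1 - n (j+1) x)²`. `f(0) = 32 r / 3 < n² = g(0)`, both are continuous,
so `f(x) ≤ g(x)` for `0 ≤ x ≤ x0`; take `N0 ≥ 1` with `1/N0 ≤ x0` and `n (j+1) / N0 ≤ 1`, `E = N0`, `τ = x = 1/N0`. Let `Υ = N0 α₂`: `α₂ = x Υ`,
`α₁ ≤ x Υ`, `ξ₁ ≤ (j+1) α₁ ≤ (j+1) x Υ`, `ξ₂ ≤ (j+1) x Υ`. So `n ξ_i ≤ Υ`, `(4 + τ) Υ + (α₁ + ξ₁ + α₂ + ξ₂) ≤ Υ (4 + x + (2 + 2(j+1)) x)`,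
`Υ - α_i ≥ Υ (1 - x) ≥ 0`, `Υ - n ξ_i ≥ Υ (1 - n (j+1) x) ≥ 0`, and
`r (..)^4/24 (E + 1) ≤ E Υ^4 r (1 + x) (4 + x + (2j+4) x)^4/24 ≤ E Υ^4 n² (1-x)² (1 - n(j+1)x)²` (`E + 1 = E (1 + x)`).
-/

namespace Pool.Agent.H48.SX

open Finset Polynomial Pool.Agent.H37.TE Pool.Agent.H98.TE Pool.Agent.H4.TP Pool.Agent.H98.XG
open scoped ENNReal

private theorem prm_x {n r : ℕ} (h : 32 * r < 3 * n ^ 2) (j : ℕ) : ∃ δ : ℝ, 0 < δ ∧ ∀ x : ℝ, 0 < x → x < δ →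
    (r : ℝ) * (1 + x) * (4 + x + (2 * j + 4) * x) ^ 4 / 24 ≤ (n : ℝ) ^ 2 * ((1 - x) ^ 2 * (1 - n * (j + 1) * x) ^ 2) := by
  have hc : Continuous (fun x : ℝ => (r : ℝ) * (1 + x) * (4 + x + (2 * j + 4) * x) ^ 4 / 24 -
      (n : ℝ) ^ 2 * ((1 - x) ^ 2 * (1 - n * (j + 1) * x) ^ 2)) := by fun_prop
  have h0 : (r : ℝ) * (1 + 0) * (4 + 0 + (2 * j + 4) * 0) ^ 4 / 24 -
      (n : ℝ) ^ 2 * ((1 - 0) ^ 2 * (1 - n * (j + 1) * 0) ^ 2) < 0 := by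
    have h1 : (32 : ℝ) * r < 3 * n ^ 2 := by exact_mod_cast h
    nlinarith
  obtain ⟨δ, hδ, h1⟩ := Metric.eventually_nhds_iff.1 ((hc.tendsto 0).eventually_lt_const h0)
  refine ⟨δ, hδ, fun x hx hx1 => ?_⟩
  have h2 := h1 (y := x) (by
    rw [Real.dist_eq, sub_zero, abs_of_pos hx]
    exact hx1)
  linarith

theorem par_exists {n r : ℕ} (h : 32 * r < 3 * n ^ 2) (j : ℕ) :
    ∃ (N0 E : ℕ) (τ : ℝ), Par n r j N0 E τ := by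
  obtain ⟨δ, hδ, hx⟩ := prm_x h j
  obtain ⟨N0, hN0⟩ : ∃ N0 : ℕ, N0 = ⌈1 / δ⌉₊ + n * (j + 1) + 1 := ⟨_, rfl⟩
  have hN1 : 1 ≤ N0 := by omega
  have hNr : (1 : ℝ) ≤ N0 := by exact_mod_cast hN1
  have hNp : (0 : ℝ) < N0 := by linarith
  obtain ⟨x, hxx⟩ : ∃ x : ℝ, x = 1 / N0 := ⟨_, rfl⟩
  have hx0 : 0 < x := by rw [hxx]; positivity
  have hx1 : x ≤ 1 := by
    rw [hxx, div_le_one hNp]
    exact hNr
  have hNx : (N0 : ℝ) * x = 1 := by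
    rw [hxx]
    field_simp
  have hxδ : x < δ := by
    have h1 : 1 / δ ≤ (⌈1 / δ⌉₊ : ℝ) := Nat.le_ceil _
    have h2 : (⌈1 / δ⌉₊ : ℝ) < N0 := by
      have : ⌈1 / δ⌉₊ < N0 := by omega
      exact_mod_cast this
    have h3 : 1 / δ < N0 := lt_of_le_of_lt h1 h2
    rw [div_lt_iff₀ hδ] at h3
    rw [hxx, div_lt_iff₀ hNp]
    linarith
  have hnx : (n : ℝ) * (j + 1) * x ≤ 1 := by
    have h1 : (n : ℝ) * (j + 1) ≤ N0 := by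
      have : n * (j + 1) ≤ N0 := by omega
      exact_mod_cast this
    calc (n : ℝ) * (j + 1) * x ≤ N0 * x := mul_le_mul_of_nonneg_right h1 hx0.le
      _ = 1 := hNx
  have hmain := hx x hx0 hxδ
  have hj0 : (0 : ℝ) ≤ j := Nat.cast_nonneg j
  have hn0 : (0 : ℝ) ≤ n := Nat.cast_nonneg n
  have hr0 : (0 : ℝ) ≤ r := Nat.cast_nonneg r
  refine ⟨N0, N0, x, ⟨hN1, hN1, hx0, hx1, ?_⟩⟩
  intro α₁ ξ₁ α₂ ξ₂ ha1 ha12 hξ1 hξa1 hξ2 hξa2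
  have ha2 : 0 < α₂ := by linarith
  obtain ⟨Y, hY⟩ : ∃ Y : ℝ, Y = N0 * α₂ := ⟨_, rfl⟩
  have hY0 : 0 < Y := by rw [hY]; positivity
  have hα2 : α₂ = x * Y := by
    rw [hY, ← mul_assoc, mul_comm x, hNx, one_mul]
  rw [← hY]
  have hα1 : α₁ ≤ x * Y := by rw [← hα2]; exact ha12
  have hxi1 : ξ₁ ≤ (j + 1) * (x * Y) := hξa1.trans (mul_le_mul_of_nonneg_left hα1 (by positivity))
  have hxi2 : ξ₂ ≤ (j + 1) * (x * Y) := by rw [← hα2]; exact hξa2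
  have hxY : 0 < x * Y := by positivity
  have hn1 : (n : ℝ) * ξ₁ ≤ n * (j + 1) * x * Y := by
    calc (n : ℝ) * ξ₁ ≤ n * ((j + 1) * (x * Y)) := mul_le_mul_of_nonneg_left hxi1 hn0
      _ = n * (j + 1) * x * Y := by ring
  have hn2 : (n : ℝ) * ξ₂ ≤ n * (j + 1) * x * Y := by
    calc (n : ℝ) * ξ₂ ≤ n * ((j + 1) * (x * Y)) := mul_le_mul_of_nonneg_left hxi2 hn0
      _ = n * (j + 1) * x * Y := by ring
  have hnY : (n : ℝ) * (j + 1) * x * Y ≤ Y := by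
    calc (n : ℝ) * (j + 1) * x * Y ≤ 1 * Y := mul_le_mul_of_nonneg_right hnx hY0.le
      _ = Y := one_mul Y
  have hxY1 : x * Y ≤ Y := by
    calc x * Y ≤ 1 * Y := mul_le_mul_of_nonneg_right hx1 hY0.le
      _ = Y := one_mul Y
  refine ⟨by rw [hα2]; exact hxY1, hn1.trans hnY, hn2.trans hnY, ?_⟩
  obtain ⟨L, hL⟩ : ∃ L : ℝ, L = (4 + x) * Y + (α₁ + ξ₁ + α₂ + ξ₂) := ⟨_, rfl⟩
  rw [← hL]
  have hL0 : 0 ≤ L := by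
    rw [hL]
    positivity
  have hL1 : L ≤ Y * (4 + x + (2 * j + 4) * x) := by
    rw [hL, hα2]
    nlinarith
  have hL4 : L ^ 4 ≤ Y ^ 4 * (4 + x + (2 * j + 4) * x) ^ 4 := by
    rw [← mul_pow]
    exact pow_le_pow_left₀ hL0 hL1 4
  have hprod : Y ^ 4 * ((1 - x) ^ 2 * (1 - n * (j + 1) * x) ^ 2) ≤
      (Y - α₁) * (Y - n * ξ₁) * (Y - α₂) * (Y - n * ξ₂) := by
    have e1 : Y * (1 - x) ≤ Y - α₁ := by linarith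
    have e2 : Y * (1 - x) ≤ Y - α₂ := by linarith
    have e3 : Y * (1 - n * (j + 1) * x) ≤ Y - n * ξ₁ := by linarith
    have e4 : Y * (1 - n * (j + 1) * x) ≤ Y - n * ξ₂ := by linarith
    have p1 : 0 ≤ Y * (1 - x) := mul_nonneg hY0.le (by linarith)
    have p3 : 0 ≤ Y * (1 - n * (j + 1) * x) := mul_nonneg hY0.le (by linarith)
    have q1 : Y * (1 - x) * (Y * (1 - n * (j + 1) * x)) ≤ (Y - α₁) * (Y - n * ξ₁) := mul_le_mul e1 e3 p3 (p1.trans e1)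
    have q2 : Y * (1 - x) * (Y * (1 - n * (j + 1) * x)) ≤ (Y - α₂) * (Y - n * ξ₂) := mul_le_mul e2 e4 p3 (p1.trans e2)
    have q3 := mul_le_mul q1 q2 (mul_nonneg p1 p3) ((mul_nonneg p1 p3).trans q1)
    calc Y ^ 4 * ((1 - x) ^ 2 * (1 - n * (j + 1) * x) ^ 2) =
        Y * (1 - x) * (Y * (1 - n * (j + 1) * x)) * (Y * (1 - x) * (Y * (1 - n * (j + 1) * x))) := by ring
      _ ≤ _ := q3
      _ = _ := by ring
  calc (r : ℝ) * (L ^ 4 / 24) * (N0 + 1) ≤ r * (Y ^ 4 * (4 + x + (2 * j + 4) * x) ^ 4 / 24) * (N0 + 1) := by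
        refine mul_le_mul_of_nonneg_right (mul_le_mul_of_nonneg_left ?_ hr0) (by positivity)
        linarith
    _ = N0 * (Y ^ 4 * (r * (1 + x) * (4 + x + (2 * j + 4) * x) ^ 4 / 24)) := by
        have h1 : (N0 : ℝ) + 1 = N0 * (1 + x) := by rw [mul_add, hNx, mul_one]
        rw [h1]
        ring
    _ ≤ N0 * (Y ^ 4 * ((n : ℝ) ^ 2 * ((1 - x) ^ 2 * (1 - n * (j + 1) * x) ^ 2))) :=
        mul_le_mul_of_nonneg_left (mul_le_mul_of_nonneg_left hmain (by positivity)) hNp.le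
    _ = N0 * ((n : ℝ) ^ 2 * (Y ^ 4 * ((1 - x) ^ 2 * (1 - n * (j + 1) * x) ^ 2))) := by ring
    _ ≤ N0 * ((n : ℝ) ^ 2 * ((Y - α₁) * (Y - n * ξ₁) * (Y - α₂) * (Y - n * ξ₂))) :=
        mul_le_mul_of_nonneg_left (mul_le_mul_of_nonneg_left hprod (by positivity)) hNp.le

end Pool.Agent.H48.SX
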