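import Mathlib

/-!
# [H48 SX SGZ] Siegel's lemma over a number field with unknowns in `ℤ`

PROOF. `C = max 1 c` with `c` the constant of `NumberField.house.basis_repr_norm_le_const_mul_house K`. `ω_s`, `s : K →+* ℂ`, is the integral basis
`(integralBasis K).reindex (equivReindex K).symm`; there are `r = finrank ℚ K` indices (`NumberField.Embeddings.card K ℂ`). The coordinates
`b_{i,s,j}` of the integer `a i j` are integers (`integralBasis_repr_apply`) with `|b_{i,s,j}| ≤ c · house (a i j) ≤ C A`. It is enough to solve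
`∑_j c_j b_{i,s,j} = 0` for all `(i, s) ∈ α × (K →+* ℂ)`: `m = r · card α` equations, `N = card β` unknowns. If `m = 0` then `α` is empty (`r ≥ 1`); take `c` the
indicator of one `j` (`1 ≤ (N (C A))^E`). If `m > 0` then `E ≥ 1` and `m (E+1) ≤ E N < (E + 1) N`, so `m < N`, and
`Int.Matrix.exists_ne_zero_int_vec_norm_le` gives `c ≠ 0`, `B c = 0`, `‖c‖ ≤ (N max(1, ‖B‖))^(m/(N-m))` (real exponent) with `m/(N - m) ≤ E`
(from `m (E+1) ≤ E N`) and base `≥ 1`, `max(1, ‖B‖) ≤ C A` (`Matrix.norm_le_iff`, local instance `Matrix.seminormedAddCommGroup` as in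
`Mathlib/NumberTheory/NumberField/House.lean`).
-/

namespace Pool.Agent.H48.SX

open Finset

section aux

attribute [local instance] Matrix.seminormedAddCommGroup

open NumberField Module

/-- integral coordinates, with a bound -/
private theorem coords (K : Type) [Field K] [NumberField K] : ∃ (C : ℝ)
    (ω : Basis (K →+* ℂ) ℤ (𝓞 K)), 1 ≤ C ∧ ∀ (x : 𝓞 K) (s : K →+* ℂ),
      |((ω.repr x s : ℤ) : ℝ)| ≤ C * house (algebraMap (𝓞 K) K x) := by
  classical
  obtain ⟨c, hc⟩ : ∃ c : ℝ, ∀ (x : 𝓞 K) (s : K →+* ℂ),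
      ‖(((integralBasis K).reindex (equivReindex K).symm).repr x s : ℂ)‖ ≤
      c * house (algebraMap (𝓞 K) K x) := ⟨_, house.basis_repr_norm_le_const_mul_house K⟩
  refine ⟨max 1 c, (RingOfIntegers.basis K).reindex (equivReindex K).symm, le_max_left _ _,
    fun x s => ?_⟩
  have h := hc x s
  simp only [Basis.repr_reindex, Finsupp.mapDomain_equiv_apply, integralBasis_repr_apply,
    eq_intCast, Rat.cast_intCast, Complex.norm_intCast] at h
  rw [Basis.repr_reindex, Finsupp.mapDomain_equiv_apply]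
  refine h.trans ?_
  exact mul_le_mul_of_nonneg_right (le_max_right _ _) (house_nonneg _)

/-- Siegel's lemma with an integral exponent -/
private theorem siegelZ {γ β : Type} [Fintype γ] [Fintype β] (B : Matrix γ β ℤ) (R : ℝ) (E : ℕ)
    (hR : 1 ≤ R) (hB : ∀ i j, |((B i j : ℤ) : ℝ)| ≤ R) (hβ : 0 < Fintype.card β)
    (hE : Fintype.card γ * (E + 1) ≤ E * Fintype.card β) :
    ∃ t : β → ℤ, t ≠ 0 ∧ (∀ j, |((t j : ℤ) : ℝ)| ≤ (Fintype.card β * R) ^ E) ∧
      ∀ i, ∑ j, B i j * t j = 0 := by
  classical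
  have hβ1 : (1 : ℝ) ≤ Fintype.card β := by exact_mod_cast hβ
  have hbase : (1 : ℝ) ≤ Fintype.card β * R := one_le_mul_of_one_le_of_one_le hβ1 hR
  rcases Nat.eq_zero_or_pos (Fintype.card γ) with h0 | hpos
  · have : IsEmpty γ := Fintype.card_eq_zero_iff.1 h0
    obtain ⟨j0⟩ := Fintype.card_pos_iff.1 hβ
    refine ⟨Pi.single j0 1, ?_, fun j => ?_, fun i => (IsEmpty.false i).elim⟩
    · intro h
      have := congrFun h j0
      simp at this
    · have h1 : |((Pi.single j0 (1 : ℤ) : β → ℤ) j : ℝ)| ≤ 1 := by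
        by_cases hj : j = j0
        · subst hj
          simp
        · rw [Pi.single_eq_of_ne hj]
          simp
      exact h1.trans (one_le_pow₀ hbase)
  · have hlt : Fintype.card γ < Fintype.card β := by
      by_contra hcon
      push Not at hcon
      have h1 : E * Fintype.card β ≤ E * Fintype.card γ := Nat.mul_le_mul_left _ hcon
      have h2 : Fintype.card γ * (E + 1) = E * Fintype.card γ + Fintype.card γ := by ring
      omega
    obtain ⟨t, ht0, ht1, ht2⟩ := Int.Matrix.exists_ne_zero_int_vec_norm_le B hlt hpos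
    refine ⟨t, ht0, fun j => ?_, fun i => ?_⟩
    · have hn : ‖B‖ ≤ R := by
        rw [Matrix.norm_le_iff (by linarith)]
        intro i j
        rw [Int.norm_eq_abs]
        exact hB i j
      have h1 : |((t j : ℤ) : ℝ)| ≤ ‖t‖ := by
        rw [← Int.norm_eq_abs]
        exact norm_le_pi_norm t j
      have h2 : (Fintype.card γ : ℝ) / (Fintype.card β - Fintype.card γ) ≤ (E : ℝ) := by
        have h3 : (0 : ℝ) < Fintype.card β - Fintype.card γ := by
          have : (Fintype.card γ : ℝ) < Fintype.card β := by exact_mod_cast hlt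
          linarith
        rw [div_le_iff₀ h3]
        have h4 : (Fintype.card γ : ℝ) * (E + 1) ≤ E * Fintype.card β := by exact_mod_cast hE
        linarith
      calc |((t j : ℤ) : ℝ)| ≤ ‖t‖ := h1
        _ ≤ (Fintype.card β * max 1 ‖B‖) ^
            ((Fintype.card γ : ℝ) / (Fintype.card β - Fintype.card γ)) := ht2
        _ ≤ (Fintype.card β * R) ^
            ((Fintype.card γ : ℝ) / (Fintype.card β - Fintype.card γ)) := by
          have h3 : (0 : ℝ) ≤ Fintype.card β - Fintype.card γ := by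
            have : (Fintype.card γ : ℝ) < Fintype.card β := by exact_mod_cast hlt
            linarith
          refine Real.rpow_le_rpow (by positivity) ?_ (by positivity)
          exact mul_le_mul_of_nonneg_left (max_le hR hn) (by positivity)
        _ ≤ (Fintype.card β * R) ^ (E : ℝ) := Real.rpow_le_rpow_of_exponent_le hbase h2
        _ = (Fintype.card β * R) ^ E := Real.rpow_natCast _ _
    · have := congrFun ht1 i
      simpa [Matrix.mulVec, dotProduct] using this

end aux

theorem siegelK (K : Type) [Field K] [NumberField K] : ∃ C : ℝ, 1 ≤ C ∧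
    ∀ (α β : Type) [Fintype α] [Fintype β] (a : α → β → K) (A : ℝ) (E : ℕ), 1 ≤ A →
      (∀ i j, IsIntegral ℤ (a i j)) → (∀ i j, NumberField.house (a i j) ≤ A) →
      0 < Fintype.card β →
      (Module.finrank ℚ K * Fintype.card α) * (E + 1) ≤ E * Fintype.card β →
      ∃ c : β → ℤ, c ≠ 0 ∧ (∀ j, |((c j : ℤ) : ℝ)| ≤ (Fintype.card β * (C * A)) ^ E) ∧
        ∀ i, ∑ j, ((c j : ℤ) : K) * a i j = 0 := by
  classical
  obtain ⟨C, ω, hC, hω⟩ := coords K
  refine ⟨C, hC, fun α β _ _ a A E hA hint hhouse hβ hE => ?_⟩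
  have hcard : Fintype.card (α × (K →+* ℂ)) = Module.finrank ℚ K * Fintype.card α := by
    rw [Fintype.card_prod, NumberField.Embeddings.card, mul_comm]
  obtain ⟨b, hb⟩ : ∃ b : α → β → NumberField.RingOfIntegers K,
      ∀ i j, algebraMap (NumberField.RingOfIntegers K) K (b i j) = a i j :=
    ⟨fun i j => ⟨a i j, hint i j⟩, fun i j => rfl⟩
  obtain ⟨t, ht0, ht1, ht2⟩ := siegelZ (γ := α × (K →+* ℂ)) (β := β)
    (fun i j => ω.repr (b i.1 j) i.2) (C * A) E
    (one_le_mul_of_one_le_of_one_le hC hA)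
    (fun i j => (hω _ _).trans
      (mul_le_mul_of_nonneg_left (by rw [hb]; exact hhouse i.1 j) (by linarith))) hβ
    (by rw [hcard]; exact hE)
  refine ⟨t, ht0, ht1, fun i => ?_⟩
  have h1 : ∑ j, t j • b i j = 0 := by
    apply ω.repr.injective
    rw [map_zero, map_sum]
    ext s
    rw [Finsupp.finsetSum_apply, Finsupp.zero_apply]
    have h2 := ht2 (i, s)
    rw [← h2]
    refine Finset.sum_congr rfl fun j _ => ?_
    rw [map_zsmul, Finsupp.smul_apply, smul_eq_mul, mul_comm]
  have h2 := congrArg (algebraMap (NumberField.RingOfIntegers K) K) h1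
  rw [map_sum, map_zero] at h2
  rw [← h2]
  refine Finset.sum_congr rfl fun j _ => ?_
  rw [map_zsmul, zsmul_eq_mul, hb]

end Pool.Agent.H48.SX
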