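import Pool.Agent.H48.SX.Pwr
import Pool.Agent.H48.SX.Sgz
import Pool.Agent.H48.SX.Cnt
import Pool.Agent.H48.SX.Prm
import Pool.Agent.H48.SX.Lmc
import Pool.Agent.H48.SX.Axn

/-!
# [H48 SX AXC] the auxiliary function: small integers `c(l, l')` with `Bc Φ c μ μ' = 0` up to the weight `(4 + τ) Υ`

PROOF. `C` from `siegelK K`, `L0` from `axn n N0 E Q q C κ ρ η`. Let `Υ = N0 α₂ > 0`, `W = (4 + τ) Υ ≤ 5 Υ`, `S` from `cnt` for `W`, `I_i = ⌊Υ/α_i⌋₊`,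
`M_i = ⌊Υ/ξ_i⌋₊`, `Λ_i = Lam I_i n M_i` (all of `α₁, ξ₁, α₂, ξ₂` are positive). By `lam_lb` (twice, `hp.ineq` gives `n ξ_i ≤ Υ`, and `α₁ ≤ α₂ ≤ Υ`) and
`hp.ineq`: `r |S| (E + 1) α₁ξ₁α₂ξ₂ ≤ r (W + Σ)^4/24 (E+1) ≤ E n² (Υ-α₁)(Υ-nξ₁)(Υ-α₂)(Υ-nξ₂) ≤ E |Λ₁| |Λ₂| α₁ξ₁α₂ξ₂`, so
`r |S| (E + 1) ≤ E |Λ₁ × Λ₂|` as natural numbers. `(0, 0) ∈ S` and `r = finrank ≥ 1`, so the left side is `≥ 1` and `|Λ₁ × Λ₂| > 0`.
`D = ⌊5 Q Υ/α₁⌋₊`. For `(μ, μ') ∈ S`: `(|μ| + |μ'|) α₁ ≤ Q wt ≤ 5 Q Υ` (`α₁ ≤ Q α₁`, `α₁ ≤ Q ξ₁`, `α₁ ≤ α₂ ≤ Q α₂`, `α₁ ≤ α₂ ≤ Q ξ₂`), so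
`|μ| + |μ'| ≤ D`. Apply `siegelK` with `α = S` (subtype), `β = Λ₁ × Λ₂`,
`a (μ, μ') (l, l') = (q^(2|μ|+n) coeff μ (Av Φ l)) (q^(2|μ'|+n) coeff μ' (Av Φ l'))`, integral by `av_int`, house at most
`q^(2(|μ|+|μ'|)+2n) κ^(2n) (1/ρ)^(|μ|+|μ'|) ≤ A = q^(2D+2n) κ^(2n) (1/ρ)^D` (`av_house`, `house_mul_le`, `house (q : K) = q` (`house_nat_mul` or
`house_intCast`), `house_pow_le`). The solution `c` satisfies `q^(..) Bc Φ c μ μ' = 0`, so `Bc Φ c μ μ' = 0` (`q ≠ 0` in `K`), and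
`|c| ≤ (|Λ₁| |Λ₂| (C A))^E ≤ exp(η Υ)` by `lam_ub` and `axn` (`I_i α_i ≤ Υ`, `M_i ξ_i ≤ Υ`: `Nat.floor_le`).
-/

namespace Pool.Agent.H48.SX

open Finset Polynomial Pool.Agent.H37.TE Pool.Agent.H98.TE Pool.Agent.H4.TP Pool.Agent.H98.XG
open scoped ENNReal

private theorem pow_house {K : Type} [Field K] [NumberField K] (q k : ℕ) (z : K) :
    NumberField.house ((q : K) ^ k * z) = (q : ℝ) ^ k * NumberField.house z := by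
  have h1 := NumberField.house_nat_mul z (q ^ k)
  push_cast at h1
  exact h1

private theorem pos_of_mul {Q : ℕ} {a b : ℝ} (ha : 0 < a) (h : a ≤ Q * b) : 0 < b := by
  by_contra hb
  rw [not_lt] at hb
  have h1 : (Q : ℝ) * b ≤ 0 := mul_nonpos_of_nonneg_of_nonpos (by positivity) hb
  linarith

theorem axc {K : Type} [Field K] [NumberField K] {n m : ℕ} {F : ℤ[X][X][X]} {g : K}
    {Φ : MvPowerSeries (Fin 2) K} {q : ℕ} {ρ κ : ℝ} (h : IsRt n m F g Φ q ρ κ) {j N0 E Q : ℕ}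
    {τ : ℝ} (hp : Par n (Module.finrank ℚ K) j N0 E τ) (hQ : 1 ≤ Q) (η : ℝ) (hη : 0 < η) :
    ∃ L0 : ℝ, 1 ≤ L0 ∧ ∀ α₁ ξ₁ α₂ ξ₂ : ℝ, L0 ≤ α₁ → α₁ ≤ α₂ → α₁ ≤ Q * ξ₁ →
      ξ₁ ≤ (j + 1) * α₁ → α₂ ≤ Q * ξ₂ → ξ₂ ≤ (j + 1) * α₂ →
      ∃ c : Lam ⌊N0 * α₂ / α₁⌋₊ n ⌊N0 * α₂ / ξ₁⌋₊ → Lam ⌊N0 * α₂ / α₂⌋₊ n ⌊N0 * α₂ / ξ₂⌋₊ → ℤ,
        c ≠ 0 ∧ (∀ l l', |((c l l' : ℤ) : ℝ)| ≤ Real.exp (η * (N0 * α₂))) ∧
        ∀ μ μ' : Fin 2 →₀ ℕ, wt α₁ ξ₁ α₂ ξ₂ μ μ' ≤ (4 + τ) * (N0 * α₂) → Bc Φ c μ μ' = 0 := by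
  classical
  obtain ⟨C, hC1, hS⟩ := siegelK K
  obtain ⟨L0, hL0, hA⟩ := axn n N0 E Q q C κ ρ η hC1 h.κ1 h.ρ0 h.ρ1 h.q1 hp.N1 hQ hη
  refine ⟨L0, hL0, ?_⟩
  intro α₁ ξ₁ α₂ ξ₂ hα₁ hα₁₂ hQ1 hj1 hQ2 hj2
  have pα₁ : 0 < α₁ := by linarith
  have pα₂ : 0 < α₂ := by linarith
  have pξ₁ : 0 < ξ₁ := pos_of_mul pα₁ hQ1
  have pξ₂ : 0 < ξ₂ := pos_of_mul pα₂ hQ2
  have hN0 : (1 : ℝ) ≤ N0 := by exact_mod_cast hp.N1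
  have hQR : (1 : ℝ) ≤ Q := by exact_mod_cast hQ
  obtain ⟨h1, h2, h3, h4⟩ := hp.ineq α₁ ξ₁ α₂ ξ₂ pα₁ hα₁₂ pξ₁ hj1 pξ₂ hj2
  obtain ⟨Υ, hΥ⟩ : ∃ Υ : ℝ, Υ = N0 * α₂ := ⟨_, rfl⟩
  have hA' := hA α₁ ξ₁ α₂ ξ₂ hα₁ hα₁₂ hQ1 hQ2
  rw [← hΥ] at h1 h2 h3 h4 hA'
  rw [← hΥ]
  have pΥ : 0 < Υ := by linarith
  have hτ0 := hp.τ0
  have hτ1 := hp.τ1
  obtain ⟨W, hW⟩ : ∃ W : ℝ, W = (4 + τ) * Υ := ⟨_, rfl⟩
  have hW0 : 0 ≤ W := by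
    rw [hW]
    positivity
  have hW5 : W ≤ 5 * Υ := by
    rw [hW]
    exact mul_le_mul_of_nonneg_right (by linarith) pΥ.le
  rw [← hW] at h4 ⊢
  obtain ⟨S, hSm, hSc⟩ := cnt pα₁ pξ₁ pα₂ pξ₂ hW0
  have l1 := lam_lb (n := n) pα₁ pξ₁ (hα₁₂.trans h1) h2
  have l2 := lam_lb (n := n) pα₂ pξ₂ h1 h3
  obtain ⟨I₁, hI₁⟩ : ∃ I : ℕ, I = ⌊Υ / α₁⌋₊ := ⟨_, rfl⟩
  obtain ⟨M₁, hM₁⟩ : ∃ I : ℕ, I = ⌊Υ / ξ₁⌋₊ := ⟨_, rfl⟩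
  obtain ⟨I₂, hI₂⟩ : ∃ I : ℕ, I = ⌊Υ / α₂⌋₊ := ⟨_, rfl⟩
  obtain ⟨M₂, hM₂⟩ : ∃ I : ℕ, I = ⌊Υ / ξ₂⌋₊ := ⟨_, rfl⟩
  have fl : ∀ {α : ℝ} {k : ℕ}, 0 < α → k = ⌊Υ / α⌋₊ → (k : ℝ) * α ≤ Υ := by
    intro α k hα hk
    have h5 : (k : ℝ) ≤ Υ / α := by
      rw [hk]
      exact Nat.floor_le (by positivity)
    rwa [le_div_iff₀ hα] at h5
  have b1 := fl pα₁ hI₁
  have b2 := fl pξ₁ hM₁
  have b3 := fl pα₂ hI₂
  have b4 := fl pξ₂ hM₂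
  rw [← hI₁, ← hM₁] at l1
  rw [← hI₂, ← hM₂] at l2
  rw [← hI₁, ← hM₁, ← hI₂, ← hM₂]
  obtain ⟨N₁, hN₁⟩ : ∃ N : ℕ, N = Fintype.card (Lam I₁ n M₁) := ⟨_, rfl⟩
  obtain ⟨N₂, hN₂⟩ : ∃ N : ℕ, N = Fintype.card (Lam I₂ n M₂) := ⟨_, rfl⟩
  rw [← hN₁] at l1
  rw [← hN₂] at l2
  obtain ⟨r, hr⟩ : ∃ r : ℕ, r = Module.finrank ℚ K := ⟨_, rfl⟩
  have hr1 : 1 ≤ r := by
    rw [hr]
    exact Module.finrank_pos
  rw [← hr] at h4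
  -- the number of equations
  have hcount : (r * S.card) * (E + 1) ≤ E * (N₁ * N₂) := by
    have hP : 0 < α₁ * ξ₁ * α₂ * ξ₂ := by positivity
    have h5 : ((r : ℝ) * S.card) * (E + 1) * (α₁ * ξ₁ * α₂ * ξ₂) ≤
        (E : ℝ) * (N₁ * N₂) * (α₁ * ξ₁ * α₂ * ξ₂) := by
      have a1 : 0 ≤ Υ - α₁ := by linarith
      have a2 : 0 ≤ Υ - n * ξ₁ := by linarith
      have a3 : 0 ≤ Υ - α₂ := by linarith
      have a4 : 0 ≤ Υ - n * ξ₂ := by linarith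
      calc ((r : ℝ) * S.card) * (E + 1) * (α₁ * ξ₁ * α₂ * ξ₂)
          = (r : ℝ) * (E + 1) * ((S.card : ℝ) * (α₁ * ξ₁ * α₂ * ξ₂)) := by ring
        _ ≤ (r : ℝ) * (E + 1) * ((W + (α₁ + ξ₁ + α₂ + ξ₂)) ^ 4 / 24) :=
            mul_le_mul_of_nonneg_left hSc (by positivity)
        _ = r * ((W + (α₁ + ξ₁ + α₂ + ξ₂)) ^ 4 / 24) * (E + 1) := by ring
        _ ≤ E * (n ^ 2 * ((Υ - α₁) * (Υ - n * ξ₁) * (Υ - α₂) * (Υ - n * ξ₂))) := h4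
        _ = E * (((Υ - α₁) * (n * (Υ - n * ξ₁))) * ((Υ - α₂) * (n * (Υ - n * ξ₂)))) := by ring
        _ ≤ E * (((N₁ : ℝ) * (α₁ * ξ₁)) * ((N₂ : ℝ) * (α₂ * ξ₂))) := by
            refine mul_le_mul_of_nonneg_left (mul_le_mul l1 l2 ?_ ?_) (by positivity)
            · exact mul_nonneg a3 (mul_nonneg (by positivity) a4)
            · positivity
        _ = (E : ℝ) * (N₁ * N₂) * (α₁ * ξ₁ * α₂ * ξ₂) := by ring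
    have h6 := le_of_mul_le_mul_right h5 hP
    exact_mod_cast h6
  have hS1 : 1 ≤ S.card := by
    rw [Nat.one_le_iff_ne_zero, Ne, card_eq_zero]
    intro h0
    have h5 : ((0 : Fin 2 →₀ ℕ), (0 : Fin 2 →₀ ℕ)) ∈ S := by
      rw [hSm]
      simp only [wt, Finsupp.coe_zero, Pi.zero_apply, Nat.cast_zero, zero_mul, add_zero]
      exact hW0
    rw [h0] at h5
    exact absurd h5 (notMem_empty _)
  have hNN : 0 < N₁ * N₂ := by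
    rcases Nat.eq_zero_or_pos (N₁ * N₂) with h0 | h0
    · rw [h0, mul_zero] at hcount
      have h5 : 1 ≤ (r * S.card) * (E + 1) :=
        Nat.one_le_iff_ne_zero.2 (by
          have : 0 < r * S.card := Nat.mul_pos (by omega) (by omega)
          have := Nat.mul_pos this (Nat.succ_pos E)
          exact this.ne')
      omega
    · exact h0
  -- degrees
  obtain ⟨D, hD⟩ : ∃ D : ℕ, D = ⌊5 * Q * Υ / α₁⌋₊ := ⟨_, rfl⟩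
  have hDα : (D : ℝ) * α₁ ≤ 5 * Q * Υ := by
    have h5 : (D : ℝ) ≤ 5 * Q * Υ / α₁ := by
      rw [hD]
      exact Nat.floor_le (by positivity)
    rwa [le_div_iff₀ pα₁] at h5
  have hdeg : ∀ μ μ' : Fin 2 →₀ ℕ, wt α₁ ξ₁ α₂ ξ₂ μ μ' ≤ W → (μ 0 + μ 1) + (μ' 0 + μ' 1) ≤ D := by
    intro μ μ' hw
    rw [hD]
    apply Nat.le_floor
    rw [le_div_iff₀ pα₁]
    push_cast
    unfold wt at hw
    have c1 : α₁ ≤ Q * α₁ := le_mul_of_one_le_left pα₁.le hQR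
    have c3 : α₁ ≤ Q * α₂ := hα₁₂.trans (le_mul_of_one_le_left pα₂.le hQR)
    have c4 : α₁ ≤ Q * ξ₂ := hα₁₂.trans hQ2
    have d1 := mul_le_mul_of_nonneg_left c1 (by positivity : (0 : ℝ) ≤ μ 0)
    have d2 := mul_le_mul_of_nonneg_left hQ1 (by positivity : (0 : ℝ) ≤ μ 1)
    have d3 := mul_le_mul_of_nonneg_left c3 (by positivity : (0 : ℝ) ≤ μ' 0)
    have d4 := mul_le_mul_of_nonneg_left c4 (by positivity : (0 : ℝ) ≤ μ' 1)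
    have d5 := mul_le_mul_of_nonneg_left (hw.trans hW5) (by positivity : (0 : ℝ) ≤ Q)
    linarith
  obtain ⟨A, hAd⟩ : ∃ A : ℝ, A = (q : ℝ) ^ (2 * D + 2 * n) * κ ^ (2 * n) * (1 / ρ) ^ D := ⟨_, rfl⟩
  have hq1 : (1 : ℝ) ≤ q := by exact_mod_cast h.q1
  have hρ1 : 1 ≤ 1 / ρ := by
    rw [le_div_iff₀ h.ρ0]
    linarith [h.ρ1]
  have hκ1 := h.κ1
  have hA1 : 1 ≤ A := by
    rw [hAd]
    exact one_le_mul_of_one_le_of_one_le (one_le_mul_of_one_le_of_one_le (one_le_pow₀ hq1)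
      (one_le_pow₀ hκ1)) (one_le_pow₀ hρ1)
  obtain ⟨a, ha⟩ : ∃ a : {x // x ∈ S} → (Lam I₁ n M₁ × Lam I₂ n M₂) → K, a = fun x l =>
    ((q : K) ^ (2 * (x.1.1 0 + x.1.1 1) + n) * MvPowerSeries.coeff x.1.1 (Av Φ l.1)) *
    ((q : K) ^ (2 * (x.1.2 0 + x.1.2 1) + n) * MvPowerSeries.coeff x.1.2 (Av Φ l.2)) := ⟨_, rfl⟩
  obtain ⟨c, hc0, hcb, hce⟩ := hS {x // x ∈ S} (Lam I₁ n M₁ × Lam I₂ n M₂) a A E hA1 (by
    intro x l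
    rw [ha]
    exact (av_int h l.1 x.1.1).mul (av_int h l.2 x.1.2)) (by
    intro x l
    rw [ha]
    refine (NumberField.house_mul_le _ _).trans ?_
    rw [pow_house, pow_house]
    have g1 := av_house h l.1 x.1.1
    have g2 := av_house h l.2 x.1.2
    have g3 : (x.1.1 0 + x.1.1 1) + (x.1.2 0 + x.1.2 1) ≤ D :=
      hdeg _ _ ((hSm x.1.1 x.1.2).1 x.2)
    have i1 : 0 ≤ NumberField.house (MvPowerSeries.coeff x.1.1 (Av Φ l.1)) :=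
      NumberField.house_nonneg _
    have i2 : 0 ≤ NumberField.house (MvPowerSeries.coeff x.1.2 (Av Φ l.2)) :=
      NumberField.house_nonneg _
    have hρ' : 0 < ρ := h.ρ0
    calc _ ≤ ((q : ℝ) ^ (2 * (x.1.1 0 + x.1.1 1) + n) * (κ ^ n * (1 / ρ) ^ (x.1.1 0 + x.1.1 1))) *
          ((q : ℝ) ^ (2 * (x.1.2 0 + x.1.2 1) + n) * (κ ^ n * (1 / ρ) ^ (x.1.2 0 + x.1.2 1))) := by
          refine mul_le_mul (mul_le_mul_of_nonneg_left g1 (by positivity))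
            (mul_le_mul_of_nonneg_left g2 (by positivity)) (by positivity) (by positivity)
      _ = (q : ℝ) ^ (2 * ((x.1.1 0 + x.1.1 1) + (x.1.2 0 + x.1.2 1)) + 2 * n) * κ ^ (2 * n) *
          (1 / ρ) ^ ((x.1.1 0 + x.1.1 1) + (x.1.2 0 + x.1.2 1)) := by ring
      _ ≤ A := by
          rw [hAd]
          refine mul_le_mul (mul_le_mul_of_nonneg_right (pow_le_pow_right₀ hq1 (by omega))
            (by positivity)) (pow_le_pow_right₀ hρ1 g3) (by positivity) (by positivity)) (by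
    rw [Fintype.card_prod, ← hN₁, ← hN₂]
    exact hNN) (by
    rw [Fintype.card_prod, ← hN₁, ← hN₂, Fintype.card_coe, ← hr]
    exact hcount)
  refine ⟨fun l l' => c (l, l'), ?_, ?_, ?_⟩
  · intro h0
    apply hc0
    funext x
    exact congrFun (congrFun h0 x.1) x.2
  · intro l l'
    refine (hcb (l, l')).trans (le_trans ?_ (hA' I₁ M₁ I₂ M₂ D b1 b2 b3 b4 hDα))
    have hL1 : (N₁ : ℝ) ≤ (I₁ : ℝ) * (n * (M₁ + 1)) := by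
      have := lam_ub I₁ n M₁
      rw [← hN₁] at this
      exact_mod_cast this
    have hL2 : (N₂ : ℝ) ≤ (I₂ : ℝ) * (n * (M₂ + 1)) := by
      have := lam_ub I₂ n M₂
      rw [← hN₂] at this
      exact_mod_cast this
    rw [Fintype.card_prod, ← hN₁, ← hN₂, ← hAd]
    push_cast
    refine pow_le_pow_left₀ (by positivity) ?_ E
    exact mul_le_mul_of_nonneg_right (mul_le_mul hL1 hL2 (by positivity) (by positivity))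
      (by positivity)
  · intro μ μ' hw
    have hmem : (μ, μ') ∈ S := (hSm μ μ').2 hw
    have h5 := hce ⟨(μ, μ'), hmem⟩
    rw [ha, Fintype.sum_prod_type] at h5
    simp only at h5
    have hqK : (q : K) ≠ 0 := by
      have := h.q1
      exact_mod_cast (by omega : q ≠ 0)
    have h6 : ((q : K) ^ (2 * (μ 0 + μ 1) + n) * (q : K) ^ (2 * (μ' 0 + μ' 1) + n)) *
        Bc Φ (fun l l' => c (l, l')) μ μ' = 0 := by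
      rw [← h5]
      unfold Bc
      rw [mul_sum]
      refine sum_congr rfl fun l _ => ?_
      rw [mul_sum]
      refine sum_congr rfl fun l' _ => ?_
      ring
    rcases mul_eq_zero.1 h6 with h7 | h7
    · exfalso
      exact (mul_ne_zero (pow_ne_zero _ hqK) (pow_ne_zero _ hqK)) h7
    · exact h7

end Pool.Agent.H48.SX
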