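import Pool.Agent.H98.XG.Fin

/-!
# [H48 SX] MP_821da1_nt, THEOREM XG, chapter SLX: definitions

`pk n m F u w z = u^m w^n F(1/u, 1/w, z/w)` in any commutative ring (`u = 1/t`, `w = 1/x`, `z = y/x`), `pb` its
coefficients in `z`, `dk` the divided difference in `z`.
`IsNrm N`: a submultiplicative norm with values in `[0, ∞]`; `wn N ρ f = ∑ N(f_ν) ρ^ν` the weighted `ℓ¹` norm of a
power series in two variables; `hs` the house of an algebraic number, `en` the absolute value of a real number.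
`IsIt n e h s`: `h = -∑_{k ≤ n} e_k h^k` is the limit of the iteration `s`.
`IsRt n m F g Φ q ρ κ`: `Φ(u, w)` is the root of `pk` with `Φ(0, 0) = g`, with its denominators and its norm.
`Av Φ l = u^(I-i) w^(M-k-b) Φ^b` for `l = (i, b, k)`, `Bc Φ c μ μ'` the coefficient of `(μ, μ')` in
`∑ c(l, l') Av_l(u, w) Av_l'(u', w')`, `wt` the weight of `(μ, μ')`.
`Ew U V f = f(U, V)` for power series `U, V` (convergent substitution), `ev2 u v f = f(u, v)` for real numbers, `Cvg ρ w U V`: `U` and `V`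
have norm at most `ρ` for the weights `w`; `iv i a = 1/(a + X_i)`.
-/

namespace Pool.Agent.H48.SX

open Finset Polynomial Pool.Agent.H37.TE Pool.Agent.H98.TE Pool.Agent.H4.TP Pool.Agent.H98.XG
open scoped ENNReal

/-! ### The surface in the variables `u = 1/t`, `w = 1/x`, `z = y/x` -/

/-- the coefficient of `z^b` -/
noncomputable def pb {A : Type*} [CommRing A] (n m : ℕ) (F : ℤ[X][X][X]) (b : ℕ) (u w : A) : A :=
  ∑ a ∈ range (n + 1 - b), ∑ j ∈ range (m + 1),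
    ((cf3 F j a b : ℤ) : A) * (u ^ (m - j) * w ^ (n - a - b))

/-- `u^m w^n F(1/u, 1/w, z/w)` -/
noncomputable def pk {A : Type*} [CommRing A] (n m : ℕ) (F : ℤ[X][X][X]) (u w z : A) : A :=
  ∑ b ∈ range (n + 1), pb n m F b u w * z ^ b

/-- the divided difference of `pk` in `z` -/
noncomputable def dk {A : Type*} [CommRing A] (n m : ℕ) (F : ℤ[X][X][X]) (u w z z' : A) : A :=
  ∑ b ∈ range (n + 1), pb n m F b u w * ∑ i ∈ range b, z ^ i * z' ^ (b - 1 - i)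

/-! ### Norms -/

/-- a submultiplicative norm with values in `[0, ∞]` -/
structure IsNrm {R : Type*} [CommRing R] (N : R → ℝ≥0∞) : Prop where
  zero : N 0 = 0
  one : N 1 ≤ 1
  neg : ∀ x, N (-x) = N x
  add : ∀ x y, N (x + y) ≤ N x + N y
  mul : ∀ x y, N (x * y) ≤ N x * N y

/-- `ρ^ν` -/
noncomputable def pw (ρ : Fin 2 → ℝ≥0∞) (ν : Fin 2 →₀ ℕ) : ℝ≥0∞ := ρ 0 ^ ν 0 * ρ 1 ^ ν 1

/-- the weighted `ℓ¹` norm -/
noncomputable def wn {R : Type*} [CommRing R] (N : R → ℝ≥0∞) (ρ : Fin 2 → ℝ≥0∞)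
    (f : MvPowerSeries (Fin 2) R) : ℝ≥0∞ :=
  ∑' ν : Fin 2 →₀ ℕ, N (MvPowerSeries.coeff ν f) * pw ρ ν

/-- the house -/
noncomputable def hs {K : Type} [Field K] [NumberField K] (x : K) : ℝ≥0∞ :=
  ENNReal.ofReal (NumberField.house x)

/-- the absolute value -/
noncomputable def en (x : ℝ) : ℝ≥0∞ := ‖x‖ₑ

/-! ### Roots -/

/-- `h = -∑ e_k h^k` is the limit of the iteration `s` -/
structure IsIt {R : Type*} [CommRing R] (n : ℕ) (e : ℕ → MvPowerSeries (Fin 2) R)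
    (h : MvPowerSeries (Fin 2) R) (s : ℕ → MvPowerSeries (Fin 2) R) : Prop where
  s0 : s 0 = 0
  s1 : ∀ N, s (N + 1) = -∑ k ∈ range (n + 1), e k * s N ^ k
  lim : ∀ (N : ℕ) (ν : Fin 2 →₀ ℕ), ν 0 + ν 1 ≤ N →
    MvPowerSeries.coeff ν h = MvPowerSeries.coeff ν (s N)
  cst : MvPowerSeries.constantCoeff h = 0
  fix : h = -∑ k ∈ range (n + 1), e k * h ^ k

/-- `Φ` is the root of `pk` with `Φ(0) = g`, with its arithmetic data -/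
structure IsRt {K : Type} [Field K] [NumberField K] (n m : ℕ) (F : ℤ[X][X][X]) (g : K)
    (Φ : MvPowerSeries (Fin 2) K) (q : ℕ) (ρ κ : ℝ) : Prop where
  q1 : 1 ≤ q
  ρ0 : 0 < ρ
  ρ1 : ρ ≤ 1
  κ1 : 1 ≤ κ
  cst : MvPowerSeries.constantCoeff Φ = g
  root : pk n m F (MvPowerSeries.X 0) (MvPowerSeries.X 1) Φ = 0
  int : ∀ ν : Fin 2 →₀ ℕ, IsIntegral ℤ ((q : K) ^ (2 * (ν 0 + ν 1) + 1) * MvPowerSeries.coeff ν Φ)
  nrm : wn hs (fun _ => ENNReal.ofReal ρ) Φ ≤ ENNReal.ofReal κ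

/-! ### The auxiliary function -/

/-- `u^(I - i) w^(M - k - b) Φ^b` for `l = (i, b, k)` -/
noncomputable def Av {R : Type*} [CommRing R] {I n M : ℕ} (Φ : MvPowerSeries (Fin 2) R)
    (l : Lam I n M) : MvPowerSeries (Fin 2) R :=
  MvPowerSeries.X 0 ^ (I - (l.1 : ℕ)) * MvPowerSeries.X 1 ^ (M - (l.2.2 : ℕ) - (l.2.1 : ℕ)) *
    Φ ^ (l.2.1 : ℕ)

/-- the coefficient of `(μ, μ')` in `∑ c(l, l') Av_l(u, w) Av_l'(u', w')` -/
noncomputable def Bc {R : Type*} [CommRing R] {I₁ M₁ I₂ M₂ n : ℕ} (Φ : MvPowerSeries (Fin 2) R)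
    (c : Lam I₁ n M₁ → Lam I₂ n M₂ → ℤ) (μ μ' : Fin 2 →₀ ℕ) : R :=
  ∑ l : Lam I₁ n M₁, ∑ l' : Lam I₂ n M₂, ((c l l' : ℤ) : R) * MvPowerSeries.coeff μ (Av Φ l) *
    MvPowerSeries.coeff μ' (Av Φ l')

/-- the weight of `(μ, μ')` -/
noncomputable def wt (α₁ ξ₁ α₂ ξ₂ : ℝ) (μ μ' : Fin 2 →₀ ℕ) : ℝ :=
  μ 0 * α₁ + μ 1 * ξ₁ + μ' 0 * α₂ + μ' 1 * ξ₂

/-- the parameters `N0, E, τ`; `r` is the degree of `θ` -/
structure Par (n r j N0 E : ℕ) (τ : ℝ) : Prop where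
  N1 : 1 ≤ N0
  E1 : 1 ≤ E
  τ0 : 0 < τ
  τ1 : τ ≤ 1
  ineq : ∀ α₁ ξ₁ α₂ ξ₂ : ℝ, 0 < α₁ → α₁ ≤ α₂ → 0 < ξ₁ → ξ₁ ≤ (j + 1) * α₁ → 0 < ξ₂ →
    ξ₂ ≤ (j + 1) * α₂ → α₂ ≤ N0 * α₂ ∧ n * ξ₁ ≤ N0 * α₂ ∧ n * ξ₂ ≤ N0 * α₂ ∧
    r * (((4 + τ) * (N0 * α₂) + (α₁ + ξ₁ + α₂ + ξ₂)) ^ 4 / 24) * (E + 1) ≤
      E * (n ^ 2 * ((N0 * α₂ - α₁) * (N0 * α₂ - n * ξ₁) * (N0 * α₂ - α₂) * (N0 * α₂ - n * ξ₂)))

/-! ### Evaluation of power series -/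

/-- `f(U, V)` for power series `U, V` -/
noncomputable def Ew (U V f : MvPowerSeries (Fin 2) ℝ) : MvPowerSeries (Fin 2) ℝ :=
  fun ν => ∑' μ : Fin 2 →₀ ℕ, MvPowerSeries.coeff μ f * MvPowerSeries.coeff ν (U ^ μ 0 * V ^ μ 1)

/-- `f(u, v)` for real numbers `u, v` -/
noncomputable def ev2 (u v : ℝ) (f : MvPowerSeries (Fin 2) ℝ) : ℝ :=
  ∑' μ : Fin 2 →₀ ℕ, MvPowerSeries.coeff μ f * (u ^ μ 0 * v ^ μ 1)

/-- `U` and `V` have norm at most `ρ` for the weights `w` -/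
structure Cvg (ρ w : Fin 2 → ℝ≥0∞) (U V : MvPowerSeries (Fin 2) ℝ) : Prop where
  w0 : ∀ i, w i ≠ 0
  w1 : ∀ i, w i ≠ ⊤
  hU : wn en w U ≤ ρ 0
  hV : wn en w V ≤ ρ 1

/-- `1/(a + X_i)` -/
noncomputable def iv (i : Fin 2) (a : ℝ) : MvPowerSeries (Fin 2) ℝ :=
  (MvPowerSeries.C a + MvPowerSeries.X i)⁻¹

end Pool.Agent.H48.SX
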