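import Pool.Agent.H48.SX.Pkf

/-!
# [H48 SX DKN] the divided difference does not vanish near the simple root

PROOF. `(u, w, z, z') ↦ dk n m F u w z z'` is a polynomial function `ℝ^4 → ℝ`, hence continuous (`unfold dk pb; fun_prop` or `continuous_finsetSum`), and
its value at `(0, 0, θ, θ)` is `(topm n m F).derivative.eval θ ≠ 0` (`dk_zero` with `K = ℝ`, `topm_eq`). So it is non-zero in a ball around this point
(`ContinuousAt.eventually_ne`, `Metric.eventually_nhds_iff`, sup distance in `ℝ × ℝ × ℝ × ℝ`); take `c0` half of the radius.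
-/

namespace Pool.Agent.H48.SX

open Finset Polynomial Pool.Agent.H37.TE Pool.Agent.H98.TE Pool.Agent.H4.TP Pool.Agent.H98.XG
open scoped ENNReal

theorem dk_ne (n m : ℕ) (F : ℤ[X][X][X]) (θ : ℝ) (h : (topm n m F).derivative.eval θ ≠ 0) :
    ∃ c0 : ℝ, 0 < c0 ∧ ∀ u w z z' : ℝ, |u| ≤ c0 → |w| ≤ c0 → |z - θ| ≤ c0 → |z' - θ| ≤ c0 →
      dk n m F u w z z' ≠ 0 := by
  have hc : Continuous (fun p : ℝ × ℝ × ℝ × ℝ => dk n m F p.1 p.2.1 p.2.2.1 p.2.2.2) := by
    unfold dk pb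
    fun_prop
  have h0 : dk n m F (0 : ℝ) 0 θ θ ≠ 0 := by
    rw [dk_zero, ← topm_eq]
    exact h
  obtain ⟨δ, hδ, h1⟩ := Metric.eventually_nhds_iff.1
    ((hc.continuousAt (x := ((0 : ℝ), (0 : ℝ), θ, θ))).eventually_ne h0)
  refine ⟨δ / 2, by positivity, fun u w z z' hu hw hz hz' => ?_⟩
  refine h1 (y := (u, w, z, z')) ?_
  rw [Prod.dist_eq, Prod.dist_eq, Prod.dist_eq, Real.dist_eq, Real.dist_eq, Real.dist_eq, Real.dist_eq]
  simp only [sub_zero]
  have h2 : δ / 2 < δ := by linarith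
  exact max_lt (lt_of_le_of_lt hu h2) (max_lt (lt_of_le_of_lt hw h2) (max_lt (lt_of_le_of_lt hz h2) (lt_of_le_of_lt hz' h2)))

end Pool.Agent.H48.SX
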