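import Mathlib

/-!
# [H48 SX DNM] a common denominator

PROOF. Every `x : K` is algebraic over `ℚ`, hence over `ℤ`, so there is `y : ℤ`, `y ≠ 0`, with `y • x` integral (`exists_integral_multiple`
or `IsIntegral.exists_multiple_integral_of_isLocalization`, or `NumberField.RingOfIntegers` as the integral closure with fraction field
`K`); `y.natAbs • x = ± y • x` is integral too. For a finite set take the product of these numbers (`Finset.induction_on`: if `q` works for `s` and `q'`
for `x`, then `q q'` works for `insert x s`, an integer multiple of an integral element is integral).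
-/

namespace Pool.Agent.H48.SX

open Finset

private theorem den_one {K : Type*} [Field K] [NumberField K] (x : K) :
    ∃ q : ℕ, 1 ≤ q ∧ IsIntegral ℤ ((q : K) * x) := by
  have hx : IsAlgebraic ℤ x := (IsFractionRing.isAlgebraic_iff ℤ ℚ K).2 (Algebra.IsAlgebraic.isAlgebraic x)
  obtain ⟨y, hy, hi⟩ := hx.exists_integral_multiple
  refine ⟨y.natAbs, ?_, ?_⟩
  · have := Int.natAbs_pos.2 hy
    omega
  · have h1 : ((y.natAbs : ℕ) : K) * x = y • x ∨ ((y.natAbs : ℕ) : K) * x = -(y • x) := by
      rcases Int.natAbs_eq y with h | h
      · left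
        rw [zsmul_eq_mul]
        congr 1
        rw [h]
        simp
      · right
        rw [zsmul_eq_mul, ← neg_mul]
        congr 1
        rw [h]
        simp
    rcases h1 with h | h
    · rw [h]
      exact hi
    · rw [h]
      exact hi.neg

theorem den_fin {K : Type*} [Field K] [NumberField K] (s : Finset K) :
    ∃ q : ℕ, 1 ≤ q ∧ ∀ x ∈ s, IsIntegral ℤ ((q : K) * x) := by
  classical
  induction s using Finset.induction_on with
  | empty => exact ⟨1, le_rfl, fun x hx => absurd hx (Finset.notMem_empty x)⟩
  | insert a s ha ih =>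
    obtain ⟨q, hq, h1⟩ := ih
    obtain ⟨q', hq', h2⟩ := den_one a
    refine ⟨q * q', Nat.mul_pos hq hq', fun x hx => ?_⟩
    have hint : ∀ m : ℕ, IsIntegral ℤ (m : K) := by
      intro m
      have h := isIntegral_algebraMap (R := ℤ) (A := K) (x := (m : ℤ))
      simpa using h
    rcases Finset.mem_insert.1 hx with h | h
    · rw [h, Nat.cast_mul, mul_assoc]
      exact (hint q).mul h2
    · rw [Nat.cast_mul, mul_comm (q : K), mul_assoc]
      exact (hint q').mul (h1 x h)

end Pool.Agent.H48.SX
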