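import Pool.Agent.H48.SX.Ewa

/-!
# [H48 SX EWD] the norm of a double sum of substituted series whose small coefficients vanish

PROOF. `M μ = U^(μ 0) V^(μ 1)`, `m μ' = u^(μ' 0) v^(μ' 1)`, `b(μ, μ') = ∑_{l,l'} c f_μ f'_μ'`. For every `λ`: the coefficient of `λ` of the left side is
`∑_{l,l'} c (∑'_μ' f'_μ' m μ') (∑'_μ f_μ (M μ)_λ) = ∑'_{(μ,μ')} b(μ, μ') (M μ)_λ m μ'` (absolutely convergent: `ew_smm` with `Cvg ρ w U V` (from `h`, `hP`), and for the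
real series `‖m μ'‖ₑ ≤ pw P' μ' ≤ pw ρ μ'`; `Summable.tsum_mul_tsum`, `Summable.tsum_finsetSum`). So
`‖coeff λ‖ₑ ≤ ∑'_{(μ,μ')} ‖b‖ₑ ‖(M μ)_λ‖ₑ ‖m μ'‖ₑ`; multiply by `pw w λ`, sum over `λ` and exchange (`ENNReal.tsum_comm`, `ENNReal.tsum_mul_left`):
`wn en w (left side) ≤ ∑'_{(μ,μ')} ‖b‖ₑ wn en w (M μ) ‖m μ'‖ₑ ≤ ∑' ‖b‖ₑ pw P μ pw P' μ' ≤ T ∑' ‖b‖ₑ pw ρ μ pw ρ μ'` (terms with `b = 0` are `0`, `hT` for the
others) `≤ T ∑_{l,l'} ‖c‖ₑ ∑'_{(μ,μ')} ‖f_μ‖ₑ ‖f'_μ'‖ₑ pw ρ μ pw ρ μ' = T ∑_{l,l'} ‖c‖ₑ wn (f l) wn (f' l')` (`enorm_sum_le`, `ENNReal.tsum_prod`,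
`ENNReal.tsum_mul_left/right`, `ENNReal.tsum_finsetSum` or `Summable.tsum_finsetSum ENNReal.summable`).
For `‖∑' ..‖ₑ ≤ ∑' ‖..‖ₑ`: `enorm_tsum_le_tsum_enorm` (or the version for norms).
-/

namespace Pool.Agent.H48.SX

open Finset Polynomial Pool.Agent.H37.TE Pool.Agent.H98.TE Pool.Agent.H4.TP Pool.Agent.H98.XG
open scoped ENNReal

private theorem pw_mono {P ρ : Fin 2 → ℝ≥0∞} (h : ∀ i, P i ≤ ρ i) (μ : Fin 2 →₀ ℕ) :
    pw P μ ≤ pw ρ μ :=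
  mul_le_mul' (pow_le_pow_left' (h 0) _) (pow_le_pow_left' (h 1) _)

private theorem m_le {P : Fin 2 → ℝ≥0∞} {u v : ℝ} (hu : ‖u‖ₑ ≤ P 0) (hv : ‖v‖ₑ ≤ P 1)
    (μ : Fin 2 →₀ ℕ) : ‖u ^ μ 0 * v ^ μ 1‖ₑ ≤ pw P μ := by
  rw [enorm_mul, enorm_pow, enorm_pow]
  exact mul_le_mul' (pow_le_pow_left' hu _) (pow_le_pow_left' hv _)

private theorem smm_real {ρ : Fin 2 → ℝ≥0∞} {f : MvPowerSeries (Fin 2) ℝ} (hf : wn en ρ f ≠ ⊤)
    (m : (Fin 2 →₀ ℕ) → ℝ) (hm : ∀ μ, ‖m μ‖ₑ ≤ pw ρ μ) :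
    Summable fun μ : Fin 2 →₀ ℕ => ‖MvPowerSeries.coeff μ f * m μ‖ := by
  have h1 : (∑' μ : Fin 2 →₀ ℕ, ((‖MvPowerSeries.coeff μ f * m μ‖₊ : NNReal) : ℝ≥0∞)) ≠ ⊤ := by
    refine ne_top_of_le_ne_top hf ?_
    unfold wn
    refine ENNReal.tsum_le_tsum fun μ => ?_
    change ‖MvPowerSeries.coeff μ f * m μ‖ₑ ≤ _
    rw [enorm_mul]
    exact mul_le_mul' le_rfl (hm μ)
  exact ENNReal.tsum_coe_ne_top_iff_summable_coe.1 h1

private theorem dbl_abs {ι ι' X Y : Type} [Fintype ι] [Fintype ι'] (A : ι → X → ℝ) (B : ι' → Y → ℝ)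
    (c : ι → ι' → ℝ) (hA : ∀ l, Summable fun x => ‖A l x‖) (hB : ∀ l, Summable fun x => ‖B l x‖) :
    ∑ l, ∑ l', c l l' * (∑' y, B l' y) * (∑' x, A l x) =
      ∑' q : X × Y, ∑ l, ∑ l', c l l' * (A l q.1 * B l' q.2) := by
  have hs : ∀ l l', Summable fun q : X × Y => c l l' * (A l q.1 * B l' q.2) := fun l l' =>
    (summable_mul_of_summable_norm (hA l) (hB l')).mul_left _
  have hs' : ∀ l, Summable fun q : X × Y => ∑ l', c l l' * (A l q.1 * B l' q.2) := fun l =>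
    summable_sum fun l' _ => hs l l'
  rw [Summable.tsum_finsetSum fun l _ => hs' l]
  refine Finset.sum_congr rfl fun l _ => ?_
  rw [Summable.tsum_finsetSum fun l' _ => hs l l']
  refine Finset.sum_congr rfl fun l' _ => ?_
  rw [tsum_mul_left, ← tsum_mul_tsum_of_summable_norm (hA l) (hB l')]
  ring

theorem ew_dbl {ι ι' : Type} [Fintype ι] [Fintype ι'] (f : ι → MvPowerSeries (Fin 2) ℝ)
    (f' : ι' → MvPowerSeries (Fin 2) ℝ) (c : ι → ι' → ℝ) {ρ P P' w : Fin 2 → ℝ≥0∞}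
    {U V : MvPowerSeries (Fin 2) ℝ} {u v : ℝ} (h : Cvg P w U V) (hu : ‖u‖ₑ ≤ P' 0)
    (hv : ‖v‖ₑ ≤ P' 1) (hP : ∀ i, P i ≤ ρ i) (hP' : ∀ i, P' i ≤ ρ i)
    (hf : ∀ l, wn en ρ (f l) ≠ ⊤) (hf' : ∀ l', wn en ρ (f' l') ≠ ⊤) (T : ℝ≥0∞)
    (hT : ∀ μ μ' : Fin 2 →₀ ℕ, (∑ l, ∑ l', c l l' * MvPowerSeries.coeff μ (f l) *
      MvPowerSeries.coeff μ' (f' l')) ≠ 0 → pw P μ * pw P' μ' ≤ T * (pw ρ μ * pw ρ μ')) :
    wn en w (∑ l, ∑ l', MvPowerSeries.C (c l l' * ev2 u v (f' l')) * Ew U V (f l)) ≤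
      T * ∑ l, ∑ l', ‖c l l'‖ₑ * wn en ρ (f l) * wn en ρ (f' l') := by
  classical
  have hρ : Cvg ρ w U V := ⟨h.w0, h.w1, h.hU.trans (hP 0), h.hV.trans (hP 1)⟩
  obtain ⟨m, hm⟩ : ∃ m : (Fin 2 →₀ ℕ) → ℝ, ∀ μ, m μ = u ^ μ 0 * v ^ μ 1 := ⟨_, fun _ => rfl⟩
  obtain ⟨M, hM⟩ : ∃ M : (Fin 2 →₀ ℕ) → MvPowerSeries (Fin 2) ℝ, ∀ μ, M μ = U ^ μ 0 * V ^ μ 1 :=
    ⟨_, fun _ => rfl⟩
  have hm1 : ∀ μ, ‖m μ‖ₑ ≤ pw P' μ := fun μ => by
    rw [hm]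
    exact m_le hu hv μ
  have hM1 : ∀ μ, wn en w (M μ) ≤ pw P μ := fun μ => by
    rw [hM]
    exact cvg_pw h μ
  obtain ⟨b, hb⟩ : ∃ b : (Fin 2 →₀ ℕ) × (Fin 2 →₀ ℕ) → ℝ, ∀ q, b q = ∑ l, ∑ l', c l l' *
      MvPowerSeries.coeff q.1 (f l) * MvPowerSeries.coeff q.2 (f' l') := ⟨_, fun _ => rfl⟩
  -- the coefficients
  have hcf : ∀ ν : Fin 2 →₀ ℕ, MvPowerSeries.coeff ν
      (∑ l, ∑ l', MvPowerSeries.C (c l l' * ev2 u v (f' l')) * Ew U V (f l)) =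
      ∑' q : (Fin 2 →₀ ℕ) × (Fin 2 →₀ ℕ), b q * MvPowerSeries.coeff ν (M q.1) * m q.2 := by
    intro ν
    have e1 : MvPowerSeries.coeff ν
      (∑ l, ∑ l', MvPowerSeries.C (c l l' * ev2 u v (f' l')) * Ew U V (f l)) =
      ∑ l, ∑ l', c l l' * (∑' μ : Fin 2 →₀ ℕ, MvPowerSeries.coeff μ (f' l') * m μ) *
        (∑' μ : Fin 2 →₀ ℕ, MvPowerSeries.coeff μ (f l) * MvPowerSeries.coeff ν (M μ)) := by
      rw [map_sum]
      refine Finset.sum_congr rfl fun l _ => ?_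
      rw [map_sum]
      refine Finset.sum_congr rfl fun l' _ => ?_
      rw [MvPowerSeries.coeff_C_mul]
      have e2 : ev2 u v (f' l') = ∑' μ : Fin 2 →₀ ℕ, MvPowerSeries.coeff μ (f' l') * m μ := by
        unfold ev2
        exact tsum_congr fun μ => by rw [hm]
      have e3 : MvPowerSeries.coeff ν (Ew U V (f l)) =
          ∑' μ : Fin 2 →₀ ℕ, MvPowerSeries.coeff μ (f l) * MvPowerSeries.coeff ν (M μ) :=
        tsum_congr fun μ => by rw [hM]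
      rw [e2, e3]
    rw [e1, dbl_abs (fun l μ => MvPowerSeries.coeff μ (f l) * MvPowerSeries.coeff ν (M μ))
      (fun l' μ => MvPowerSeries.coeff μ (f' l') * m μ) c (fun l => ?_) (fun l' => ?_)]
    · refine tsum_congr fun q => ?_
      rw [hb, Finset.sum_mul, Finset.sum_mul]
      refine Finset.sum_congr rfl fun l _ => ?_
      rw [Finset.sum_mul, Finset.sum_mul]
      refine Finset.sum_congr rfl fun l' _ => ?_
      ring
    · have h1 := ew_smm hρ (hf l) ν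
      refine h1.congr fun μ => ?_
      rw [hM]
    · exact smm_real (hf' l') m fun μ => (hm1 μ).trans (pw_mono hP' μ)
  calc wn en w (∑ l, ∑ l', MvPowerSeries.C (c l l' * ev2 u v (f' l')) * Ew U V (f l))
      ≤ ∑' ν : Fin 2 →₀ ℕ, ∑' q : (Fin 2 →₀ ℕ) × (Fin 2 →₀ ℕ),
          ‖b q‖ₑ * ‖m q.2‖ₑ * (en (MvPowerSeries.coeff ν (M q.1)) * pw w ν) := by
        unfold wn
        refine ENNReal.tsum_le_tsum fun ν => ?_
        rw [hcf ν]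
        calc en (∑' q : (Fin 2 →₀ ℕ) × (Fin 2 →₀ ℕ),
              b q * MvPowerSeries.coeff ν (M q.1) * m q.2) * pw w ν
            ≤ (∑' q : (Fin 2 →₀ ℕ) × (Fin 2 →₀ ℕ),
                ‖b q * MvPowerSeries.coeff ν (M q.1) * m q.2‖ₑ) * pw w ν :=
              mul_le_mul' enorm_tsum_le_tsum_enorm le_rfl
          _ = ∑' q : (Fin 2 →₀ ℕ) × (Fin 2 →₀ ℕ),
              ‖b q * MvPowerSeries.coeff ν (M q.1) * m q.2‖ₑ * pw w ν :=
              ENNReal.tsum_mul_right.symm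
          _ = _ := by
              refine tsum_congr fun q => ?_
              rw [enorm_mul, enorm_mul]
              unfold en
              ring
    _ = ∑' q : (Fin 2 →₀ ℕ) × (Fin 2 →₀ ℕ), ‖b q‖ₑ * ‖m q.2‖ₑ * wn en w (M q.1) := by
        rw [ENNReal.tsum_comm]
        refine tsum_congr fun q => ?_
        rw [ENNReal.tsum_mul_left]
        rfl
    _ ≤ ∑' q : (Fin 2 →₀ ℕ) × (Fin 2 →₀ ℕ), T * (‖b q‖ₑ * (pw ρ q.1 * pw ρ q.2)) := by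
        refine ENNReal.tsum_le_tsum fun q => ?_
        by_cases hq : b q = 0
        · rw [hq, enorm_zero, zero_mul, zero_mul]
          exact bot_le
        · calc ‖b q‖ₑ * ‖m q.2‖ₑ * wn en w (M q.1) ≤ ‖b q‖ₑ * pw P' q.2 * pw P q.1 :=
                mul_le_mul' (mul_le_mul' le_rfl (hm1 _)) (hM1 _)
            _ = ‖b q‖ₑ * (pw P q.1 * pw P' q.2) := by ring
            _ ≤ ‖b q‖ₑ * (T * (pw ρ q.1 * pw ρ q.2)) :=
                mul_le_mul' le_rfl (hT q.1 q.2 (by rw [← hb q]; exact hq))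
            _ = T * (‖b q‖ₑ * (pw ρ q.1 * pw ρ q.2)) := by ring
    _ = T * ∑' q : (Fin 2 →₀ ℕ) × (Fin 2 →₀ ℕ), ‖b q‖ₑ * (pw ρ q.1 * pw ρ q.2) :=
        ENNReal.tsum_mul_left
    _ ≤ T * ∑' q : (Fin 2 →₀ ℕ) × (Fin 2 →₀ ℕ), ∑ l, ∑ l', ‖c l l'‖ₑ *
        ((en (MvPowerSeries.coeff q.1 (f l)) * pw ρ q.1) *
          (en (MvPowerSeries.coeff q.2 (f' l')) * pw ρ q.2)) := by
        refine mul_le_mul' le_rfl (ENNReal.tsum_le_tsum fun q => ?_)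
        calc ‖b q‖ₑ * (pw ρ q.1 * pw ρ q.2) ≤ (∑ l, ∑ l', ‖c l l' *
              MvPowerSeries.coeff q.1 (f l) * MvPowerSeries.coeff q.2 (f' l')‖ₑ) *
                (pw ρ q.1 * pw ρ q.2) := by
              refine mul_le_mul' ?_ le_rfl
              rw [hb]
              exact (enorm_sum_le _ _).trans (Finset.sum_le_sum fun l _ => enorm_sum_le _ _)
          _ = _ := by
              rw [Finset.sum_mul]
              refine Finset.sum_congr rfl fun l _ => ?_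
              rw [Finset.sum_mul]
              refine Finset.sum_congr rfl fun l' _ => ?_
              rw [enorm_mul, enorm_mul]
              unfold en
              ring
    _ = T * ∑ l, ∑ l', ‖c l l'‖ₑ * wn en ρ (f l) * wn en ρ (f' l') := by
        congr 1
        rw [Summable.tsum_finsetSum fun _ _ => ENNReal.summable]
        refine Finset.sum_congr rfl fun l _ => ?_
        rw [Summable.tsum_finsetSum fun _ _ => ENNReal.summable]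
        refine Finset.sum_congr rfl fun l' _ => ?_
        rw [ENNReal.tsum_mul_left, mul_assoc]
        congr 1
        rw [ENNReal.tsum_prod (f := fun a a' => (en (MvPowerSeries.coeff a (f l)) * pw ρ a) *
          (en (MvPowerSeries.coeff a' (f' l')) * pw ρ a'))]
        simp only [ENNReal.tsum_mul_left, ENNReal.tsum_mul_right]
        rfl

end Pool.Agent.H48.SX
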