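import Pool.Agent.H48.SX.Nrm

/-!
# [H48 SX PWR] the functions `Av Φ l`: norm, house and denominators of the coefficients

PROOF. `r = fun _ => ENNReal.ofReal ρ ≤ 1`. `av_nrm`: `wn_isNrm (hs_isNrm K) r`: `wn (Av Φ l) ≤ wn (X 0)^.. wn (X 1)^.. wn Φ^b ≤ 1 · 1 · κ^b ≤ κ^n`,
`b = l.2.1 < n`, `κ ≥ 1` (`IsNrm.mul, pow`, `wn_X`). `av_house`: `wn_coeff` and `pw r ν = ρ^(ν 0 + ν 1)`, back to real numbers.
`av_int`: let `S c` be the set of the series `f` with `q^(2|ν|+c) f_ν` integral over `ℤ` for all `ν`. `X 0, X 1, 1 ∈ S 0` (coefficients `0, 1`), `Φ ∈ S 1`,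
`S c * S d ⊆ S (c+d)` (`coeff_mul`), `S c ⊆ S (c+1)`; so `Av Φ l ∈ S b ⊆ S n`.
`av_map, bc_map`: `map_mul, map_pow, MvPowerSeries.map_X`, `MvPowerSeries.coeff_map`, `map_sum`.
-/

namespace Pool.Agent.H48.SX

open Finset Polynomial Pool.Agent.H37.TE Pool.Agent.H98.TE Pool.Agent.H4.TP Pool.Agent.H98.XG
open scoped ENNReal

/-- the series with controlled denominators -/
private def SC {K : Type} [Field K] (q c : ℕ) (f : MvPowerSeries (Fin 2) K) : Prop :=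
  ∀ ν : Fin 2 →₀ ℕ, IsIntegral ℤ ((q : K) ^ (2 * (ν 0 + ν 1) + c) * MvPowerSeries.coeff ν f)

private theorem q_int {K : Type} [Field K] (q k : ℕ) : IsIntegral ℤ ((q : K) ^ k) := by
  have h : IsIntegral ℤ (q : K) := by
    have h1 := isIntegral_algebraMap (R := ℤ) (A := K) (x := (q : ℤ))
    simpa using h1
  exact h.pow k

private theorem SC.mono {K : Type} [Field K] {q c d : ℕ} {f : MvPowerSeries (Fin 2) K}
    (h : SC q c f) (hcd : c ≤ d) : SC q d f := by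
  intro ν
  obtain ⟨e, rfl⟩ := Nat.exists_eq_add_of_le hcd
  have h1 : (q : K) ^ (2 * (ν 0 + ν 1) + (c + e)) * MvPowerSeries.coeff ν f =
      (q : K) ^ e * ((q : K) ^ (2 * (ν 0 + ν 1) + c) * MvPowerSeries.coeff ν f) := by
    rw [← mul_assoc, ← pow_add]
    congr 2
    ring
  rw [h1]
  exact (q_int q e).mul (h ν)

private theorem SC.mul {K : Type} [Field K] {q c d : ℕ} {f g : MvPowerSeries (Fin 2) K}
    (hf : SC q c f) (hg : SC q d g) : SC q (c + d) (f * g) := by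
  classical
  intro ν
  rw [MvPowerSeries.coeff_mul, mul_sum]
  refine IsIntegral.sum _ fun p hp => ?_
  rw [Finset.HasAntidiagonal.mem_antidiagonal] at hp
  have h1 : (q : K) ^ (2 * (ν 0 + ν 1) + (c + d)) *
      (MvPowerSeries.coeff p.1 f * MvPowerSeries.coeff p.2 g) =
      ((q : K) ^ (2 * (p.1 0 + p.1 1) + c) * MvPowerSeries.coeff p.1 f) *
      ((q : K) ^ (2 * (p.2 0 + p.2 1) + d) * MvPowerSeries.coeff p.2 g) := by
    have h2 : 2 * (ν 0 + ν 1) + (c + d) = (2 * (p.1 0 + p.1 1) + c) + (2 * (p.2 0 + p.2 1) + d) := by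
      rw [← hp]
      simp only [Finsupp.add_apply]
      ring
    rw [h2, pow_add]
    ring
  rw [h1]
  exact (hf _).mul (hg _)

private theorem SC_one {K : Type} [Field K] (q : ℕ) : SC q 0 (1 : MvPowerSeries (Fin 2) K) := by
  classical
  intro ν
  rw [MvPowerSeries.coeff_one]
  refine (q_int q _).mul ?_
  split_ifs
  · exact isIntegral_one
  · exact isIntegral_zero

private theorem SC_X {K : Type} [Field K] (q : ℕ) (i : Fin 2) :
    SC q 0 (MvPowerSeries.X i : MvPowerSeries (Fin 2) K) := by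
  classical
  intro ν
  rw [MvPowerSeries.coeff_X]
  refine (q_int q _).mul ?_
  split_ifs
  · exact isIntegral_one
  · exact isIntegral_zero

private theorem SC.pow {K : Type} [Field K] {q c : ℕ} {f : MvPowerSeries (Fin 2) K}
    (hf : SC q c f) (k : ℕ) : SC q (k * c) (f ^ k) := by
  induction k with
  | zero =>
    rw [pow_zero, zero_mul]
    exact SC_one q
  | succ k ih =>
    rw [pow_succ, Nat.succ_mul]
    exact ih.mul hf

theorem av_nrm {K : Type} [Field K] [NumberField K] {n m : ℕ} {F : ℤ[X][X][X]} {g : K}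
    {Φ : MvPowerSeries (Fin 2) K} {q : ℕ} {ρ κ : ℝ} (h : IsRt n m F g Φ q ρ κ) {I M : ℕ}
    (l : Lam I n M) : wn hs (fun _ => ENNReal.ofReal ρ) (Av Φ l) ≤ ENNReal.ofReal (κ ^ n) := by
  have hN := wn_isNrm (hs_isNrm K) (fun _ => ENNReal.ofReal ρ)
  obtain ⟨r, hr⟩ : ∃ r : Fin 2 → ℝ≥0∞, r = fun _ => ENNReal.ofReal ρ := ⟨_, rfl⟩
  have hX : ∀ i : Fin 2, wn hs (fun _ => ENNReal.ofReal ρ)
      (MvPowerSeries.X i : MvPowerSeries (Fin 2) K) ≤ 1 := by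
    intro i
    refine (wn_X (hs_isNrm K) _ i).trans ?_
    rw [ENNReal.ofReal_le_one]
    exact h.ρ1
  have hκ : (1 : ℝ≥0∞) ≤ ENNReal.ofReal κ := by
    rw [ENNReal.one_le_ofReal]
    exact h.κ1
  have h1 : ∀ (i : Fin 2) (k : ℕ), wn hs (fun _ => ENNReal.ofReal ρ)
      ((MvPowerSeries.X i : MvPowerSeries (Fin 2) K) ^ k) ≤ 1 := fun i k =>
    (hN.pow _ k).trans (pow_le_one₀ zero_le (hX i))
  have h2 : wn hs (fun _ => ENNReal.ofReal ρ) (Φ ^ (l.2.1 : ℕ)) ≤ ENNReal.ofReal κ ^ n := by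
    refine (hN.pow _ _).trans ?_
    calc wn hs (fun _ => ENNReal.ofReal ρ) Φ ^ (l.2.1 : ℕ) ≤ ENNReal.ofReal κ ^ (l.2.1 : ℕ) :=
          pow_le_pow_left' h.nrm _
      _ ≤ ENNReal.ofReal κ ^ n := pow_le_pow_right' hκ l.2.1.2.le
  unfold Av
  rw [ENNReal.ofReal_pow (by linarith [h.κ1])]
  calc _ ≤ wn hs (fun _ => ENNReal.ofReal ρ) (MvPowerSeries.X 0 ^ (I - (l.1 : ℕ)) *
        MvPowerSeries.X 1 ^ (M - (l.2.2 : ℕ) - (l.2.1 : ℕ)) : MvPowerSeries (Fin 2) K) *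
        wn hs (fun _ => ENNReal.ofReal ρ) (Φ ^ (l.2.1 : ℕ)) := hN.mul _ _
    _ ≤ (1 * 1) * ENNReal.ofReal κ ^ n := by
        refine mul_le_mul' ((hN.mul _ _).trans (mul_le_mul' (h1 0 _) (h1 1 _))) h2
    _ = ENNReal.ofReal κ ^ n := by rw [one_mul, one_mul]

theorem av_house {K : Type} [Field K] [NumberField K] {n m : ℕ} {F : ℤ[X][X][X]} {g : K}
    {Φ : MvPowerSeries (Fin 2) K} {q : ℕ} {ρ κ : ℝ} (h : IsRt n m F g Φ q ρ κ) {I M : ℕ}
    (l : Lam I n M) (ν : Fin 2 →₀ ℕ) :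
    NumberField.house (MvPowerSeries.coeff ν (Av Φ l)) ≤ κ ^ n * (1 / ρ) ^ (ν 0 + ν 1) := by
  have h1 := (wn_coeff hs (fun _ => ENNReal.ofReal ρ) (Av Φ l) ν).trans (av_nrm h l)
  have h2 : pw (fun _ => ENNReal.ofReal ρ) ν = ENNReal.ofReal (ρ ^ (ν 0 + ν 1)) := by
    unfold pw
    rw [← pow_add, ENNReal.ofReal_pow h.ρ0.le]
  have hκ : (0 : ℝ) ≤ κ ^ n := pow_nonneg (by linarith [h.κ1]) n
  have hρ : 0 < ρ ^ (ν 0 + ν 1) := pow_pos h.ρ0 _
  rw [h2] at h1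
  unfold hs at h1
  rw [← ENNReal.ofReal_mul (NumberField.house_nonneg _), ENNReal.ofReal_le_ofReal_iff hκ] at h1
  rw [one_div, inv_pow, ← div_eq_mul_inv, le_div_iff₀ hρ]
  exact h1

theorem av_int {K : Type} [Field K] [NumberField K] {n m : ℕ} {F : ℤ[X][X][X]} {g : K}
    {Φ : MvPowerSeries (Fin 2) K} {q : ℕ} {ρ κ : ℝ} (h : IsRt n m F g Φ q ρ κ) {I M : ℕ}
    (l : Lam I n M) (ν : Fin 2 →₀ ℕ) :
    IsIntegral ℤ ((q : K) ^ (2 * (ν 0 + ν 1) + n) * MvPowerSeries.coeff ν (Av Φ l)) := by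
  have h1 : SC q 1 Φ := h.int
  have h2 : SC q ((I - (l.1 : ℕ)) * 0 + (M - (l.2.2 : ℕ) - (l.2.1 : ℕ)) * 0 + (l.2.1 : ℕ) * 1)
      (Av Φ l) :=
    (((SC_X q 0).pow _).mul ((SC_X q 1).pow _)).mul (h1.pow _)
  have h3 : SC q n (Av Φ l) := h2.mono (by
    have := l.2.1.2
    omega)
  exact h3 ν

theorem av_map {A B : Type*} [CommRing A] [CommRing B] (σ : A →+* B) (Φ : MvPowerSeries (Fin 2) A)
    {I n M : ℕ} (l : Lam I n M) :
    MvPowerSeries.map σ (Av Φ l) = Av (MvPowerSeries.map σ Φ) l := by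
  unfold Av
  rw [map_mul, map_mul, map_pow, map_pow, map_pow, MvPowerSeries.map_X, MvPowerSeries.map_X]

theorem bc_map {A B : Type*} [CommRing A] [CommRing B] (σ : A →+* B) (Φ : MvPowerSeries (Fin 2) A)
    {I₁ M₁ I₂ M₂ n : ℕ} (c : Lam I₁ n M₁ → Lam I₂ n M₂ → ℤ) (μ μ' : Fin 2 →₀ ℕ) :
    σ (Bc Φ c μ μ') = Bc (MvPowerSeries.map σ Φ) c μ μ' := by
  unfold Bc
  rw [map_sum]
  refine sum_congr rfl fun l _ => ?_
  rw [map_sum]
  refine sum_congr rfl fun l' _ => ?_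
  rw [map_mul, map_mul, map_intCast, ← av_map, ← av_map, MvPowerSeries.coeff_map,
    MvPowerSeries.coeff_map]

end Pool.Agent.H48.SX
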