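import Pool.Agent.H48.SX.Idt
import Pool.Agent.H48.SX.Ewd
import Pool.Agent.H48.SX.Pwr

/-!
# [H48 SX EST] the sum `Sm` is small

PROOF. `f = map σ Φ`, `r = fun _ => ofReal ρ`; `wn en r f ≤ ofReal κ` and `wn en r (Av f l) ≤ ofReal (κ^n)` (`wn_map`, `h.nrm`, `av_map`, `av_nrm`). Since `exp(-(s ..)) ≤ 1`
(the logarithms are `≥ 0`), `2/a₁, 2/|x₁|, 1/a₂, 1/|x₂| ≤ ρ` and `idt` applies. Let `G` be the double sum in `idt`, weights `w = ![ofReal (a₁/2), ofReal (|x₁|/2)]`,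
`P = ![ofReal (2/a₁), ofReal (2/|x₁|)]` (`cvg_iv`), `P' = ![ofReal (1/a₂), ofReal (1/|x₂|)]`, `T = ofReal (exp(-(s W)))`. `hT` of `ew_dbl`: if the coefficient
`Bc f c μ μ' = σ (Bc Φ c μ μ')` (`bc_map`) is not `0`, then `wt > W` by `hB`, and by `e1 .. e4`:
`(2/a₁)^(μ 0) (2/|x₁|)^(μ 1) (1/a₂)^(μ' 0) (1/|x₂|)^(μ' 1) ≤ ρ^(μ 0 + μ 1 + μ' 0 + μ' 1) exp(-s wt(μ, μ')) ≤ ρ^(..) exp(-s W)`. So
`wn en w G ≤ ofReal (exp(-(sW))) · |Λ₁| |Λ₂| · ofReal H · ofReal (κ^n)²`. With `ax_nrm`: `wn en w ((C a₁ + X 0)^I₁ (C x₁ + X 1)^M₁ G) ≤ ofReal ((3/2 a₁)^I₁ (3/2 |x₁|)^M₁) wn en w G`,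
and `‖coeff ν ..‖ₑ ≤ wn en w ..` because `pw w ν ≥ 1` (`a₁/2 ≥ 1`, `|x₁|/2 ≥ 1`) (`wn_coeff`). Back to real numbers (`ENNReal.ofReal_le_ofReal_iff`).
-/

namespace Pool.Agent.H48.SX

open Finset Polynomial Pool.Agent.H37.TE Pool.Agent.H98.TE Pool.Agent.H4.TP Pool.Agent.H98.XG
open scoped ENNReal

private theorem pw_real (ρ : Fin 2 → ℝ≥0∞) (x y : ℝ) (hx : 0 ≤ x) (hy : 0 ≤ y)
    (h0 : ρ 0 = ENNReal.ofReal x) (h1 : ρ 1 = ENNReal.ofReal y) (ν : Fin 2 →₀ ℕ) :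
    pw ρ ν = ENNReal.ofReal (x ^ ν 0 * y ^ ν 1) := by
  unfold pw
  rw [h0, h1, ENNReal.ofReal_mul (by positivity), ENNReal.ofReal_pow hx, ENNReal.ofReal_pow hy]

private theorem est_real {ρ s α ξ β ζ p1 p2 p3 p4 W : ℝ} (hρ : 0 < ρ) (hs : 0 ≤ s)
    (h1 : 0 ≤ p1) (h2 : 0 ≤ p2) (h3 : 0 ≤ p3) (h4 : 0 ≤ p4)
    (q1 : p1 ≤ ρ * Real.exp (-(s * α))) (q2 : p2 ≤ ρ * Real.exp (-(s * ξ)))
    (q3 : p3 ≤ ρ * Real.exp (-(s * β))) (q4 : p4 ≤ ρ * Real.exp (-(s * ζ))) (k1 k2 k3 k4 : ℕ)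
    (hW : W < k1 * α + k2 * ξ + k3 * β + k4 * ζ) :
    (p1 ^ k1 * p2 ^ k2) * (p3 ^ k3 * p4 ^ k4) ≤
      Real.exp (-(s * W)) * ((ρ ^ k1 * ρ ^ k2) * (ρ ^ k3 * ρ ^ k4)) := by
  have r : ∀ (p α : ℝ) (k : ℕ), 0 ≤ p → p ≤ ρ * Real.exp (-(s * α)) →
      p ^ k ≤ ρ ^ k * Real.exp (k * -(s * α)) := by
    intro p α k hp hq
    rw [Real.exp_nat_mul, ← mul_pow]
    exact pow_le_pow_left₀ hp hq k
  have s1 := r p1 α k1 h1 q1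
  have s2 := r p2 ξ k2 h2 q2
  have s3 := r p3 β k3 h3 q3
  have s4 := r p4 ζ k4 h4 q4
  have hexp : Real.exp (k1 * -(s * α)) * Real.exp (k2 * -(s * ξ)) *
      (Real.exp (k3 * -(s * β)) * Real.exp (k4 * -(s * ζ))) ≤ Real.exp (-(s * W)) := by
    rw [← Real.exp_add, ← Real.exp_add, ← Real.exp_add, Real.exp_le_exp]
    have := mul_le_mul_of_nonneg_left hW.le hs
    linarith
  calc (p1 ^ k1 * p2 ^ k2) * (p3 ^ k3 * p4 ^ k4)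
      ≤ ((ρ ^ k1 * Real.exp (k1 * -(s * α))) * (ρ ^ k2 * Real.exp (k2 * -(s * ξ)))) *
        ((ρ ^ k3 * Real.exp (k3 * -(s * β))) * (ρ ^ k4 * Real.exp (k4 * -(s * ζ)))) := by
        refine mul_le_mul (mul_le_mul s1 s2 (by positivity) (by positivity))
          (mul_le_mul s3 s4 (by positivity) (by positivity)) (by positivity) (by positivity)
    _ = (Real.exp (k1 * -(s * α)) * Real.exp (k2 * -(s * ξ)) *
        (Real.exp (k3 * -(s * β)) * Real.exp (k4 * -(s * ζ)))) *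
        ((ρ ^ k1 * ρ ^ k2) * (ρ ^ k3 * ρ ^ k4)) := by ring
    _ ≤ Real.exp (-(s * W)) * ((ρ ^ k1 * ρ ^ k2) * (ρ ^ k3 * ρ ^ k4)) :=
        mul_le_mul_of_nonneg_right hexp (by positivity)

theorem est {K : Type} [Field K] [NumberField K] (σ : K →+* ℝ) {n m : ℕ} {F : ℤ[X][X][X]} {g : K}
    {Φ : MvPowerSeries (Fin 2) K} {q : ℕ} {ρ κ : ℝ} (h : IsRt n m F g Φ q ρ κ)
    {a₁ a₂ : ℕ} {x₁ x₂ y₂ : ℤ} (ha₁ : 2 ≤ a₁) (hx₁ : 2 ≤ |x₁|) (ha₂ : 2 ≤ a₂) (hx₂ : 2 ≤ |x₂|)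
    {s W H : ℝ} (hs : 0 ≤ s) (hH : 0 ≤ H)
    (e1 : 2 / (a₁ : ℝ) ≤ ρ * Real.exp (-(s * Real.log a₁)))
    (e2 : 2 / |(x₁ : ℝ)| ≤ ρ * Real.exp (-(s * Real.log |(x₁ : ℝ)|)))
    (e3 : 1 / (a₂ : ℝ) ≤ ρ * Real.exp (-(s * Real.log a₂)))
    (e4 : 1 / |(x₂ : ℝ)| ≤ ρ * Real.exp (-(s * Real.log |(x₂ : ℝ)|)))
    {Y₁ : MvPowerSeries (Fin 2) ℚ}
    (hY : MvPowerSeries.map (algebraMap ℚ ℝ) Y₁ = (MvPowerSeries.C (x₁ : ℝ) + MvPowerSeries.X 1) *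
      Ew (iv 0 a₁) (iv 1 x₁) (MvPowerSeries.map σ Φ))
    (hy : (y₂ : ℝ) = x₂ * ev2 (1 / a₂) (1 / x₂) (MvPowerSeries.map σ Φ))
    {I₁ M₁ I₂ M₂ : ℕ} (c : Lam I₁ n M₁ → Lam I₂ n M₂ → ℤ)
    (hc : ∀ l l', |((c l l' : ℤ) : ℝ)| ≤ H)
    (hB : ∀ μ μ' : Fin 2 →₀ ℕ, wt (Real.log a₁) (Real.log |(x₁ : ℝ)|) (Real.log a₂)
      (Real.log |(x₂ : ℝ)|) μ μ' ≤ W → Bc Φ c μ μ' = 0) (ν : Fin 2 →₀ ℕ) :
    |((Sm c Y₁ a₁ x₁ a₂ x₂ y₂ ν : ℚ) : ℝ)| ≤ ((a₂ : ℝ) ^ I₂ * |(x₂ : ℝ)| ^ M₂) *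
      ((3 / 2 * (a₁ : ℝ)) ^ I₁ * (3 / 2 * |(x₁ : ℝ)|) ^ M₁) * (Real.exp (-(s * W)) *
        ((Fintype.card (Lam I₁ n M₁) : ℝ) * Fintype.card (Lam I₂ n M₂) * H * κ ^ (2 * n))) := by
  classical
  have ha₁R : (2 : ℝ) ≤ a₁ := by exact_mod_cast ha₁
  have hx₁R : (2 : ℝ) ≤ |(x₁ : ℝ)| := by exact_mod_cast hx₁
  have ha₂R : (2 : ℝ) ≤ a₂ := by exact_mod_cast ha₂
  have hx₂R : (2 : ℝ) ≤ |(x₂ : ℝ)| := by exact_mod_cast hx₂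
  have hx₁0 : x₁ ≠ 0 := by
    intro h0
    rw [h0, abs_zero] at hx₁
    omega
  have hx₂0 : x₂ ≠ 0 := by
    intro h0
    rw [h0, abs_zero] at hx₂
    omega
  have habs₁ : |(a₁ : ℝ)| = a₁ := abs_of_nonneg (by positivity)
  have habs₂ : |(a₂ : ℝ)| = a₂ := abs_of_nonneg (by positivity)
  have hρ0 := h.ρ0
  have hκ1 := h.κ1
  have hexp : ∀ y : ℝ, 2 ≤ y → ρ * Real.exp (-(s * Real.log y)) ≤ ρ := by
    intro y hy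
    have h1 : 0 ≤ Real.log y := Real.log_nonneg (by linarith)
    have h2 : Real.exp (-(s * Real.log y)) ≤ 1 := by
      rw [Real.exp_le_one_iff]
      have := mul_nonneg hs h1
      linarith
    nlinarith
  have e1' := e1.trans (hexp _ ha₁R)
  have e2' := e2.trans (hexp _ hx₁R)
  have e3' := e3.trans (hexp _ ha₂R)
  have e4' := e4.trans (hexp _ hx₂R)
  obtain ⟨r, hr⟩ : ∃ r : Fin 2 → ℝ≥0∞, r = fun _ => ENNReal.ofReal ρ := ⟨_, rfl⟩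
  have hr2 : ∀ i, r i = ENNReal.ofReal ρ := by
    intro i
    rw [hr]
  obtain ⟨f, hf⟩ : ∃ f : MvPowerSeries (Fin 2) ℝ, f = MvPowerSeries.map σ Φ := ⟨_, rfl⟩
  rw [← hf] at hY hy
  have hfn : wn en (fun _ => ENNReal.ofReal ρ) f ≠ ⊤ := by
    rw [hf]
    exact ne_top_of_le_ne_top ENNReal.ofReal_ne_top ((wn_map σ _ Φ).trans h.nrm)
  have hav : ∀ (I M : ℕ) (l : Lam I n M), wn en r (Av f l) ≤ ENNReal.ofReal (κ ^ n) := by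
    intro I M l
    rw [hf, ← av_map, hr]
    exact (wn_map σ _ _).trans (av_nrm h l)
  have hid := idt hfn (by omega : a₁ ≠ 0) hx₁0 (by omega : a₂ ≠ 0) hx₂0 e1' e2' e3' e4' hY hy c ν
  obtain ⟨G, hG⟩ : ∃ G : MvPowerSeries (Fin 2) ℝ, G = ∑ l : Lam I₁ n M₁, ∑ l' : Lam I₂ n M₂,
    MvPowerSeries.C (((c l l' : ℤ) : ℝ) * ev2 (1 / a₂) (1 / x₂) (Av f l')) *
      Ew (iv 0 a₁) (iv 1 x₁) (Av f l) := ⟨_, rfl⟩
  rw [← hG] at hid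
  have hcv := cvg_iv (a := (a₁ : ℝ)) (x := (x₁ : ℝ)) (ne_of_gt (by linarith))
    (by exact_mod_cast hx₁0)
  obtain ⟨w, hw⟩ : ∃ w : Fin 2 → ℝ≥0∞, w = ![ENNReal.ofReal (|(a₁ : ℝ)| / 2),
    ENNReal.ofReal (|(x₁ : ℝ)| / 2)] := ⟨_, rfl⟩
  have hw0 : w 0 = ENNReal.ofReal (|(a₁ : ℝ)| / 2) := by rw [hw]; rfl
  have hw1 : w 1 = ENNReal.ofReal (|(x₁ : ℝ)| / 2) := by rw [hw]; rfl
  obtain ⟨P, hP⟩ : ∃ P : Fin 2 → ℝ≥0∞, P = ![ENNReal.ofReal (2 / |(a₁ : ℝ)|),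
    ENNReal.ofReal (2 / |(x₁ : ℝ)|)] := ⟨_, rfl⟩
  have hP0 : P 0 = ENNReal.ofReal (2 / |(a₁ : ℝ)|) := by rw [hP]; rfl
  have hP1 : P 1 = ENNReal.ofReal (2 / |(x₁ : ℝ)|) := by rw [hP]; rfl
  obtain ⟨P', hP'⟩ : ∃ P' : Fin 2 → ℝ≥0∞, P' = ![ENNReal.ofReal (1 / (a₂ : ℝ)),
    ENNReal.ofReal (1 / |(x₂ : ℝ)|)] := ⟨_, rfl⟩
  have hP'0 : P' 0 = ENNReal.ofReal (1 / (a₂ : ℝ)) := by rw [hP']; rfl
  have hP'1 : P' 1 = ENNReal.ofReal (1 / |(x₂ : ℝ)|) := by rw [hP']; rfl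
  rw [← hw, ← hP] at hcv
  rw [habs₁] at hP0 hw0
  have hu : ‖(1 / a₂ : ℝ)‖ₑ ≤ P' 0 := by
    rw [hP'0, Real.enorm_eq_ofReal_abs, abs_div, abs_one, habs₂]
  have hv : ‖(1 / x₂ : ℝ)‖ₑ ≤ P' 1 := by
    rw [hP'1, Real.enorm_eq_ofReal_abs, abs_div, abs_one]
  have hPr : ∀ i, P i ≤ r i := by
    refine Fin.forall_fin_two.2 ⟨?_, ?_⟩
    · rw [hP0, hr2]
      exact ENNReal.ofReal_le_ofReal e1'
    · rw [hP1, hr2]
      exact ENNReal.ofReal_le_ofReal e2'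
  have hPr' : ∀ i, P' i ≤ r i := by
    refine Fin.forall_fin_two.2 ⟨?_, ?_⟩
    · rw [hP'0, hr2]
      exact ENNReal.ofReal_le_ofReal e3'
    · rw [hP'1, hr2]
      exact ENNReal.ofReal_le_ofReal e4'
  have hmain := ew_dbl (fun l : Lam I₁ n M₁ => Av f l) (fun l' : Lam I₂ n M₂ => Av f l')
    (fun l l' => ((c l l' : ℤ) : ℝ)) (ρ := r) (u := 1 / (a₂ : ℝ)) (v := 1 / (x₂ : ℝ))
    hcv hu hv hPr hPr' (fun l => ne_top_of_le_ne_top ENNReal.ofReal_ne_top (hav _ _ l))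
    (fun l' => ne_top_of_le_ne_top ENNReal.ofReal_ne_top (hav _ _ l'))
    (ENNReal.ofReal (Real.exp (-(s * W)))) (by
      intro μ μ' hne
      have hwt : W < wt (Real.log a₁) (Real.log |(x₁ : ℝ)|) (Real.log a₂)
          (Real.log |(x₂ : ℝ)|) μ μ' := by
        by_contra hle
        rw [not_lt] at hle
        apply hne
        have h1 := bc_map σ Φ c μ μ'
        rw [hB μ μ' hle, map_zero, ← hf] at h1
        exact h1.symm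
      rw [pw_real P (2 / (a₁ : ℝ)) (2 / |(x₁ : ℝ)|) (by positivity) (by positivity) hP0 hP1,
        pw_real P' (1 / (a₂ : ℝ)) (1 / |(x₂ : ℝ)|) (by positivity) (by positivity) hP'0 hP'1,
        pw_real r ρ ρ hρ0.le hρ0.le (hr2 0) (hr2 1), pw_real r ρ ρ hρ0.le hρ0.le (hr2 0) (hr2 1),
        ← ENNReal.ofReal_mul (by positivity), ← ENNReal.ofReal_mul (by positivity),
        ← ENNReal.ofReal_mul (by positivity)]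
      exact ENNReal.ofReal_le_ofReal (est_real hρ0 hs (by positivity) (by positivity)
        (by positivity) (by positivity) e1 e2 e3 e4 _ _ _ _ hwt))
  rw [← hG] at hmain
  -- the double sum
  obtain ⟨N₁, hN₁⟩ : ∃ N₁ : ℕ, N₁ = Fintype.card (Lam I₁ n M₁) := ⟨_, rfl⟩
  obtain ⟨N₂, hN₂⟩ : ∃ N₂ : ℕ, N₂ = Fintype.card (Lam I₂ n M₂) := ⟨_, rfl⟩
  rw [← hN₁, ← hN₂]
  have hκn : (0 : ℝ) ≤ κ ^ n := pow_nonneg (by linarith) n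
  have hsum : (∑ l : Lam I₁ n M₁, ∑ l' : Lam I₂ n M₂, ‖((c l l' : ℤ) : ℝ)‖ₑ * wn en r (Av f l) *
      wn en r (Av f l')) ≤ ENNReal.ofReal ((N₁ : ℝ) * N₂ * H * κ ^ (2 * n)) := by
    have h1 : ∀ (l : Lam I₁ n M₁) (l' : Lam I₂ n M₂), ‖((c l l' : ℤ) : ℝ)‖ₑ * wn en r (Av f l) *
        wn en r (Av f l') ≤ ENNReal.ofReal (H * κ ^ (2 * n)) := by
      intro l l'
      have h2 : ‖((c l l' : ℤ) : ℝ)‖ₑ ≤ ENNReal.ofReal H := by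
        rw [Real.enorm_eq_ofReal_abs]
        exact ENNReal.ofReal_le_ofReal (hc l l')
      have h3 : H * κ ^ (2 * n) = H * κ ^ n * κ ^ n := by ring
      rw [h3, ENNReal.ofReal_mul (by positivity), ENNReal.ofReal_mul hH]
      exact mul_le_mul' (mul_le_mul' h2 (hav _ _ l)) (hav _ _ l')
    calc (∑ l : Lam I₁ n M₁, ∑ l' : Lam I₂ n M₂, ‖((c l l' : ℤ) : ℝ)‖ₑ * wn en r (Av f l) *
        wn en r (Av f l'))
        ≤ ∑ _l : Lam I₁ n M₁, ∑ _l' : Lam I₂ n M₂, ENNReal.ofReal (H * κ ^ (2 * n)) :=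
          sum_le_sum fun l _ => sum_le_sum fun l' _ => h1 l l'
      _ = (N₁ : ℝ≥0∞) * ((N₂ : ℝ≥0∞) * ENNReal.ofReal (H * κ ^ (2 * n))) := by
          rw [sum_const, sum_const, card_univ, card_univ, ← hN₁, ← hN₂, nsmul_eq_mul, nsmul_eq_mul]
      _ = ENNReal.ofReal ((N₁ : ℝ) * N₂ * H * κ ^ (2 * n)) := by
          have h4 : (N₁ : ℝ) * N₂ * H * κ ^ (2 * n) = (N₁ : ℝ) * ((N₂ : ℝ) * (H * κ ^ (2 * n))) := by
            ring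
          rw [h4]
          generalize H * κ ^ (2 * n) = T
          rw [ENNReal.ofReal_mul (by positivity), ENNReal.ofReal_mul (by positivity),
            ENNReal.ofReal_natCast, ENNReal.ofReal_natCast]
  obtain ⟨X, hX⟩ : ∃ X : ℝ, X = (N₁ : ℝ) * N₂ * H * κ ^ (2 * n) := ⟨_, rfl⟩
  have hX0 : 0 ≤ X := by
    rw [hX]
    have : (0 : ℝ) ≤ κ ^ (2 * n) := pow_nonneg (by linarith) _
    positivity
  rw [← hX] at hsum ⊢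
  have hGn : wn en w G ≤ ENNReal.ofReal (Real.exp (-(s * W)) * X) := by
    rw [ENNReal.ofReal_mul (by positivity)]
    exact hmain.trans (mul_le_mul' le_rfl hsum)
  -- the product
  have hN := wn_isNrm en_isNrm w
  have hA : wn en w (MvPowerSeries.C (a₁ : ℝ) + MvPowerSeries.X 0) ≤
      ENNReal.ofReal (3 / 2 * (a₁ : ℝ)) := by
    have h1 := ax_nrm 0 (a₁ : ℝ) w (by rw [habs₁]; exact hw0)
    rwa [habs₁] at h1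
  have hBn : wn en w (MvPowerSeries.C (x₁ : ℝ) + MvPowerSeries.X 1) ≤
      ENNReal.ofReal (3 / 2 * |(x₁ : ℝ)|) := ax_nrm 1 (x₁ : ℝ) w hw1
  obtain ⟨Z, hZ⟩ : ∃ Z : ℝ, Z = ((3 / 2 * (a₁ : ℝ)) ^ I₁ * (3 / 2 * |(x₁ : ℝ)|) ^ M₁) *
    (Real.exp (-(s * W)) * X) := ⟨_, rfl⟩
  have hZ0 : 0 ≤ Z := by
    rw [hZ]
    positivity
  have hPG : wn en w ((MvPowerSeries.C (a₁ : ℝ) + MvPowerSeries.X 0) ^ I₁ *
      (MvPowerSeries.C (x₁ : ℝ) + MvPowerSeries.X 1) ^ M₁ * G) ≤ ENNReal.ofReal Z := by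
    rw [hZ, ENNReal.ofReal_mul (by positivity), ENNReal.ofReal_mul (by positivity),
      ENNReal.ofReal_pow (by positivity), ENNReal.ofReal_pow (by positivity)]
    refine (hN.mul _ _).trans (mul_le_mul' ((hN.mul _ _).trans (mul_le_mul' ?_ ?_)) hGn)
    · exact (hN.pow _ _).trans (pow_le_pow_left' hA _)
    · exact (hN.pow _ _).trans (pow_le_pow_left' hBn _)
  have hpw : (1 : ℝ≥0∞) ≤ pw w ν := by
    rw [pw_real w ((a₁ : ℝ) / 2) (|(x₁ : ℝ)| / 2) (by positivity) (by positivity) hw0 hw1,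
      ENNReal.one_le_ofReal]
    exact one_le_mul_of_one_le_of_one_le (one_le_pow₀ (by linarith)) (one_le_pow₀ (by linarith))
  obtain ⟨y, hyd⟩ : ∃ y : ℝ, y = MvPowerSeries.coeff ν ((MvPowerSeries.C (a₁ : ℝ) +
    MvPowerSeries.X 0) ^ I₁ * (MvPowerSeries.C (x₁ : ℝ) + MvPowerSeries.X 1) ^ M₁ * G) := ⟨_, rfl⟩
  have hcoef : |y| ≤ Z := by
    have h1 := (wn_coeff en w ((MvPowerSeries.C (a₁ : ℝ) + MvPowerSeries.X 0) ^ I₁ *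
      (MvPowerSeries.C (x₁ : ℝ) + MvPowerSeries.X 1) ^ M₁ * G) ν).trans hPG
    rw [← hyd] at h1
    have h2 : en y ≤ en y * pw w ν := by
      calc en y = en y * 1 := (mul_one _).symm
        _ ≤ en y * pw w ν := mul_le_mul' le_rfl hpw
    have h3 := h2.trans h1
    unfold en at h3
    rw [Real.enorm_eq_ofReal_abs, ENNReal.ofReal_le_ofReal_iff hZ0] at h3
    exact h3
  have hfin : ((a₂ : ℝ) ^ I₂ * |(x₂ : ℝ)| ^ M₂) *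
      ((3 / 2 * (a₁ : ℝ)) ^ I₁ * (3 / 2 * |(x₁ : ℝ)|) ^ M₁) * (Real.exp (-(s * W)) * X) =
      ((a₂ : ℝ) ^ I₂ * |(x₂ : ℝ)| ^ M₂) * Z := by
    rw [hZ]
    ring
  rw [hfin, hid, ← hyd, abs_mul, abs_mul, abs_pow, abs_pow, habs₂]
  exact mul_le_mul_of_nonneg_left hcoef (by positivity)

end Pool.Agent.H48.SX
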