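import Pool.Agent.H48.SX.Nrm

/-!
# [H48 SX EVN] the value of a power series near `0`

PROOF. `ev2 u v f - f(0) = ∑'_{μ ≠ 0} f_μ u^(μ 0) v^(μ 1)` (absolutely convergent since `|u|, |v| ≤ s ≤ ρ`). For `μ ≠ 0`:
`|u|^(μ 0) |v|^(μ 1) ≤ s^(μ 0 + μ 1) = (s/ρ)^(μ 0 + μ 1) ρ^(μ 0 + μ 1) ≤ (s/ρ) ρ^(μ 0 + μ 1)`, so the norm of the sum is at most
`(s/ρ) ∑' |f_μ| ρ^(μ 0 + μ 1) ≤ (s/ρ) κ`. (Real numbers: from `hf` the real series `|f_μ| ρ^(μ 0 + μ 1)` is summable with sum `≤ κ`;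
`Summable.tsum_eq_add_tsum_ite` at `0`, or subtract `∑' Pi.single`.)
-/

namespace Pool.Agent.H48.SX

open Finset Polynomial Pool.Agent.H37.TE Pool.Agent.H98.TE Pool.Agent.H4.TP Pool.Agent.H98.XG
open scoped ENNReal

theorem ev2_near {f : MvPowerSeries (Fin 2) ℝ} {ρ κ u v s : ℝ} (hρ : 0 < ρ) (hκ : 0 ≤ κ)
    (hf : wn en (fun _ => ENNReal.ofReal ρ) f ≤ ENNReal.ofReal κ) (hu : |u| ≤ s) (hv : |v| ≤ s)
    (hs : s ≤ ρ) : |ev2 u v f - MvPowerSeries.constantCoeff f| ≤ s / ρ * κ := by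
  have hs0 : 0 ≤ s := (abs_nonneg u).trans hu
  set a : (Fin 2 →₀ ℕ) → ℝ := fun μ => |MvPowerSeries.coeff μ f| * ρ ^ (μ 0 + μ 1) with ha
  have ha0 : ∀ μ, 0 ≤ a μ := fun μ => mul_nonneg (abs_nonneg _) (pow_nonneg hρ.le _)
  have hterm : ∀ μ : Fin 2 →₀ ℕ, en (MvPowerSeries.coeff μ f) * pw (fun _ => ENNReal.ofReal ρ) μ =
      ENNReal.ofReal (a μ) := by
    intro μ
    rw [ha, en, pw, ENNReal.ofReal_mul (abs_nonneg _), ← pow_add, ENNReal.ofReal_pow hρ.le,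
      ← ofReal_norm, Real.norm_eq_abs]
  have hfin : ∀ S : Finset (Fin 2 →₀ ℕ), ∑ μ ∈ S, a μ ≤ κ := by
    intro S
    rw [← ENNReal.ofReal_le_ofReal_iff hκ, ENNReal.ofReal_sum_of_nonneg fun μ _ => ha0 μ]
    refine le_trans ?_ hf
    unfold wn
    simp only [hterm]
    exact ENNReal.sum_le_tsum S
  have hsum : Summable a := summable_of_sum_le ha0 hfin
  have htot : ∑' μ, a μ ≤ κ := hsum.tsum_le_of_sum_le hfin
  set g : (Fin 2 →₀ ℕ) → ℝ := fun μ => MvPowerSeries.coeff μ f * (u ^ μ 0 * v ^ μ 1) with hg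
  have hgs : ∀ μ, |g μ| ≤ |MvPowerSeries.coeff μ f| * s ^ (μ 0 + μ 1) := by
    intro μ
    rw [hg]
    simp only [abs_mul, abs_pow]
    rw [pow_add]
    gcongr
  have hg1 : ∀ μ, ‖g μ‖ ≤ a μ := by
    intro μ
    rw [Real.norm_eq_abs]
    refine (hgs μ).trans ?_
    simp only [ha]
    gcongr
  have hgsum : Summable g := Summable.of_norm_bounded hsum hg1
  have h0 : g 0 = MvPowerSeries.constantCoeff f := by
    rw [hg]
    simp
  have hev : ev2 u v f - MvPowerSeries.constantCoeff f = ∑' μ, (if μ = 0 then 0 else g μ) := by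
    have h1 : ev2 u v f = ∑' μ, g μ := rfl
    rw [h1, hgsum.tsum_eq_add_tsum_ite 0, h0]
    ring
  rw [hev, ← Real.norm_eq_abs]
  have hb : ∀ μ, ‖(if μ = 0 then 0 else g μ)‖ ≤ s / ρ * a μ := by
    intro μ
    split_ifs with hμ
    · rw [norm_zero]
      exact mul_nonneg (div_nonneg hs0 hρ.le) (ha0 μ)
    · rw [Real.norm_eq_abs]
      refine (hgs μ).trans ?_
      have hk : μ 0 + μ 1 ≠ 0 := by
        intro h
        apply hμ
        ext i
        fin_cases i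
        · simp; omega
        · simp; omega
      obtain ⟨k, hk'⟩ := Nat.exists_eq_succ_of_ne_zero hk
      rw [ha]
      simp only [hk', Nat.succ_eq_add_one, pow_succ]
      have h1 : s / ρ * (|MvPowerSeries.coeff μ f| * (ρ ^ k * ρ)) = |MvPowerSeries.coeff μ f| * (ρ ^ k * s) := by
        field_simp
      rw [h1]
      gcongr
  have h2 := tsum_of_norm_bounded (hsum.hasSum.mul_left (s / ρ)) hb
  exact h2.trans (mul_le_mul_of_nonneg_left htot (div_nonneg hs0 hρ.le))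

end Pool.Agent.H48.SX
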