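import Pool.Agent.H48.SX.Nrm

/-!
# [H48 SX EWA] convergent substitution of power series into a power series

PROOF. `ew_C, ew_X0, ew_X1`: in the defining sum only one exponent `μ` has a non-zero coefficient (`tsum_eq_single`). `ew_smm`: write
`M μ = U^(μ 0) V^(μ 1)`. `‖coeff ν (M μ)‖ₑ pw w ν ≤ wn en w (M μ) ≤ (ρ 0)^(μ 0) (ρ 1)^(μ 1) = pw ρ μ` (`wn_coeff`, `wn_isNrm en_isNrm w`, `IsNrm.mul, pow`,
`h.hU, h.hV`), and `pw w ν ≠ 0, ∞`; so `∑' ‖f_μ (M μ)_ν‖ₑ ≤ (pw w ν)⁻¹ wn en ρ f < ∞`, which is summability of the norms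
(`summable_of_tsum_enorm_ne_top` or via `tsum_enorm`/`ENNReal.tsum_coe_ne_top_iff_summable`, then `Summable.of_norm`).
`ew_add`: `Summable.tsum_add` with `ew_smm`. `ew_mul`: at `ν`: `coeff ν (Ew f * Ew g) = ∑_{(a,b) : a+b = ν} (∑'_μ f_μ (M μ)_a) (∑'_μ' g_μ' (M μ')_b)
= ∑_{(a,b)} ∑'_{(μ,μ')} f_μ (M μ)_a g_μ' (M μ')_b` (`Summable.tsum_mul_tsum` / `tsum_mul_tsum_of_summable_norm`, absolutely summable)
`= ∑'_{(μ,μ')} f_μ g_μ' (M(μ+μ'))_ν` (finite sum inside: `Summable.tsum_finsetSum`; `M μ * M μ' = M (μ + μ')`, `coeff_mul`)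
`= ∑'_λ ∑_{(μ,μ') : μ+μ' = λ} f_μ g_μ' (M λ)_ν` (`Finset.HasAntidiagonal.sigmaAntidiagonalEquivProd`, `Summable.tsum_sigma'`) `= ∑'_λ (f g)_λ (M λ)_ν`.
ALTERNATIVE for `ew_mul`: in the topological ring `MvPowerSeries (Fin 2) ℝ` (`open scoped MvPowerSeries.WithPiTopology`)
`Ew U V f = ∑' μ, C (f_μ) * U^(μ 0) * V^(μ 1)`, and `Summable.tsum_mul_tsum_eq_tsum_sum_antidiagonal`; summability in the product topology is
coefficientwise (`MvPowerSeries.WithPiTopology`).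
-/

namespace Pool.Agent.H48.SX

open Finset Polynomial Pool.Agent.H37.TE Pool.Agent.H98.TE Pool.Agent.H4.TP Pool.Agent.H98.XG
open scoped ENNReal

variable {ρ w : Fin 2 → ℝ≥0∞} {U V : MvPowerSeries (Fin 2) ℝ}

private theorem pw_ne0 {w : Fin 2 → ℝ≥0∞} (h : ∀ i, w i ≠ 0) (ν : Fin 2 →₀ ℕ) : pw w ν ≠ 0 :=
  mul_ne_zero (pow_ne_zero _ (h 0)) (pow_ne_zero _ (h 1))

private theorem pw_neT {w : Fin 2 → ℝ≥0∞} (h : ∀ i, w i ≠ ⊤) (ν : Fin 2 →₀ ℕ) : pw w ν ≠ ⊤ :=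
  ENNReal.mul_ne_top (ENNReal.pow_ne_top (h 0)) (ENNReal.pow_ne_top (h 1))

theorem cvg_pw (h : Cvg ρ w U V) (μ : Fin 2 →₀ ℕ) : wn en w (U ^ μ 0 * V ^ μ 1) ≤ pw ρ μ := by
  have hN := wn_isNrm en_isNrm w
  calc wn en w (U ^ μ 0 * V ^ μ 1) ≤ wn en w (U ^ μ 0) * wn en w (V ^ μ 1) := hN.mul _ _
    _ ≤ wn en w U ^ μ 0 * wn en w V ^ μ 1 := mul_le_mul' (hN.pow _ _) (hN.pow _ _)
    _ ≤ pw ρ μ := mul_le_mul' (pow_le_pow_left' h.hU _) (pow_le_pow_left' h.hV _)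

private theorem cf_le (h : Cvg ρ w U V) (μ ν : Fin 2 →₀ ℕ) :
    ‖MvPowerSeries.coeff ν (U ^ μ 0 * V ^ μ 1)‖ₑ ≤ pw ρ μ / pw w ν := by
  rw [ENNReal.le_div_iff_mul_le (Or.inl (pw_ne0 h.w0 ν)) (Or.inl (pw_neT h.w1 ν))]
  exact (wn_coeff en w _ ν).trans (cvg_pw h μ)

theorem ew_smm (h : Cvg ρ w U V) {f : MvPowerSeries (Fin 2) ℝ} (hf : wn en ρ f ≠ ⊤)
    (ν : Fin 2 →₀ ℕ) : Summable fun μ : Fin 2 →₀ ℕ =>
      ‖MvPowerSeries.coeff μ f * MvPowerSeries.coeff ν (U ^ μ 0 * V ^ μ 1)‖ := by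
  have h1 : (∑' μ : Fin 2 →₀ ℕ,
      ((‖MvPowerSeries.coeff μ f * MvPowerSeries.coeff ν (U ^ μ 0 * V ^ μ 1)‖₊ : NNReal) : ℝ≥0∞)) ≠
        ⊤ := by
    refine ne_top_of_le_ne_top (b := wn en ρ f / pw w ν)
      (ENNReal.div_ne_top hf (pw_ne0 h.w0 ν)) ?_
    unfold wn
    rw [ENNReal.div_eq_inv_mul, ← ENNReal.tsum_mul_left]
    refine ENNReal.tsum_le_tsum fun μ => ?_
    change ‖MvPowerSeries.coeff μ f * MvPowerSeries.coeff ν (U ^ μ 0 * V ^ μ 1)‖ₑ ≤ _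
    rw [enorm_mul]
    calc ‖MvPowerSeries.coeff μ f‖ₑ * ‖MvPowerSeries.coeff ν (U ^ μ 0 * V ^ μ 1)‖ₑ ≤
        ‖MvPowerSeries.coeff μ f‖ₑ * (pw ρ μ / pw w ν) := mul_le_mul' le_rfl (cf_le h μ ν)
      _ = (pw w ν)⁻¹ * (en (MvPowerSeries.coeff μ f) * pw ρ μ) := by
        rw [ENNReal.div_eq_inv_mul]
        unfold en
        ring
  have h2 := ENNReal.tsum_coe_ne_top_iff_summable_coe.1 h1
  exact h2

private theorem cf_Ew (U V f : MvPowerSeries (Fin 2) ℝ) (ν : Fin 2 →₀ ℕ) :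
    MvPowerSeries.coeff ν (Ew U V f) =
      ∑' μ : Fin 2 →₀ ℕ, MvPowerSeries.coeff μ f * MvPowerSeries.coeff ν (U ^ μ 0 * V ^ μ 1) := rfl

theorem ew_C (U V : MvPowerSeries (Fin 2) ℝ) (r : ℝ) :
    Ew U V (MvPowerSeries.C r) = MvPowerSeries.C r := by
  classical
  ext ν
  rw [cf_Ew, tsum_eq_single 0]
  · simp only [MvPowerSeries.coeff_C, if_true, Finsupp.coe_zero, Pi.zero_apply, pow_zero, mul_one]
    rw [MvPowerSeries.coeff_one]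
    split_ifs <;> simp
  · intro μ hμ
    rw [MvPowerSeries.coeff_C, if_neg hμ, zero_mul]

theorem ew_X0 (U V : MvPowerSeries (Fin 2) ℝ) : Ew U V (MvPowerSeries.X 0) = U := by
  classical
  ext ν
  rw [cf_Ew, tsum_eq_single (Finsupp.single 0 1)]
  · rw [MvPowerSeries.coeff_X, if_pos rfl]
    simp
  · intro μ hμ
    rw [MvPowerSeries.coeff_X, if_neg hμ, zero_mul]

theorem ew_X1 (U V : MvPowerSeries (Fin 2) ℝ) : Ew U V (MvPowerSeries.X 1) = V := by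
  classical
  ext ν
  rw [cf_Ew, tsum_eq_single (Finsupp.single 1 1)]
  · rw [MvPowerSeries.coeff_X, if_pos rfl]
    simp
  · intro μ hμ
    rw [MvPowerSeries.coeff_X, if_neg hμ, zero_mul]

theorem ew_add (h : Cvg ρ w U V) {f g : MvPowerSeries (Fin 2) ℝ} (hf : wn en ρ f ≠ ⊤)
    (hg : wn en ρ g ≠ ⊤) : Ew U V (f + g) = Ew U V f + Ew U V g := by
  ext ν
  rw [map_add, cf_Ew, cf_Ew, cf_Ew, ← (ew_smm h hf ν).of_norm.tsum_add (ew_smm h hg ν).of_norm]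
  refine tsum_congr fun μ => ?_
  rw [map_add, add_mul]

private theorem conv_abs (A B : (Fin 2 →₀ ℕ) → (Fin 2 →₀ ℕ) → ℝ)
    (hA : ∀ ν, Summable fun μ => ‖A ν μ‖) (hB : ∀ ν, Summable fun μ => ‖B ν μ‖)
    (T : (Fin 2 →₀ ℕ) × (Fin 2 →₀ ℕ) → ℝ) (ν : Fin 2 →₀ ℕ)
    (hT : ∀ q, ∑ p ∈ antidiagonal ν, A p.1 q.1 * B p.2 q.2 = T q) :
    ∑ p ∈ antidiagonal ν, (∑' μ, A p.1 μ) * (∑' μ, B p.2 μ) =
      ∑' μ, ∑ q ∈ antidiagonal μ, T q := by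
  have hsum : ∀ p : (Fin 2 →₀ ℕ) × (Fin 2 →₀ ℕ), Summable fun q : (Fin 2 →₀ ℕ) × (Fin 2 →₀ ℕ) =>
      A p.1 q.1 * B p.2 q.2 :=
    fun p => summable_mul_of_summable_norm (hA p.1) (hB p.2)
  have h1 : ∀ p ∈ antidiagonal ν, (∑' μ, A p.1 μ) * (∑' μ, B p.2 μ) =
      ∑' q : (Fin 2 →₀ ℕ) × (Fin 2 →₀ ℕ), A p.1 q.1 * B p.2 q.2 :=
    fun p _ => tsum_mul_tsum_of_summable_norm (hA p.1) (hB p.2)
  have h3 : (∑ p ∈ antidiagonal ν, ∑' q : (Fin 2 →₀ ℕ) × (Fin 2 →₀ ℕ), A p.1 q.1 * B p.2 q.2) =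
      ∑' q : (Fin 2 →₀ ℕ) × (Fin 2 →₀ ℕ), ∑ p ∈ antidiagonal ν, A p.1 q.1 * B p.2 q.2 :=
    (Summable.tsum_finsetSum fun p _ => hsum p).symm
  rw [Finset.sum_congr rfl h1, h3]
  have hS : Summable T := (summable_sum (s := antidiagonal ν) fun p _ => hsum p).congr hT
  have h2 : (∑' q : (Fin 2 →₀ ℕ) × (Fin 2 →₀ ℕ), ∑ p ∈ antidiagonal ν, A p.1 q.1 * B p.2 q.2) =
      ∑' q, T q := tsum_congr hT
  let e : (Σ μ : Fin 2 →₀ ℕ, antidiagonal μ) ≃ (Fin 2 →₀ ℕ) × (Fin 2 →₀ ℕ) :=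
    Finset.HasAntidiagonal.sigmaAntidiagonalEquivProd
  have h4 : (∑' q, T q) = ∑' c, T (e c) := (e.tsum_eq T).symm
  have hS' : Summable fun c => T (e c) := e.summable_iff.2 hS
  rw [h2, h4, Summable.tsum_sigma hS']
  refine tsum_congr fun μ => ?_
  rw [tsum_fintype]
  exact Finset.sum_coe_sort (antidiagonal μ) T

theorem ew_mul (h : Cvg ρ w U V) {f g : MvPowerSeries (Fin 2) ℝ} (hf : wn en ρ f ≠ ⊤)
    (hg : wn en ρ g ≠ ⊤) : Ew U V (f * g) = Ew U V f * Ew U V g := by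
  classical
  ext ν
  rw [MvPowerSeries.coeff_mul]
  have key := conv_abs (fun ν μ => MvPowerSeries.coeff μ f * MvPowerSeries.coeff ν (U ^ μ 0 * V ^ μ 1))
    (fun ν μ => MvPowerSeries.coeff μ g * MvPowerSeries.coeff ν (U ^ μ 0 * V ^ μ 1))
    (ew_smm h hf) (ew_smm h hg) (fun q => MvPowerSeries.coeff q.1 f * MvPowerSeries.coeff q.2 g *
        MvPowerSeries.coeff ν (U ^ (q.1 + q.2) 0 * V ^ (q.1 + q.2) 1)) ν (by
    intro q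
    have e : U ^ (q.1 + q.2) 0 * V ^ (q.1 + q.2) 1 =
        (U ^ q.1 0 * V ^ q.1 1) * (U ^ q.2 0 * V ^ q.2 1) := by
      rw [Finsupp.add_apply, Finsupp.add_apply, pow_add, pow_add]
      ring
    rw [e, MvPowerSeries.coeff_mul, Finset.mul_sum]
    refine Finset.sum_congr rfl fun p _ => ?_
    ring)
  refine Eq.trans ?_ key.symm
  rw [cf_Ew]
  refine tsum_congr fun μ => ?_
  rw [MvPowerSeries.coeff_mul, Finset.sum_mul]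
  refine Finset.sum_congr rfl fun q hq => ?_
  have hq' : q.1 + q.2 = μ := mem_antidiagonal.1 hq
  rw [hq']

end Pool.Agent.H48.SX
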