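import Pool.Agent.H48.SX.Ewa

/-!
# [H48 SX EWB] substitution: powers, the polynomial `pk`, the functions `Av`, constants

PROOF. The series of finite norm form a subring (`wn_isNrm en_isNrm ρ`), and on it `Ew U V` is multiplicative and additive and maps constants to constants
(`ew_add, ew_mul, ew_C`): it is a ring homomorphism from this subring `FN` (`Subring (MvPowerSeries (Fin 2) ℝ)`), `X 0, X 1 ∈ FN` by `wn_X` and `hρ`.
`ew_pk`: unfold `pk, pb` and apply the homomorphism (finite sums, products, powers, integer constants; or induction lemmas for `∑, ^`), `ew_X0, ew_X1`.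
`ew_av`: same. `ew_CC`: `coeff ν (C u ^ μ 0 * C v ^ μ 1) = u^(μ 0) v^(μ 1)` for `ν = 0` and `0` otherwise. `cc_ew`: the constant coefficient of
`U^(μ 0) V^(μ 1)` is the product of the powers of the constant coefficients.
`ev2_pk, ev2_av`: apply `ew_pk, ew_av` to `U = C u, V = C v`, weights `w = 1` (`wn en w (C u) = ‖u‖ₑ`: `wn_C`), then `ew_CC`, `pk_map` for the ring homomorphism
`C` (prove the needed case directly or import `Pkf`), `MvPowerSeries.C_injective`.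
-/

namespace Pool.Agent.H48.SX

open Finset Polynomial Pool.Agent.H37.TE Pool.Agent.H98.TE Pool.Agent.H4.TP Pool.Agent.H98.XG
open scoped ENNReal

variable {ρ w : Fin 2 → ℝ≥0∞} {U V : MvPowerSeries (Fin 2) ℝ}

private theorem pkm {A B : Type*} [CommRing A] [CommRing B] (φ : A →+* B) (n m : ℕ)
    (F : ℤ[X][X][X]) (u w z : A) : φ (pk n m F u w z) = pk n m F (φ u) (φ w) (φ z) := by
  unfold pk pb
  simp only [map_sum, map_mul, map_pow, map_intCast]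

/-- the series of finite norm -/
private noncomputable def FN (ρ : Fin 2 → ℝ≥0∞) : Subring (MvPowerSeries (Fin 2) ℝ) where
  carrier := {f | wn en ρ f ≠ ⊤}
  mul_mem' := by
    intro a b ha hb
    exact ne_top_of_le_ne_top (ENNReal.mul_ne_top ha hb) ((wn_isNrm en_isNrm ρ).mul a b)
  one_mem' := ne_top_of_le_ne_top ENNReal.one_ne_top (wn_isNrm en_isNrm ρ).one
  add_mem' := by
    intro a b ha hb
    exact ne_top_of_le_ne_top (ENNReal.add_ne_top.2 ⟨ha, hb⟩) ((wn_isNrm en_isNrm ρ).add a b)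
  zero_mem' := by
    change wn en ρ 0 ≠ ⊤
    rw [(wn_isNrm en_isNrm ρ).zero]
    exact ENNReal.zero_ne_top
  neg_mem' := by
    intro a ha
    change wn en ρ (-a) ≠ ⊤
    rw [(wn_isNrm en_isNrm ρ).neg]
    exact ha

private noncomputable def EH (h : Cvg ρ w U V) : FN ρ →+* MvPowerSeries (Fin 2) ℝ where
  toFun f := Ew U V f.1
  map_one' := by
    have := ew_C U V 1
    rwa [map_one] at this
  map_mul' a b := ew_mul h a.2 b.2
  map_zero' := by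
    have := ew_C U V 0
    rwa [map_zero] at this
  map_add' a b := ew_add h a.2 b.2

private theorem X_mem (hρ : ∀ i, ρ i ≠ ⊤) (i : Fin 2) :
    (MvPowerSeries.X i : MvPowerSeries (Fin 2) ℝ) ∈ FN ρ :=
  ne_top_of_le_ne_top (hρ i) (wn_X en_isNrm ρ i)

theorem ew_pk (h : Cvg ρ w U V) (hρ : ∀ i, ρ i ≠ ⊤) {f : MvPowerSeries (Fin 2) ℝ}
    (hf : wn en ρ f ≠ ⊤) (n m : ℕ) (F : ℤ[X][X][X]) :
    Ew U V (pk n m F (MvPowerSeries.X 0) (MvPowerSeries.X 1) f) = pk n m F U V (Ew U V f) := by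
  have h1 := pkm (EH h) n m F ⟨_, X_mem hρ 0⟩ ⟨_, X_mem hρ 1⟩ ⟨f, hf⟩
  have h2 := pkm (FN ρ).subtype n m F ⟨_, X_mem hρ 0⟩ ⟨_, X_mem hρ 1⟩ ⟨f, hf⟩
  have e0 : EH h ⟨_, X_mem hρ 0⟩ = U := ew_X0 U V
  have e1 : EH h ⟨_, X_mem hρ 1⟩ = V := ew_X1 U V
  have e2 : EH h ⟨f, hf⟩ = Ew U V f := rfl
  rw [e0, e1, e2] at h1
  rw [← h1]
  change _ = Ew U V ((FN ρ).subtype _)
  rw [h2]
  rfl

theorem ew_av (h : Cvg ρ w U V) (hρ : ∀ i, ρ i ≠ ⊤) {f : MvPowerSeries (Fin 2) ℝ}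
    (hf : wn en ρ f ≠ ⊤) {I n M : ℕ} (l : Lam I n M) :
    Ew U V (Av f l) = U ^ (I - (l.1 : ℕ)) * V ^ (M - (l.2.2 : ℕ) - (l.2.1 : ℕ)) *
      Ew U V f ^ (l.2.1 : ℕ) := by
  have e0 : EH h ⟨_, X_mem hρ 0⟩ = U := ew_X0 U V
  have e1 : EH h ⟨_, X_mem hρ 1⟩ = V := ew_X1 U V
  have e2 : EH h ⟨f, hf⟩ = Ew U V f := rfl
  have h1 : EH h ((⟨_, X_mem hρ 0⟩ : FN ρ) ^ (I - (l.1 : ℕ)) *
      (⟨_, X_mem hρ 1⟩ : FN ρ) ^ (M - (l.2.2 : ℕ) - (l.2.1 : ℕ)) *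
      (⟨f, hf⟩ : FN ρ) ^ (l.2.1 : ℕ)) = U ^ (I - (l.1 : ℕ)) *
      V ^ (M - (l.2.2 : ℕ) - (l.2.1 : ℕ)) * Ew U V f ^ (l.2.1 : ℕ) := by
    rw [map_mul, map_mul, map_pow, map_pow, map_pow, e0, e1, e2]
  rw [← h1]
  rfl

theorem ew_CC (u v : ℝ) (f : MvPowerSeries (Fin 2) ℝ) :
    Ew (MvPowerSeries.C u) (MvPowerSeries.C v) f = MvPowerSeries.C (ev2 u v f) := by
  classical
  ext ν
  change (∑' μ : Fin 2 →₀ ℕ, MvPowerSeries.coeff μ f * MvPowerSeries.coeff ν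
    (MvPowerSeries.C u ^ μ 0 * MvPowerSeries.C v ^ μ 1)) = _
  rw [MvPowerSeries.coeff_C]
  have e : ∀ μ : Fin 2 →₀ ℕ, MvPowerSeries.coeff ν
      ((MvPowerSeries.C u : MvPowerSeries (Fin 2) ℝ) ^ μ 0 * MvPowerSeries.C v ^ μ 1) =
      if ν = 0 then u ^ μ 0 * v ^ μ 1 else 0 := by
    intro μ
    rw [← map_pow, ← map_pow, ← map_mul, MvPowerSeries.coeff_C]
  by_cases hν : ν = 0
  · rw [if_pos hν]
    unfold ev2
    refine tsum_congr fun μ => ?_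
    rw [e, if_pos hν]
  · rw [if_neg hν]
    have e' : (fun μ : Fin 2 →₀ ℕ => MvPowerSeries.coeff μ f * MvPowerSeries.coeff ν
        ((MvPowerSeries.C u : MvPowerSeries (Fin 2) ℝ) ^ μ 0 * MvPowerSeries.C v ^ μ 1)) =
        fun _ => 0 := by
      funext μ
      rw [e, if_neg hν, mul_zero]
    rw [e', tsum_zero]

theorem cc_ew (U V f : MvPowerSeries (Fin 2) ℝ) : MvPowerSeries.constantCoeff (Ew U V f) =
    ev2 (MvPowerSeries.constantCoeff U) (MvPowerSeries.constantCoeff V) f := by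
  rw [← MvPowerSeries.coeff_zero_eq_constantCoeff_apply]
  change (∑' μ : Fin 2 →₀ ℕ, MvPowerSeries.coeff μ f * MvPowerSeries.coeff 0
    (U ^ μ 0 * V ^ μ 1)) = _
  unfold ev2
  refine tsum_congr fun μ => ?_
  rw [MvPowerSeries.coeff_zero_eq_constantCoeff_apply, map_mul, map_pow, map_pow]

private theorem cvgC {u v : ℝ} (hu : ‖u‖ₑ ≤ ρ 0) (hv : ‖v‖ₑ ≤ ρ 1) :
    Cvg ρ (fun _ => 1) (MvPowerSeries.C u) (MvPowerSeries.C v) where
  w0 _ := one_ne_zero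
  w1 _ := ENNReal.one_ne_top
  hU := by
    rw [wn_C en_isNrm]
    exact hu
  hV := by
    rw [wn_C en_isNrm]
    exact hv

theorem ev2_pk {u v : ℝ} (hu : ‖u‖ₑ ≤ ρ 0) (hv : ‖v‖ₑ ≤ ρ 1) (hρ : ∀ i, ρ i ≠ ⊤)
    {f : MvPowerSeries (Fin 2) ℝ} (hf : wn en ρ f ≠ ⊤) (n m : ℕ) (F : ℤ[X][X][X]) :
    ev2 u v (pk n m F (MvPowerSeries.X 0) (MvPowerSeries.X 1) f) = pk n m F u v (ev2 u v f) := by
  have h1 := ew_pk (cvgC hu hv) hρ hf n m F
  rw [ew_CC, ew_CC, ← pkm] at h1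
  have h2 := congrArg MvPowerSeries.constantCoeff h1
  rwa [MvPowerSeries.constantCoeff_C, MvPowerSeries.constantCoeff_C] at h2

theorem ev2_av {u v : ℝ} (hu : ‖u‖ₑ ≤ ρ 0) (hv : ‖v‖ₑ ≤ ρ 1) (hρ : ∀ i, ρ i ≠ ⊤)
    {f : MvPowerSeries (Fin 2) ℝ} (hf : wn en ρ f ≠ ⊤) {I n M : ℕ} (l : Lam I n M) :
    ev2 u v (Av f l) = u ^ (I - (l.1 : ℕ)) * v ^ (M - (l.2.2 : ℕ) - (l.2.1 : ℕ)) *
      ev2 u v f ^ (l.2.1 : ℕ) := by
  have h1 := ew_av (cvgC hu hv) hρ hf l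
  rw [ew_CC, ew_CC, ← map_pow, ← map_pow, ← map_pow, ← map_mul, ← map_mul] at h1
  have h2 := congrArg MvPowerSeries.constantCoeff h1
  rwa [MvPowerSeries.constantCoeff_C, MvPowerSeries.constantCoeff_C] at h2

end Pool.Agent.H48.SX
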