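import Pool.Agent.H48.SX.Defs

/-!
# [H48 SX FYB] the size of `F_y` at a point

PROOF. `ev3` of `derivative F` is a sum of at most `(n+1)(n+1)(m+1)` terms `b · cf3 F j a b · t^j x^a y^(b-1)` with `j ≤ m`, `a + b ≤ n` (coefficients of the
derivative: `Polynomial.coeff_derivative`; or `eval₂` of the derivative as in `ev3_sum`, applied to `derivative F`, which satisfies `DegF n m` again), each of absolute value `≤ n |cf3 F j a b| a^m |x|^n`
(`a ≥ 1`, `|y| ≤ |x|`, `|x| ≥ 1`). So `|fy F a x y| ≤ B a^m |x|^n` with a natural number `B ≥ 1` depending only on `F, n, m`, and `|x| ≤ |x|^Q ≤ a^(j+1)`, `B ≤ 2^B ≤ a^B`: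
`|fy| ≤ a^(B + m + (j+1) n) = exp(C log a)`, `C = B + m + (j+1) n`.
-/

namespace Pool.Agent.H48.SX

open Finset Polynomial Pool.Agent.H37.TE Pool.Agent.H98.TE Pool.Agent.H4.TP Pool.Agent.H98.XG
open scoped ENNReal

private theorem fyb_deg {n m : ℕ} {F : ℤ[X][X][X]} (H : DegF n m F) : DegF n m (derivative F) := by
  have h : ∀ a b, ((derivative F).coeff b).coeff a = ((F.coeff (b + 1)).coeff a) * ((b : ℤ[X]) + 1) := by
    intro a b
    rw [coeff_derivative]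
    have : ((b : ℤ[X][X]) + 1) = C ((b : ℤ[X]) + 1) := by simp
    rw [this, coeff_mul_C]
  refine ⟨fun a b hab => ?_, fun a b => ?_⟩
  · rw [h, H.tot a (b + 1) (by omega), zero_mul]
  · rw [h]
    have : ((b : ℤ[X]) + 1) = C ((b : ℤ) + 1) := by simp
    rw [this]
    exact (natDegree_mul_C_le _ _).trans (H.deg a (b + 1))

theorem fy_bd {n m : ℕ} {F : ℤ[X][X][X]} (H : DegF n m F) (Q j : ℕ) (hQ : 1 ≤ Q) :
    ∃ C : ℝ, 1 ≤ C ∧ ∀ (a : ℕ) (x y : ℤ), 2 ≤ a → x ≠ 0 → |y| ≤ |x| →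
      |x| ^ Q ≤ (a : ℤ) ^ (j + 1) → |((fy F a x y : ℤ) : ℝ)| ≤ Real.exp (C * Real.log a) := by
  set B : ℕ := ∑ b ∈ range (n + 1), ∑ a ∈ range (n + 1 - b), ∑ j ∈ range (m + 1),
      (cf3 (derivative F) j a b).natAbs with hB
  refine ⟨((B + m + (j + 1) * n + 1 : ℕ) : ℝ), ?_, ?_⟩
  · exact_mod_cast Nat.le_add_left 1 _
  intro a x y ha hx hyx hxa
  have ha1 : (1 : ℝ) ≤ a := by
    have : 1 ≤ a := by omega
    exact_mod_cast this
  have ha0 : (0 : ℝ) < a := by linarith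
  have hx1 : (1 : ℝ) ≤ |(x : ℝ)| := by exact_mod_cast Int.one_le_abs hx
  have hyx' : |(y : ℝ)| ≤ |(x : ℝ)| := by exact_mod_cast hyx
  have hxa' : |(x : ℝ)| ≤ (a : ℝ) ^ (j + 1) := by
    have h1 : |(x : ℝ)| ^ Q ≤ (a : ℝ) ^ (j + 1) := by exact_mod_cast hxa
    exact (le_self_pow₀ hx1 (by omega)).trans h1
  have hexp : Real.exp (((B + m + (j + 1) * n + 1 : ℕ) : ℝ) * Real.log a) = (a : ℝ) ^ (B + m + (j + 1) * n + 1) := by
    rw [Real.exp_nat_mul, Real.exp_log ha0]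
  rw [hexp]
  have hmain : |((fy F a x y : ℤ) : ℝ)| ≤ B * ((a : ℝ) ^ m * |(x : ℝ)| ^ n) := by
    have h1 : ((fy F a x y : ℤ) : ℝ) = ∑ b ∈ range (n + 1), ∑ i ∈ range (n + 1 - b), ∑ k ∈ range (m + 1),
      (cf3 (derivative F) k i b : ℝ) * ((a : ℝ) ^ k * (x : ℝ) ^ i * (y : ℝ) ^ b) := by
      rw [fy, Pool.Agent.H98.TE.ev3_sum (fyb_deg H)]
      push_cast
      rfl
    rw [h1, hB]
    push_cast
    rw [sum_mul]
    refine (abs_sum_le_sum_abs _ _).trans (sum_le_sum fun b hb => ?_)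
    rw [sum_mul]
    refine (abs_sum_le_sum_abs _ _).trans (sum_le_sum fun i hi => ?_)
    rw [sum_mul]
    refine (abs_sum_le_sum_abs _ _).trans (sum_le_sum fun k hk => ?_)
    rw [mem_range] at hb hi hk
    rw [abs_mul, abs_mul, abs_mul, abs_pow, abs_pow, abs_pow, abs_of_pos ha0]
    have h2 : ((cf3 (derivative F) k i b).natAbs : ℝ) = |((cf3 (derivative F) k i b : ℤ) : ℝ)| := by
      rw [Nat.cast_natAbs]
      push_cast
      rfl
    rw [h2]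
    refine mul_le_mul_of_nonneg_left ?_ (abs_nonneg _)
    have h3 : (a : ℝ) ^ k ≤ (a : ℝ) ^ m := pow_le_pow_right₀ ha1 (by omega)
    have h4 : |(x : ℝ)| ^ i * |(y : ℝ)| ^ b ≤ |(x : ℝ)| ^ n := by
      calc |(x : ℝ)| ^ i * |(y : ℝ)| ^ b ≤ |(x : ℝ)| ^ i * |(x : ℝ)| ^ b := by gcongr
        _ = |(x : ℝ)| ^ (i + b) := by rw [pow_add]
        _ ≤ |(x : ℝ)| ^ n := pow_le_pow_right₀ hx1 (by omega)
    rw [mul_assoc]
    exact mul_le_mul h3 h4 (by positivity) (by positivity)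
  refine hmain.trans ?_
  have hBa : (B : ℝ) ≤ (a : ℝ) ^ B := by
    have h1 : B ≤ 2 ^ B := Nat.lt_two_pow_self.le
    have h2 : 2 ^ B ≤ a ^ B := Nat.pow_le_pow_left ha B
    exact_mod_cast h1.trans h2
  calc (B : ℝ) * ((a : ℝ) ^ m * |(x : ℝ)| ^ n) ≤ (a : ℝ) ^ B * ((a : ℝ) ^ m * ((a : ℝ) ^ (j + 1)) ^ n) := by
        gcongr
    _ = (a : ℝ) ^ (B + m + (j + 1) * n) := by rw [← pow_mul, ← pow_add, ← pow_add, add_assoc]
    _ ≤ (a : ℝ) ^ (B + m + (j + 1) * n + 1) := pow_le_pow_right₀ ha1 (by omega)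

end Pool.Agent.H48.SX
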