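import Pool.Agent.H48.SX.Defs

/-!
# [H48 SX HNA] the formal solution of `h = -∑_{k ≤ n} e_k h^k` by iteration

PROOF. `T g = -∑_{k ≤ n} e_k g^k`, `s 0 = 0`, `s (N+1) = T (s N)` (`Nat.rec`). Say that `g, g'` agree up to `N` if `g_ν = g'_ν` for
`ν 0 + ν 1 ≤ N`. (1) If `g(0) = g'(0) = 0` and `g, g'` agree up to `N`, then `T g, T g'` agree up to `N + 1`: `T g - T g' = -∑ e_k (g^k - g'^k)`
and `e_k (g^k - g'^k) = (g - g') c_k` with `c_k(0) = 0` (`k = 0`: both sides `0`; `k = 1`: `c_1 = e_1`; `k ≥ 2`: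
`c_k = e_k ∑_{i<k} g^i g'^(k-1-i)`, `Commute.geom_sum₂_mul`; every summand contains `g` or `g'`); in
`coeff ν ((g - g') c) = ∑_{a + b = ν} (g - g')_a c_b` with `|ν| ≤ N + 1` every term is `0`: `|a| ≤ N`, or `b = 0`. (2) `(s N)(0) = 0`. (3) `s N` and
`s (N+1)` agree up to `N` (induction with (1); `N = 0` from (2)), so `s N, s M` agree up to `N` for `N ≤ M`. Put
`h ν = coeff ν (s (ν 0 + ν 1))`. Then `lim` and `cst` hold, `h` and `s N` agree up to `N`, so `T h` and `s (N+1)` agree up to `N + 1`, and so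
do `h` and `s (N + 1)`: `fix`.
-/

namespace Pool.Agent.H48.SX

open Finset Polynomial Pool.Agent.H37.TE Pool.Agent.H98.TE Pool.Agent.H4.TP Pool.Agent.H98.XG
open scoped ENNReal

private def Ag {R : Type*} [CommRing R] (N : ℕ) (f g : MvPowerSeries (Fin 2) R) : Prop :=
  ∀ ν : Fin 2 →₀ ℕ, ν 0 + ν 1 ≤ N → MvPowerSeries.coeff ν f = MvPowerSeries.coeff ν g

private theorem ag_trans {R : Type*} [CommRing R] {N : ℕ} {f g h : MvPowerSeries (Fin 2) R}
    (h1 : Ag N f g) (h2 : Ag N g h) : Ag N f h := fun ν hν => (h1 ν hν).trans (h2 ν hν)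

private theorem ag_mono {R : Type*} [CommRing R] {M N : ℕ} (hMN : M ≤ N)
    {f g : MvPowerSeries (Fin 2) R} (h : Ag N f g) : Ag M f g := fun ν hν => h ν (hν.trans hMN)

private theorem ag_zero {R : Type*} [CommRing R] {f g : MvPowerSeries (Fin 2) R}
    (h : MvPowerSeries.constantCoeff f = MvPowerSeries.constantCoeff g) : Ag 0 f g := by
  intro ν hν
  have h1 : ν = 0 := by
    ext i
    fin_cases i
    · show ν 0 = 0
      omega
    · show ν 1 = 0
      omega
  rw [h1, MvPowerSeries.coeff_zero_eq_constantCoeff_apply,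
    MvPowerSeries.coeff_zero_eq_constantCoeff_apply, h]

private theorem ag_mul {R : Type*} [CommRing R] {N : ℕ} {d c : MvPowerSeries (Fin 2) R}
    (hd : Ag N d 0) (hc : MvPowerSeries.constantCoeff c = 0) : Ag (N + 1) (d * c) 0 := by
  intro ν hν
  rw [MvPowerSeries.coeff_mul, map_zero]
  refine Finset.sum_eq_zero fun p hp => ?_
  have hp' := HasAntidiagonal.mem_antidiagonal.1 hp
  have e0 : p.1 0 + p.2 0 = ν 0 := by rw [← hp', Finsupp.add_apply]
  have e1 : p.1 1 + p.2 1 = ν 1 := by rw [← hp', Finsupp.add_apply]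
  by_cases h1 : p.1 0 + p.1 1 ≤ N
  · rw [hd p.1 h1, map_zero, zero_mul]
  · have h2 : p.2 = 0 := by
      ext i
      fin_cases i
      · show p.2 0 = 0
        omega
      · show p.2 1 = 0
        omega
    rw [h2, MvPowerSeries.coeff_zero_eq_constantCoeff_apply, hc, mul_zero]

private theorem ag_iter {R : Type*} [CommRing R] {n : ℕ} {e : ℕ → MvPowerSeries (Fin 2) R}
    (h1 : MvPowerSeries.constantCoeff (e 1) = 0) {N : ℕ} {g g' : MvPowerSeries (Fin 2) R}
    (hg : MvPowerSeries.constantCoeff g = 0) (hg' : MvPowerSeries.constantCoeff g' = 0)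
    (h : Ag N g g') :
    Ag (N + 1) (-∑ k ∈ range (n + 1), e k * g ^ k) (-∑ k ∈ range (n + 1), e k * g' ^ k) := by
  have hd : Ag N (g - g') 0 := fun ν hν => by
    rw [map_sub, h ν hν, sub_self, map_zero]
  have hk : ∀ k, Ag (N + 1) (e k * g ^ k - e k * g' ^ k) 0 := by
    intro k
    have e1 : e k * g ^ k - e k * g' ^ k =
        (g - g') * (e k * ∑ i ∈ range k, g ^ i * g' ^ (k - 1 - i)) := by
      have h2 := (Commute.all g g').geom_sum₂_mul k
      rw [← mul_sub, ← h2]
      ring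
    rw [e1]
    apply ag_mul hd
    rw [map_mul, map_sum]
    rcases Nat.lt_or_ge k 2 with hk2 | hk2
    · have h3 : k = 0 ∨ k = 1 := by omega
      rcases h3 with rfl | rfl
      · rw [range_zero, sum_empty, mul_zero]
      · rw [h1, zero_mul]
    · rw [Finset.sum_eq_zero, mul_zero]
      intro i hi
      rw [mem_range] at hi
      rw [map_mul, map_pow, map_pow, hg, hg']
      rcases Nat.eq_zero_or_pos i with h0 | h0
      · rw [zero_pow (n := k - 1 - i) (by omega), mul_zero]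
      · rw [zero_pow (n := i) (by omega), zero_mul]
  intro ν hν
  rw [map_neg, map_neg, neg_inj, ← sub_eq_zero, ← map_sub, ← Finset.sum_sub_distrib, map_sum]
  refine Finset.sum_eq_zero fun k _ => ?_
  rw [hk k ν hν, map_zero]

theorem it_exists {R : Type*} [CommRing R] (n : ℕ) (e : ℕ → MvPowerSeries (Fin 2) R)
    (h0 : MvPowerSeries.constantCoeff (e 0) = 0) (h1 : MvPowerSeries.constantCoeff (e 1) = 0) :
    ∃ h s, IsIt n e h s := by
  obtain ⟨s, hs0, hs1⟩ : ∃ s : ℕ → MvPowerSeries (Fin 2) R, s 0 = 0 ∧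
      ∀ N, s (N + 1) = -∑ k ∈ range (n + 1), e k * s N ^ k :=
    ⟨fun N => Nat.rec 0 (fun _ g => -∑ k ∈ range (n + 1), e k * g ^ k) N, rfl, fun _ => rfl⟩
  have hT : ∀ g : MvPowerSeries (Fin 2) R, MvPowerSeries.constantCoeff g = 0 →
      MvPowerSeries.constantCoeff (-∑ k ∈ range (n + 1), e k * g ^ k) = 0 := by
    intro g hg
    rw [map_neg, map_sum, neg_eq_zero]
    refine Finset.sum_eq_zero fun k _ => ?_
    rw [map_mul, map_pow, hg]
    rcases Nat.eq_zero_or_pos k with h2 | h2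
    · rw [h2, h0, zero_mul]
    · rw [zero_pow (by omega), mul_zero]
  have hc : ∀ N, MvPowerSeries.constantCoeff (s N) = 0 := by
    intro N
    induction N with
    | zero => rw [hs0, map_zero]
    | succ N ih =>
      rw [hs1]
      exact hT _ ih
  have hst : ∀ N, Ag N (s N) (s (N + 1)) := by
    intro N
    induction N with
    | zero => exact ag_zero (by rw [hc, hc])
    | succ N ih =>
      have h2 := ag_iter (n := n) h1 (hc N) (hc (N + 1)) ih
      rw [← hs1, ← hs1] at h2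
      exact h2
  have hst' : ∀ N j, Ag N (s N) (s (N + j)) := by
    intro N j
    induction j with
    | zero => exact fun _ _ => rfl
    | succ j ih => exact ag_trans ih (ag_mono (by omega) (hst (N + j)))
  obtain ⟨h, hh⟩ : ∃ h : MvPowerSeries (Fin 2) R, ∀ ν : Fin 2 →₀ ℕ,
      MvPowerSeries.coeff ν h = MvPowerSeries.coeff ν (s (ν 0 + ν 1)) :=
    ⟨fun ν => MvPowerSeries.coeff ν (s (ν 0 + ν 1)), fun _ => rfl⟩
  have hlim : ∀ N, Ag N h (s N) := by
    intro N ν hν
    obtain ⟨j, rfl⟩ := Nat.exists_eq_add_of_le hν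
    rw [hh]
    exact hst' _ _ ν le_rfl
  have hcst : MvPowerSeries.constantCoeff h = 0 := by
    rw [← MvPowerSeries.coeff_zero_eq_constantCoeff_apply, hlim 0 0 (by simp), hs0, map_zero]
  refine ⟨h, s, hs0, hs1, hlim, hcst, ?_⟩
  ext ν
  have h2 := ag_iter (n := n) h1 hcst (hc (ν 0 + ν 1)) (hlim (ν 0 + ν 1))
  rw [← hs1] at h2
  rw [h2 ν (by omega)]
  exact hlim (ν 0 + ν 1 + 1) ν (by omega)

end Pool.Agent.H48.SX
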