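import Pool.Agent.H48.SX.Nrm

/-!
# [H48 SX HNB] norm and denominators of the solution of `h = -∑ e_k h^k`

PROOF of `it_nrm`. `wn N ρ (s M) ≤ κ` by induction (`wn_isNrm`, `IsNrm.sum`, `IsNrm.pow`, `hk`). Then `wn N ρ h` is the supremum of the finite
sums (`ENNReal.tsum_eq_iSup_sum`, `iSup_le`): for a finite set `T` of exponents take `M ≥ ν 0 + ν 1` for all `ν ∈ T` (`T.sup`); on `T` the
coefficients of `h` are those of `s M` (`hi.lim`), so the sum is `≤ wn N ρ (s M) ≤ κ` (`ENNReal.sum_le_tsum`).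
PROOF of `it_int`. Let `S c` be the set of the series `f` such that for every `ν` there is `z` integral over `ℤ` with
`q^(2|ν|) f_ν = q^c z`. `S c` is closed under sums and negation, `S c * S d ⊆ S (c + d)` (`coeff_mul`, `|a| + |b| = |ν|`), so `f ∈ S 1` gives
`f^k ∈ S k`, and `S (c+1) ⊆ S c`. By induction `s M ∈ S 1`: it is enough that `e_k f^k ∈ S 1` for `f ∈ S 1`. `k = 0`: `e_0(0) = 0`, and for
`|ν| ≥ 1`: `q^(2|ν|) (e_0)_ν = q · q^(2|ν|-2) · (q (e_0)_ν)`. `k = 1`: `e_1 ∈ S 0` is clear for `ν = 0` (the coefficient is `0`) and for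
`|ν| ≥ 1`. `k ≥ 2`: `q^(2|ν|) (e_k f^k)_ν = ∑_{a+b=ν} (q^(2|a|) (e_k)_a) (q^k z_b) = q^(k-1) ∑ q^(2|a|) (q (e_k)_a) z_b`.
Finally `hi.lim` and `z` integral give the claim.
-/

namespace Pool.Agent.H48.SX

open Finset Polynomial Pool.Agent.H37.TE Pool.Agent.H98.TE Pool.Agent.H4.TP Pool.Agent.H98.XG
open scoped ENNReal

theorem it_nrm {R : Type*} [CommRing R] {n : ℕ} {e : ℕ → MvPowerSeries (Fin 2) R}
    {h : MvPowerSeries (Fin 2) R} {s : ℕ → MvPowerSeries (Fin 2) R} (hi : IsIt n e h s)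
    {N : R → ℝ≥0∞} (hN : IsNrm N) (ρ : Fin 2 → ℝ≥0∞) (κ : ℝ≥0∞)
    (hk : ∑ k ∈ range (n + 1), wn N ρ (e k) * κ ^ k ≤ κ) : wn N ρ h ≤ κ := by
  classical
  have hw := wn_isNrm hN ρ
  have h1 : ∀ M, wn N ρ (s M) ≤ κ := by
    intro M
    induction M with
    | zero =>
      rw [hi.s0, hw.zero]
      exact bot_le
    | succ M ih =>
      rw [hi.s1, hw.neg]
      refine (hw.sum _ _).trans (le_trans (Finset.sum_le_sum fun k _ => ?_) hk)
      refine (hw.mul _ _).trans ?_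
      gcongr
      exact (hw.pow _ _).trans (by gcongr)
  unfold wn
  rw [ENNReal.tsum_eq_iSup_sum]
  refine iSup_le fun T => ?_
  refine le_trans ?_ (h1 (T.sup fun ν => ν 0 + ν 1))
  unfold wn
  refine le_trans (le_of_eq ?_) (ENNReal.sum_le_tsum T)
  refine Finset.sum_congr rfl fun ν hν => ?_
  rw [hi.lim _ ν (Finset.le_sup (f := fun ν : Fin 2 →₀ ℕ => ν 0 + ν 1) hν)]

section Int

variable {K : Type*} [Field K] (q : ℕ)

/-- `q^(2|ν|) f_ν` is `q^c` times an integral element -/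
private def SS (c : ℕ) (f : MvPowerSeries (Fin 2) K) : Prop :=
  ∀ ν : Fin 2 →₀ ℕ, ∃ z : K, IsIntegral ℤ z ∧ (q : K) ^ (2 * (ν 0 + ν 1)) * MvPowerSeries.coeff ν f = (q : K) ^ c * z

private lemma q_int : IsIntegral ℤ (q : K) := by
  have h := isIntegral_algebraMap (R := ℤ) (A := K) (x := (q : ℤ))
  simpa using h

private lemma SS.neg {c : ℕ} {f : MvPowerSeries (Fin 2) K} (hf : SS q c f) : SS q c (-f) := by
  intro ν
  obtain ⟨z, hz, h⟩ := hf ν
  refine ⟨-z, hz.neg, ?_⟩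
  rw [map_neg, mul_neg, h, mul_neg]

private lemma SS.sum {c : ℕ} {ι : Type*} (s : Finset ι) (f : ι → MvPowerSeries (Fin 2) K)
    (hf : ∀ i ∈ s, SS q c (f i)) : SS q c (∑ i ∈ s, f i) := by
  classical
  intro ν
  choose! z hz h using fun i (hi : i ∈ s) => hf i hi ν
  refine ⟨∑ i ∈ s, z i, IsIntegral.sum _ fun i hi => hz i hi, ?_⟩
  rw [map_sum, Finset.mul_sum, Finset.mul_sum]
  exact Finset.sum_congr rfl fun i hi => h i hi

private lemma SS.le {c d : ℕ} (hcd : c ≤ d) {f : MvPowerSeries (Fin 2) K} (hf : SS q d f) : SS q c f := by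
  intro ν
  obtain ⟨z, hz, h⟩ := hf ν
  refine ⟨(q : K) ^ (d - c) * z, ((q_int q).pow _).mul hz, ?_⟩
  rw [h, ← mul_assoc, ← pow_add, Nat.add_sub_cancel' hcd]

private lemma SS.mul {c d : ℕ} {f g : MvPowerSeries (Fin 2) K} (hf : SS q c f) (hg : SS q d g) :
    SS q (c + d) (f * g) := by
  classical
  intro ν
  choose z hz h using hf
  choose z' hz' h' using hg
  refine ⟨∑ ab ∈ Finset.HasAntidiagonal.antidiagonal ν, z ab.1 * z' ab.2,
    IsIntegral.sum _ fun ab _ => (hz _).mul (hz' _), ?_⟩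
  rw [MvPowerSeries.coeff_mul, Finset.mul_sum, Finset.mul_sum]
  refine Finset.sum_congr rfl fun ab hab => ?_
  have h1 : ab.1 + ab.2 = ν := Finset.HasAntidiagonal.mem_antidiagonal.1 hab
  have h2 : (q : K) ^ (2 * (ν 0 + ν 1)) = (q : K) ^ (2 * (ab.1 0 + ab.1 1)) * (q : K) ^ (2 * (ab.2 0 + ab.2 1)) := by
    rw [← pow_add, ← h1]
    congr 1
    simp only [Finsupp.add_apply]
    ring
  rw [h2, pow_add]
  calc (q : K) ^ (2 * (ab.1 0 + ab.1 1)) * (q : K) ^ (2 * (ab.2 0 + ab.2 1)) *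
        (MvPowerSeries.coeff ab.1 f * MvPowerSeries.coeff ab.2 g)
      = ((q : K) ^ (2 * (ab.1 0 + ab.1 1)) * MvPowerSeries.coeff ab.1 f) *
        ((q : K) ^ (2 * (ab.2 0 + ab.2 1)) * MvPowerSeries.coeff ab.2 g) := by ring
    _ = _ := by rw [h, h']; ring

private lemma SS.mul' {d : ℕ} {f g : MvPowerSeries (Fin 2) K}
    (hf : ∀ ν, IsIntegral ℤ ((q : K) * MvPowerSeries.coeff ν f)) (hg : SS q (d + 1) g) :
    SS q d (f * g) := by
  classical
  intro ν
  choose z' hz' h' using hg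
  refine ⟨∑ ab ∈ Finset.HasAntidiagonal.antidiagonal ν, (q : K) ^ (2 * (ab.1 0 + ab.1 1)) *
    ((q : K) * MvPowerSeries.coeff ab.1 f) * z' ab.2,
    IsIntegral.sum _ fun ab _ => (((q_int q).pow _).mul (hf _)).mul (hz' _), ?_⟩
  rw [MvPowerSeries.coeff_mul, Finset.mul_sum, Finset.mul_sum]
  refine Finset.sum_congr rfl fun ab hab => ?_
  have h1 : ab.1 + ab.2 = ν := Finset.HasAntidiagonal.mem_antidiagonal.1 hab
  have h2 : (q : K) ^ (2 * (ν 0 + ν 1)) = (q : K) ^ (2 * (ab.1 0 + ab.1 1)) * (q : K) ^ (2 * (ab.2 0 + ab.2 1)) := by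
    rw [← pow_add, ← h1]
    congr 1
    simp only [Finsupp.add_apply]
    ring
  rw [h2]
  calc (q : K) ^ (2 * (ab.1 0 + ab.1 1)) * (q : K) ^ (2 * (ab.2 0 + ab.2 1)) *
        (MvPowerSeries.coeff ab.1 f * MvPowerSeries.coeff ab.2 g)
      = ((q : K) ^ (2 * (ab.1 0 + ab.1 1)) * MvPowerSeries.coeff ab.1 f) *
        ((q : K) ^ (2 * (ab.2 0 + ab.2 1)) * MvPowerSeries.coeff ab.2 g) := by ring
    _ = _ := by rw [h']; ring

private lemma SS.one : SS q 0 (1 : MvPowerSeries (Fin 2) K) := by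
  classical
  intro ν
  rw [MvPowerSeries.coeff_one]
  split_ifs with h
  · refine ⟨1, isIntegral_one, ?_⟩
    rw [h]
    simp
  · refine ⟨0, isIntegral_zero, ?_⟩
    simp

private lemma SS.pow {f : MvPowerSeries (Fin 2) K} (hf : SS q 1 f) (k : ℕ) : SS q k (f ^ k) := by
  induction k with
  | zero =>
    rw [pow_zero]
    exact SS.one q
  | succ k ih =>
    rw [pow_succ]
    exact ih.mul q hf

private lemma SS.of_cst {e : MvPowerSeries (Fin 2) K} (he : MvPowerSeries.constantCoeff e = 0)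
    (hf : ∀ ν, IsIntegral ℤ ((q : K) * MvPowerSeries.coeff ν e)) : SS q 1 e := by
  intro ν
  rcases Nat.eq_zero_or_pos (ν 0 + ν 1) with h | h
  · have h0 : ν = 0 := by
      ext i
      fin_cases i
      · change ν 0 = 0
        omega
      · change ν 1 = 0
        omega
    refine ⟨0, isIntegral_zero, ?_⟩
    rw [h0, MvPowerSeries.coeff_zero_eq_constantCoeff_apply, he]
    simp
  · refine ⟨(q : K) ^ (2 * (ν 0 + ν 1) - 2) * ((q : K) * MvPowerSeries.coeff ν e),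
      ((q_int q).pow _).mul (hf ν), ?_⟩
    have h2 : (q : K) ^ (2 * (ν 0 + ν 1)) = (q : K) ^ (2 * (ν 0 + ν 1) - 2) * (q : K) * (q : K) := by
      rw [← pow_succ, ← pow_succ]
      congr 1
      omega
    rw [h2]
    ring

end Int

theorem it_int {K : Type*} [Field K] {n : ℕ} {e : ℕ → MvPowerSeries (Fin 2) K}
    {h : MvPowerSeries (Fin 2) K} {s : ℕ → MvPowerSeries (Fin 2) K} (hi : IsIt n e h s) (q : ℕ)
    (he0 : MvPowerSeries.constantCoeff (e 0) = 0) (he1 : MvPowerSeries.constantCoeff (e 1) = 0)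
    (hint : ∀ k ≤ n, ∀ ν : Fin 2 →₀ ℕ, IsIntegral ℤ ((q : K) * MvPowerSeries.coeff ν (e k))) :
    ∀ ν : Fin 2 →₀ ℕ, IsIntegral ℤ ((q : K) ^ (2 * (ν 0 + ν 1)) * MvPowerSeries.coeff ν h) := by
  have h1 : ∀ M, SS q 1 (s M) := by
    intro M
    induction M with
    | zero =>
      rw [hi.s0]
      intro ν
      exact ⟨0, isIntegral_zero, by simp⟩
    | succ M ih =>
      rw [hi.s1]
      refine SS.neg q (SS.sum q _ _ fun k hk => ?_)
      have hk' : k ≤ n := by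
        have := Finset.mem_range.1 hk
        omega
      rcases k with _ | _ | k
      · rw [pow_zero, mul_one]
        exact SS.of_cst q he0 (hint 0 hk')
      · have h2 := (SS.of_cst q he1 (hint 1 hk')).mul q ((ih.pow q 1))
        exact h2.le q (by omega)
      · have h2 := SS.mul' q (d := k + 1) (hint (k + 2) hk') (ih.pow q (k + 2))
        exact h2.le q (by omega)
  intro ν
  obtain ⟨z, hz, h2⟩ := h1 (ν 0 + ν 1) ν
  rw [hi.lim _ ν le_rfl, h2]
  exact ((q_int q).pow _).mul hz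

end Pool.Agent.H48.SX
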