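import Pool.Agent.H48.SX.Hna
import Pool.Agent.H48.SX.Hnb

/-!
# [H48 SX INV] the norms of `a + X_i` and `1/(a + X_i)`

PROOF. `iv_mul`: `MvPowerSeries.mul_inv_cancel` (constant coefficient `a ≠ 0`). `iv_cc`: `MvPowerSeries.constantCoeff_inv`. `ax_nrm`: `wn_isNrm en_isNrm w`,
`wn_C`, `wn_X`: `|a| + |a|/2`. `iv_nrm`: `it_exists 1 e` with `e 0 = C (a⁻¹ a⁻¹) X_i`, `e k = C (a⁻¹) X_i` for `k ≥ 1`, gives `h` with
`h = -(e_0 + e_1 h)`, so `(C a + X_i)(C a⁻¹ + h) = 1` (`C a · h = -C a⁻¹ X_i - X_i h`) and `iv i a = C a⁻¹ + h` (the inverse is unique). `it_nrm` with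
`κ = |a|⁻¹`: `wn e_0 + wn e_1 κ ≤ |a|^(-2) |a|/2 + |a|⁻¹ (|a|/2) |a|⁻¹ = |a|⁻¹`. So `wn (iv i a) ≤ |a|⁻¹ + |a|⁻¹`.
`cvg_iv`: `w0, w1` by `a, x ≠ 0`; `iv_nrm` for `i = 0, 1` and monotonicity of `ENNReal.ofReal`.
-/

namespace Pool.Agent.H48.SX

open Finset Polynomial Pool.Agent.H37.TE Pool.Agent.H98.TE Pool.Agent.H4.TP Pool.Agent.H98.XG
open scoped ENNReal

private theorem inv_en (x : ℝ) : en x = ENNReal.ofReal |x| := by
  rw [en, ← ofReal_norm, Real.norm_eq_abs]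

theorem iv_mul (i : Fin 2) {a : ℝ} (ha : a ≠ 0) :
    (MvPowerSeries.C a + MvPowerSeries.X i) * iv i a = 1 := by
  apply MvPowerSeries.mul_inv_cancel
  rw [map_add, MvPowerSeries.constantCoeff_C, MvPowerSeries.constantCoeff_X, add_zero]
  exact ha

theorem iv_cc (i : Fin 2) (a : ℝ) : MvPowerSeries.constantCoeff (iv i a) = 1 / a := by
  rw [iv, MvPowerSeries.constantCoeff_inv, map_add, MvPowerSeries.constantCoeff_C,
    MvPowerSeries.constantCoeff_X, add_zero, one_div]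

theorem ax_nrm (i : Fin 2) (a : ℝ) (w : Fin 2 → ℝ≥0∞) (hw : w i = ENNReal.ofReal (|a| / 2)) :
    wn en w (MvPowerSeries.C a + MvPowerSeries.X i) ≤ ENNReal.ofReal (3 / 2 * |a|) := by
  refine ((wn_isNrm en_isNrm w).add _ _).trans ?_
  rw [wn_C en_isNrm w a, inv_en]
  refine (add_le_add le_rfl (wn_X en_isNrm w i)).trans ?_
  rw [hw, ← ENNReal.ofReal_add (abs_nonneg a) (by positivity)]
  apply ENNReal.ofReal_le_ofReal
  linarith

theorem iv_nrm (i : Fin 2) {a : ℝ} (ha : a ≠ 0) (w : Fin 2 → ℝ≥0∞)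
    (hw : w i = ENNReal.ofReal (|a| / 2)) : wn en w (iv i a) ≤ ENNReal.ofReal (2 / |a|) := by
  have ha' : 0 < |a| := abs_pos.2 ha
  set e : ℕ → MvPowerSeries (Fin 2) ℝ := fun k =>
    if k = 0 then MvPowerSeries.C (a⁻¹ * a⁻¹) * MvPowerSeries.X i
    else MvPowerSeries.C a⁻¹ * MvPowerSeries.X i with he
  have he0 : e 0 = MvPowerSeries.C (a⁻¹ * a⁻¹) * MvPowerSeries.X i := by simp [he]
  have he1 : e 1 = MvPowerSeries.C a⁻¹ * MvPowerSeries.X i := by simp [he]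
  obtain ⟨h, s, hi⟩ := it_exists 1 e (by rw [he0]; simp) (by rw [he1]; simp)
  have hfix : h = -(MvPowerSeries.C (a⁻¹ * a⁻¹) * MvPowerSeries.X i +
      MvPowerSeries.C a⁻¹ * MvPowerSeries.X i * h) := by
    have h1 := hi.fix
    rw [sum_range_succ, sum_range_one, he0, he1, pow_zero, pow_one, mul_one] at h1
    exact h1
  have hCa : (MvPowerSeries.C a : MvPowerSeries (Fin 2) ℝ) * MvPowerSeries.C a⁻¹ = 1 := by
    rw [← map_mul, mul_inv_cancel₀ ha, map_one]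
  have hC2 : (MvPowerSeries.C (a⁻¹ * a⁻¹) : MvPowerSeries (Fin 2) ℝ) =
      MvPowerSeries.C a⁻¹ * MvPowerSeries.C a⁻¹ := map_mul _ _ _
  have hinv : (MvPowerSeries.C a + MvPowerSeries.X i) * (MvPowerSeries.C a⁻¹ + h) = 1 := by
    rw [hC2] at hfix
    linear_combination (1 - MvPowerSeries.X i * MvPowerSeries.C a⁻¹ - MvPowerSeries.X i * h) * hCa +
      MvPowerSeries.C a * hfix
  have hiv : iv i a = MvPowerSeries.C a⁻¹ + h := by
    have h1 := iv_mul i ha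
    linear_combination (MvPowerSeries.C a⁻¹ + h) * h1 - iv i a * hinv
  have hwX : wn en w (MvPowerSeries.X i) ≤ ENNReal.ofReal (|a| / 2) := by
    rw [← hw]
    exact wn_X en_isNrm w i
  have hb0 : wn en w (e 0) ≤ ENNReal.ofReal (|a|⁻¹ / 2) := by
    rw [he0]
    refine ((wn_isNrm en_isNrm w).mul _ _).trans ?_
    rw [wn_C en_isNrm w, inv_en]
    refine (mul_le_mul' le_rfl hwX).trans ?_
    rw [← ENNReal.ofReal_mul (abs_nonneg _), abs_mul, abs_inv]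
    apply le_of_eq
    congr 1
    field_simp
  have hb1 : wn en w (e 1) ≤ ENNReal.ofReal (1 / 2) := by
    rw [he1]
    refine ((wn_isNrm en_isNrm w).mul _ _).trans ?_
    rw [wn_C en_isNrm w, inv_en]
    refine (mul_le_mul' le_rfl hwX).trans ?_
    rw [← ENNReal.ofReal_mul (abs_nonneg _), abs_inv]
    apply le_of_eq
    congr 1
    field_simp
  have hh : wn en w h ≤ ENNReal.ofReal |a|⁻¹ := by
    apply it_nrm hi en_isNrm w
    rw [sum_range_succ, sum_range_one, pow_zero, pow_one, mul_one]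
    refine (add_le_add hb0 (mul_le_mul' hb1 le_rfl)).trans ?_
    rw [← ENNReal.ofReal_mul (by norm_num), ← ENNReal.ofReal_add (by positivity) (by positivity)]
    apply le_of_eq
    congr 1
    ring
  rw [hiv]
  refine ((wn_isNrm en_isNrm w).add _ _).trans ?_
  rw [wn_C en_isNrm w, inv_en]
  refine (add_le_add le_rfl hh).trans ?_
  rw [abs_inv, ← ENNReal.ofReal_add (by positivity) (by positivity)]
  apply le_of_eq
  congr 1
  ring

theorem cvg_iv {a x : ℝ} (ha : a ≠ 0) (hx : x ≠ 0) : Cvg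
    ![ENNReal.ofReal (2 / |a|), ENNReal.ofReal (2 / |x|)]
    ![ENNReal.ofReal (|a| / 2), ENNReal.ofReal (|x| / 2)] (iv 0 a) (iv 1 x) := by
  have ha' : 0 < |a| := abs_pos.2 ha
  have hx' : 0 < |x| := abs_pos.2 hx
  refine ⟨?_, ?_, iv_nrm 0 ha _ rfl, iv_nrm 1 hx _ rfl⟩
  · rw [Fin.forall_fin_two]
    exact ⟨(ENNReal.ofReal_pos.2 (half_pos ha')).ne', (ENNReal.ofReal_pos.2 (half_pos hx')).ne'⟩
  · rw [Fin.forall_fin_two]
    exact ⟨ENNReal.ofReal_ne_top, ENNReal.ofReal_ne_top⟩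

end Pool.Agent.H48.SX
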