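import Pool.Agent.H48.SX.Ewb
import Pool.Agent.H48.SX.Inv

/-!
# [H48 SX IDT] the sum `Sm` as a coefficient of a series in the functions `Av`

PROOF. `U = iv 0 a₁`, `V = iv 1 x₁`, `f = Φσ`. For `l = (i, b, k)`: `i < I₁`, `k + b ≤ M₁` (`k < M₁ + 1 - b`), so with `(C a₁ + X 0) U = 1`, `(C x₁ + X 1) V = 1` (`iv_mul`):
`(C a₁ + X 0)^i (C x₁ + X 1)^k ((C x₁ + X 1) Ew f)^b = (C a₁ + X 0)^I₁ (C x₁ + X 1)^M₁ U^(I₁-i) V^(M₁-k-b) (Ew f)^b = (C a₁ + X 0)^I₁ (C x₁ + X 1)^M₁ Ew (Av f l)`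
(`ew_av` with the constant weights `ρ`; `hcv`), and `tau` is its coefficient (the cast to `ℝ` is the coefficient of the mapped series, `MvPowerSeries.coeff_map`,
`map_mul, map_pow`, `MvPowerSeries.map_C, map_X`, `hY`). Similarly `mv = a₂^i' x₂^k' (x₂ ev2 f)^b' = a₂^I₂ x₂^M₂ (1/a₂)^(I₂-i') (1/x₂)^(M₂-k'-b') (ev2 f)^b' =
a₂^I₂ x₂^M₂ ev2 (Av f l')` (`ev2_av`). Sum up (`Rat.cast_sum`, `coeff` is linear, `MvPowerSeries.coeff_C_mul`, `Finset.mul_sum`).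
-/

namespace Pool.Agent.H48.SX

open Finset Polynomial Pool.Agent.H37.TE Pool.Agent.H98.TE Pool.Agent.H4.TP Pool.Agent.H98.XG
open scoped ENNReal

private theorem idt_alg {R : Type*} [CommRing R] (A U B V E : R) (hA : A * U = 1) (hB : B * V = 1)
    {i k b I M : ℕ} (hi : i ≤ I) (hk : k + b ≤ M) :
    A ^ i * B ^ k * (B * E) ^ b = A ^ I * B ^ M * (U ^ (I - i) * V ^ (M - k - b) * E ^ b) := by
  obtain ⟨p, rfl⟩ := Nat.exists_eq_add_of_le hi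
  obtain ⟨r, rfl⟩ := Nat.exists_eq_add_of_le hk
  have h1 : i + p - i = p := by omega
  have h2 : k + b + r - k - b = r := by omega
  rw [h1, h2]
  have h3 : A ^ (i + p) * B ^ (k + b + r) * (U ^ p * V ^ r * E ^ b) =
      A ^ i * B ^ k * (B * E) ^ b * ((A * U) ^ p * (B * V) ^ r) := by ring
  rw [h3, hA, hB, one_pow, one_pow, mul_one, mul_one]

theorem idt {f : MvPowerSeries (Fin 2) ℝ} {ρ : ℝ}
    (hf : wn en (fun _ => ENNReal.ofReal ρ) f ≠ ⊤) {a₁ a₂ : ℕ} {x₁ x₂ y₂ : ℤ} (ha₁ : a₁ ≠ 0)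
    (hx₁ : x₁ ≠ 0) (ha₂ : a₂ ≠ 0) (hx₂ : x₂ ≠ 0) (e1 : 2 / (a₁ : ℝ) ≤ ρ)
    (e2 : 2 / |(x₁ : ℝ)| ≤ ρ) (e3 : 1 / (a₂ : ℝ) ≤ ρ) (e4 : 1 / |(x₂ : ℝ)| ≤ ρ)
    {Y₁ : MvPowerSeries (Fin 2) ℚ}
    (hY : MvPowerSeries.map (algebraMap ℚ ℝ) Y₁ = (MvPowerSeries.C (x₁ : ℝ) + MvPowerSeries.X 1) *
      Ew (iv 0 a₁) (iv 1 x₁) f)
    (hy : (y₂ : ℝ) = x₂ * ev2 (1 / a₂) (1 / x₂) f)
    {I₁ M₁ I₂ M₂ n : ℕ} (c : Lam I₁ n M₁ → Lam I₂ n M₂ → ℤ) (ν : Fin 2 →₀ ℕ) :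
    ((Sm c Y₁ a₁ x₁ a₂ x₂ y₂ ν : ℚ) : ℝ) = (a₂ : ℝ) ^ I₂ * (x₂ : ℝ) ^ M₂ *
      MvPowerSeries.coeff ν ((MvPowerSeries.C (a₁ : ℝ) + MvPowerSeries.X 0) ^ I₁ *
        (MvPowerSeries.C (x₁ : ℝ) + MvPowerSeries.X 1) ^ M₁ *
        ∑ l : Lam I₁ n M₁, ∑ l' : Lam I₂ n M₂,
          MvPowerSeries.C (((c l l' : ℤ) : ℝ) * ev2 (1 / a₂) (1 / x₂) (Av f l')) *
            Ew (iv 0 a₁) (iv 1 x₁) (Av f l)) := by
  classical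
  obtain ⟨r, hr⟩ : ∃ r : Fin 2 → ℝ≥0∞, r = fun _ => ENNReal.ofReal ρ := ⟨_, rfl⟩
  have hr1 : ∀ i, r i ≠ ⊤ := by
    intro i
    rw [hr]
    exact ENNReal.ofReal_ne_top
  have hr2 : ∀ i, r i = ENNReal.ofReal ρ := by
    intro i
    rw [hr]
  rw [← hr] at hf
  have ha₁' : (a₁ : ℝ) ≠ 0 := by exact_mod_cast ha₁
  have hx₁' : (x₁ : ℝ) ≠ 0 := by exact_mod_cast hx₁
  have ha₂' : (a₂ : ℝ) ≠ 0 := by exact_mod_cast ha₂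
  have hx₂' : (x₂ : ℝ) ≠ 0 := by exact_mod_cast hx₂
  have habs₁ : |(a₁ : ℝ)| = a₁ := abs_of_nonneg (by positivity)
  have habs₂ : |(a₂ : ℝ)| = a₂ := abs_of_nonneg (by positivity)
  obtain ⟨w, hw⟩ : ∃ w : Fin 2 → ℝ≥0∞, w = ![ENNReal.ofReal (|(a₁ : ℝ)| / 2),
    ENNReal.ofReal (|(x₁ : ℝ)| / 2)] := ⟨_, rfl⟩
  have hcv : Cvg r w (iv 0 a₁) (iv 1 x₁) := by
    have h := cvg_iv ha₁' hx₁'
    rw [← hw] at h
    refine ⟨h.w0, h.w1, h.hU.trans ?_, h.hV.trans ?_⟩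
    · rw [hr2]
      change ENNReal.ofReal (2 / |(a₁ : ℝ)|) ≤ _
      rw [habs₁]
      exact ENNReal.ofReal_le_ofReal e1
    · rw [hr2]
      change ENNReal.ofReal (2 / |(x₁ : ℝ)|) ≤ _
      exact ENNReal.ofReal_le_ofReal e2
  have hu : ‖(1 / a₂ : ℝ)‖ₑ ≤ r 0 := by
    rw [hr2, Real.enorm_eq_ofReal_abs, abs_div, abs_one, habs₂]
    exact ENNReal.ofReal_le_ofReal e3
  have hv : ‖(1 / x₂ : ℝ)‖ₑ ≤ r 1 := by
    rw [hr2, Real.enorm_eq_ofReal_abs, abs_div, abs_one]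
    exact ENNReal.ofReal_le_ofReal e4
  have htau : ∀ l : Lam I₁ n M₁, ((tau Y₁ a₁ x₁ l ν : ℚ) : ℝ) =
      MvPowerSeries.coeff ν ((MvPowerSeries.C (a₁ : ℝ) + MvPowerSeries.X 0) ^ I₁ *
        (MvPowerSeries.C (x₁ : ℝ) + MvPowerSeries.X 1) ^ M₁ *
        Ew (iv 0 a₁) (iv 1 x₁) (Av f l)) := by
    intro l
    have h1 : ((tau Y₁ a₁ x₁ l ν : ℚ) : ℝ) = MvPowerSeries.coeff ν
        ((MvPowerSeries.C (a₁ : ℝ) + MvPowerSeries.X 0) ^ (l.1 : ℕ) *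
        (MvPowerSeries.C (x₁ : ℝ) + MvPowerSeries.X 1) ^ (l.2.2 : ℕ) *
        (MvPowerSeries.map (algebraMap ℚ ℝ) Y₁) ^ (l.2.1 : ℕ)) := by
      unfold tau
      rw [← eq_ratCast (algebraMap ℚ ℝ), ← MvPowerSeries.coeff_map]
      refine congrArg (fun z => MvPowerSeries.coeff ν z) ?_
      rw [map_mul, map_mul, map_pow, map_pow, map_pow, map_add, map_add, MvPowerSeries.map_X,
        MvPowerSeries.map_X, MvPowerSeries.map_C, MvPowerSeries.map_C, map_natCast, map_intCast]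
    rw [h1, hY, ew_av hcv hr1 hf]
    rw [idt_alg (MvPowerSeries.C (a₁ : ℝ) + MvPowerSeries.X 0) (iv 0 a₁)
      (MvPowerSeries.C (x₁ : ℝ) + MvPowerSeries.X 1) (iv 1 x₁) (Ew (iv 0 a₁) (iv 1 x₁) f)
      (iv_mul 0 ha₁') (iv_mul 1 hx₁') (I := I₁) (M := M₁) l.1.2.le (by
        have h2 := l.2.2.2
        have h3 := l.2.1.2
        omega)]
  have hmv : ∀ l : Lam I₂ n M₂, ((mv a₂ x₂ y₂ l : ℤ) : ℝ) = (a₂ : ℝ) ^ I₂ * (x₂ : ℝ) ^ M₂ *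
      ev2 (1 / a₂) (1 / x₂) (Av f l) := by
    intro l
    rw [ev2_av hu hv hr1 hf]
    have h1 : ((mv a₂ x₂ y₂ l : ℤ) : ℝ) = (a₂ : ℝ) ^ (l.1 : ℕ) * (x₂ : ℝ) ^ (l.2.2 : ℕ) *
        (y₂ : ℝ) ^ (l.2.1 : ℕ) := by
      unfold mv
      push_cast
      rfl
    rw [h1, hy]
    exact idt_alg (a₂ : ℝ) (1 / a₂) (x₂ : ℝ) (1 / x₂) (ev2 (1 / a₂) (1 / x₂) f)
      (mul_one_div_cancel ha₂') (mul_one_div_cancel hx₂') (I := I₂) (M := M₂) l.1.2.le (by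
        have h2 := l.2.2.2
        have h3 := l.2.1.2
        omega)
  unfold Sm
  rw [Rat.cast_sum, mul_sum, map_sum, mul_sum]
  refine sum_congr rfl fun l _ => ?_
  rw [Rat.cast_sum, mul_sum, map_sum, mul_sum]
  refine sum_congr rfl fun l' _ => ?_
  have h1 : ∀ (P E : MvPowerSeries (Fin 2) ℝ) (z : ℝ), P * (MvPowerSeries.C z * E) =
      MvPowerSeries.C z * (P * E) := fun P E z => by ring
  rw [h1, MvPowerSeries.coeff_C_mul, ← htau l, Rat.cast_mul, Rat.cast_mul, Rat.cast_intCast,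
    Rat.cast_intCast, hmv l']
  ring

end Pool.Agent.H48.SX
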