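import Pool.Agent.H48.SX.Defs
import Pool.Agent.H98.TE.SWP

/-!
# [H48 SX PKF] the polynomial `pk` in commutative rings

PROOF. `pk_map, dk_map`: unfold, `map_sum, map_mul, map_pow, map_intCast`. `pk_sub`: termwise `z^b - z'^b = (∑_{i<b} z^i z'^(b-1-i)) (z - z')`
(`Commute.geom_sum₂_mul`). `pk_ev`: `ev3_sum H` (file `H98/TE/FAM`) and termwise: for `a + b ≤ n`, `j ≤ m`:
`u^m w^n t^j x^a y^b = u^(m-j) (u t)^j w^(n-a-b) (x w)^a (y w)^b`.
`pk_zero`: in `pb n m F b 0 0` only `j = m`, `a = n - b` survive (`0^0 = 1`), it is `cf3 F m (n-b) b`, the coefficient of `topq n m F`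
(`Polynomial.map_sum`, `eval_finsetSum`; see `PK_zero` in `Pool/Agent/H4/SX/PKE.lean`). `dk_zero`: the same with
`∑_{i<b} g^i g^(b-1-i) = b g^(b-1)`.
-/

namespace Pool.Agent.H48.SX

open Finset Polynomial Pool.Agent.H37.TE Pool.Agent.H98.TE Pool.Agent.H4.TP Pool.Agent.H98.XG
open scoped ENNReal

theorem pb_map {A B : Type*} [CommRing A] [CommRing B] (φ : A →+* B) (n m : ℕ) (F : ℤ[X][X][X])
    (b : ℕ) (u w : A) : φ (pb n m F b u w) = pb n m F b (φ u) (φ w) := by
  simp only [pb, map_sum, map_mul, map_pow, map_intCast]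

theorem pk_map {A B : Type*} [CommRing A] [CommRing B] (φ : A →+* B) (n m : ℕ) (F : ℤ[X][X][X])
    (u w z : A) : φ (pk n m F u w z) = pk n m F (φ u) (φ w) (φ z) := by
  simp only [pk, map_sum, map_mul, map_pow, pb_map]

theorem dk_map {A B : Type*} [CommRing A] [CommRing B] (φ : A →+* B) (n m : ℕ) (F : ℤ[X][X][X])
    (u w z z' : A) : φ (dk n m F u w z z') = dk n m F (φ u) (φ w) (φ z) (φ z') := by
  simp only [dk, map_sum, map_mul, map_pow, pb_map]

theorem pk_sub {A : Type*} [CommRing A] (n m : ℕ) (F : ℤ[X][X][X]) (u w z z' : A) :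
    pk n m F u w z - pk n m F u w z' = dk n m F u w z z' * (z - z') := by
  unfold pk dk
  rw [← sum_sub_distrib, sum_mul]
  refine sum_congr rfl fun b _ => ?_
  rw [mul_assoc, (Commute.all z z').geom_sum₂_mul, mul_sub]

theorem pk_ev {A : Type*} [CommRing A] {n m : ℕ} {F : ℤ[X][X][X]} (H : DegF n m F)
    {t u x w : A} (y : A) (h1 : t * u = 1) (h2 : x * w = 1) :
    pk n m F u w (y * w) = u ^ m * w ^ n * ev3 t x y F := by
  rw [Pool.Agent.H98.TE.ev3_sum H, mul_sum]
  unfold pk
  refine sum_congr rfl fun b hb => ?_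
  rw [mem_range, Nat.lt_succ_iff] at hb
  unfold pb
  rw [mul_sum, sum_mul]
  refine sum_congr rfl fun a ha => ?_
  rw [mem_range] at ha
  rw [mul_sum, sum_mul]
  refine sum_congr rfl fun j hj => ?_
  rw [mem_range, Nat.lt_succ_iff] at hj
  obtain ⟨m', hm'⟩ : ∃ m', m = j + m' := ⟨m - j, by omega⟩
  obtain ⟨n', hn'⟩ : ∃ n', n = a + b + n' := ⟨n - a - b, by omega⟩
  have e1 : m - j = m' := by omega
  have e2 : n - a - b = n' := by omega
  rw [e1, e2, hm', hn']
  have hj1 : u ^ j * t ^ j = 1 := by rw [← mul_pow, mul_comm u t, h1, one_pow]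
  have ha1 : w ^ a * x ^ a = 1 := by rw [← mul_pow, mul_comm w x, h2, one_pow]
  rw [pow_add u, pow_add w, pow_add w, mul_pow]
  linear_combination (-(((cf3 F j a b : ℤ) : A) * u ^ m' * w ^ n' * w ^ b * y ^ b) *
    (w ^ a * x ^ a)) * hj1 - (((cf3 F j a b : ℤ) : A) * u ^ m' * w ^ n' * w ^ b * y ^ b) * ha1

private theorem pb_zero {K : Type*} [Field K] {n m : ℕ} (F : ℤ[X][X][X]) {b : ℕ} (hb : b ≤ n) :
    pb n m F b (0 : K) 0 = ((cf3 F m (n - b) b : ℤ) : K) := by
  unfold pb
  rw [sum_eq_single (n - b)]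
  · rw [sum_eq_single m]
    · have h1 : n - (n - b) - b = 0 := by omega
      rw [h1, Nat.sub_self, pow_zero, mul_one, mul_one]
    · intro j hj hjm
      rw [mem_range] at hj
      have h1 : m - j ≠ 0 := by omega
      rw [zero_pow h1, zero_mul, mul_zero]
    · intro h
      exact absurd (mem_range.2 (Nat.lt_succ_self m)) h
  · intro a ha hab
    rw [mem_range] at ha
    have h1 : n - a - b ≠ 0 := by omega
    refine sum_eq_zero fun j _ => ?_
    rw [zero_pow h1, mul_zero, mul_zero]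
  · intro h
    exact absurd (mem_range.2 (by omega)) h

theorem pk_zero {K : Type*} [Field K] [CharZero K] (n m : ℕ) (F : ℤ[X][X][X]) (g : K) :
    pk n m F 0 0 g = ((topq n m F).map (algebraMap ℚ K)).eval g := by
  unfold pk topq
  rw [Polynomial.map_sum, eval_finsetSum]
  refine sum_congr rfl fun b hb => ?_
  rw [mem_range, Nat.lt_succ_iff] at hb
  rw [Polynomial.map_mul, Polynomial.map_pow, Polynomial.map_X, Polynomial.map_C, eval_mul, eval_C,
    eval_pow, eval_X, pb_zero F hb, map_intCast]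

theorem dk_zero {K : Type*} [Field K] [CharZero K] (n m : ℕ) (F : ℤ[X][X][X]) (g : K) :
    dk n m F 0 0 g g = ((topq n m F).map (algebraMap ℚ K)).derivative.eval g := by
  unfold dk topq
  rw [Polynomial.map_sum, derivative_sum, eval_finsetSum]
  refine sum_congr rfl fun b hb => ?_
  rw [mem_range, Nat.lt_succ_iff] at hb
  rw [Polynomial.map_mul, Polynomial.map_pow, Polynomial.map_X, Polynomial.map_C,
    derivative_C_mul_X_pow, eval_mul, eval_C, eval_pow, eval_X, pb_zero F hb, map_intCast]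
  have h1 : ∑ i ∈ range b, g ^ i * g ^ (b - 1 - i) = (b : K) * g ^ (b - 1) := by
    have h2 : ∀ i ∈ range b, g ^ i * g ^ (b - 1 - i) = g ^ (b - 1) := by
      intro i hi
      rw [mem_range] at hi
      rw [← pow_add]
      congr 1
      omega
    rw [sum_congr rfl h2, sum_const, card_range, nsmul_eq_mul]
  rw [h1]
  ring

end Pool.Agent.H48.SX
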