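import Pool.Agent.H48.SX.Ewb
import Pool.Agent.H48.SX.Pkf
import Pool.Agent.H48.SX.Inv
import Pool.Agent.H48.SX.Dkn
import Pool.Agent.H48.SX.Evn

/-!
# [H48 SX LCL] near `θ` the point lies on the branch `Φ`, and its expansion is the one given by `Φ`

PROOF. `Φσ = map σ Φ`, constant coefficient `θ`, `wn en ρ Φσ ≤ ofReal κ` (`wn_map`, `h.nrm`), `pk (X 0) (X 1) Φσ = 0` (`pk_map` for `MvPowerSeries.map σ`, `h.root`).
`c0` from `dk_ne`. Put `c1 = c0` and choose `δ > 0`, `δ ≤ c0`, `δ ≤ ρ/2`, `δ/ρ κ ≤ c0`, and `A0` with `1/A0 ≤ δ^Q`, `A0 ≥ 1`, `1/A0 ≤ δ`. For a point in `Near` with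
`A0 ≤ a`: `|x|^Q ≥ a^j ≥ a` (`j ≥ 1`), so `x ≠ 0`, `(1/|x|)^Q ≤ 1/a ≤ δ^Q`, `1/|x| ≤ δ` and `1/a ≤ δ`. Put `u = 1/a`, `v = 1/x`, `z' = ev2 u v Φσ`.
(1) `pk u v z' = 0` (`ev2_pk` with `ρ`, `ev2` of `0` is `0`), `|z' - θ| ≤ δ/ρ κ ≤ c0` (`ev2_near`). (2) `z = y/x = y * (1/x)`: `pk u v z = u^m v^n ev3 a x y F = 0`
(`pk_ev` with `t = a`, `H`; the value of `ev3` at real numbers is the cast of the integer value: `ev3_cast H` in `Pool/Agent/H98/TE/REAL.lean` or similar,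
`hN.ev`), `|z - θ| ≤ c0` (`hN.near`). (3) `pk_sub`: `dk u v z z' (z - z') = 0` and `dk_ne`: `z = z'`. So `y = x ev2 u v Φσ`.
(4) `U = iv 0 a`, `V = iv 1 x`, `Y' = map (algebraMap ℚ ℝ) Y`. `hY.ev` mapped to `ℝ`: `ev3 (C a + X 0) (C x + X 1) Y' F = 0` (`ev3` commutes with ring
homomorphisms: `Polynomial.hom_eval₂`, or `ev3_sum H` and `map_sum`), so `Z = Y' * V` satisfies `pk U V Z = 0` (`pk_ev`, `iv_mul`). `Z' = Ew U V Φσ`
satisfies `pk U V Z' = 0` (`ew_pk` for `Cvg (fun _ => ofReal ρ) w U V`, from `cvg_iv` and `2/|a|, 2/|x| ≤ ρ`; `Ew` of `0` is `0`). The constant coefficients of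
`U, V, Z, Z'` are `u, v, y/x = z, ev2 u v Φσ = z'` (`iv_cc`, `hY.cst`, `cc_ew`), and `z = z'`. So `dk U V Z Z'` has constant coefficient
`dk u v z z' ≠ 0` (`dk_map` for `constantCoeff`), it is not `0`; power series over `ℝ` have no zero divisors, so `pk_sub` gives `Z = Z'`, and
`Y' = (C x + X 1) * (Y' * V) = (C x + X 1) * Ew U V Φσ`.
-/

namespace Pool.Agent.H48.SX

open Finset Polynomial Pool.Agent.H37.TE Pool.Agent.H98.TE Pool.Agent.H4.TP Pool.Agent.H98.XG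
open scoped ENNReal

theorem lcl {K : Type} [Field K] [NumberField K] (σ : K →+* ℝ) {n m : ℕ} {F : ℤ[X][X][X]} {g : K}
    {Φ : MvPowerSeries (Fin 2) K} {q : ℕ} {ρ κ : ℝ} (h : IsRt n m F g Φ q ρ κ) (H : DegF n m F)
    {θ : ℝ} (hg : σ g = θ) (h1 : (topm n m F).derivative.eval θ ≠ 0) (Q j : ℕ) (hQ : 1 ≤ Q)
    (hj : 1 ≤ j) :
    ∃ (c1 : ℝ) (A0 : ℕ), 0 < c1 ∧ ∀ (a : ℕ) (x y : ℤ), A0 ≤ a → Near F θ c1 Q j a x y →
      (y : ℝ) = x * ev2 (1 / a) (1 / x) (MvPowerSeries.map σ Φ) ∧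
      ∀ Y : MvPowerSeries (Fin 2) ℚ, IsLoc F a x y Y →
        MvPowerSeries.map (algebraMap ℚ ℝ) Y = (MvPowerSeries.C (x : ℝ) + MvPowerSeries.X 1) *
          Ew (iv 0 a) (iv 1 x) (MvPowerSeries.map σ Φ) := by
  obtain ⟨Φs, hΦs⟩ : ∃ f : MvPowerSeries (Fin 2) ℝ, f = MvPowerSeries.map σ Φ := ⟨_, rfl⟩
  rw [← hΦs]
  have hnrm : wn en (fun _ => ENNReal.ofReal ρ) Φs ≤ ENNReal.ofReal κ := by
    rw [hΦs]
    exact (wn_map σ _ Φ).trans h.nrm
  have hfin : wn en (fun _ => ENNReal.ofReal ρ) Φs ≠ ⊤ := ne_top_of_le_ne_top ENNReal.ofReal_ne_top hnrm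
  have hρt : ∀ _i : Fin 2, ENNReal.ofReal ρ ≠ ⊤ := fun _ => ENNReal.ofReal_ne_top
  have hcst : MvPowerSeries.constantCoeff Φs = θ := by
    rw [hΦs, ← hg, ← h.cst]
    rfl
  have hroot : pk n m F (MvPowerSeries.X 0) (MvPowerSeries.X 1) Φs = 0 := by
    have h2 := pk_map (MvPowerSeries.map σ) n m F (MvPowerSeries.X 0) (MvPowerSeries.X 1) Φ
    rw [h.root, map_zero, MvPowerSeries.map_X, MvPowerSeries.map_X, ← hΦs] at h2
    exact h2.symm
  have hρ := h.ρ0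
  have hρ1 := h.ρ1
  have hκ := h.κ1
  have hκ0 : 0 < κ := by linarith
  obtain ⟨c0, hc0, hdk⟩ := dk_ne n m F θ h1
  obtain ⟨δ, hδ⟩ : ∃ δ : ℝ, δ = min (min c0 (ρ / 2)) (c0 * ρ / κ) := ⟨_, rfl⟩
  have hδ0 : 0 < δ := by
    rw [hδ]
    exact lt_min (lt_min hc0 (by positivity)) (by positivity)
  have hδ1 : δ ≤ c0 := by
    rw [hδ]
    exact (min_le_left _ _).trans (min_le_left _ _)
  have hδ2 : δ ≤ ρ / 2 := by
    rw [hδ]
    exact (min_le_left _ _).trans (min_le_right _ _)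
  have hδ3 : δ / ρ * κ ≤ c0 := by
    have h2 : δ ≤ c0 * ρ / κ := by
      rw [hδ]
      exact min_le_right _ _
    rw [le_div_iff₀ hκ0] at h2
    rw [div_mul_eq_mul_div, div_le_iff₀ hρ]
    exact h2
  obtain ⟨A0, hA0⟩ := exists_nat_ge ((1 / δ) ^ Q)
  refine ⟨c0, A0 + 1, hc0, fun a x y ha hN => ?_⟩
  have hd1 : 1 ≤ 1 / δ := by
    rw [le_div_iff₀ hδ0]
    linarith
  have ha1 : 1 ≤ a := by omega
  have ha1' : (1 : ℝ) ≤ a := by exact_mod_cast ha1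
  have haQ : (1 / δ) ^ Q ≤ (a : ℝ) := by
    have : (A0 : ℝ) ≤ a := by exact_mod_cast (by omega : A0 ≤ a)
    linarith
  have hxa : (a : ℝ) ≤ |(x : ℝ)| ^ Q := by
    have h2 : (a : ℤ) ≤ |x| ^ Q := by
      refine le_trans ?_ hN.lo
      exact le_self_pow₀ (by exact_mod_cast ha1) (by omega)
    have h3 : ((a : ℤ) : ℝ) ≤ ((|x| ^ Q : ℤ) : ℝ) := by exact_mod_cast h2
    push_cast at h3
    exact h3
  have hxd : 1 / δ ≤ |(x : ℝ)| := by
    have h2 := haQ.trans hxa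
    exact le_of_pow_le_pow_left₀ (by omega) (abs_nonneg _) h2
  have hx0 : (x : ℝ) ≠ 0 := by
    intro h0
    rw [h0, abs_zero] at hxd
    linarith
  have hxp : 0 < |(x : ℝ)| := abs_pos.2 hx0
  have ha0 : (a : ℝ) ≠ 0 := by linarith
  have hxu : 1 / |(x : ℝ)| ≤ δ := by
    rw [div_le_iff₀ hxp]
    rw [div_le_iff₀ hδ0] at hxd
    linarith
  have had : 1 / δ ≤ (a : ℝ) := (le_self_pow₀ hd1 (by omega)).trans haQ
  have hau : 1 / (a : ℝ) ≤ δ := by
    rw [div_le_iff₀ (by linarith)]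
    rw [div_le_iff₀ hδ0] at had
    linarith
  obtain ⟨u, hu⟩ : ∃ u : ℝ, u = 1 / (a : ℝ) := ⟨_, rfl⟩
  obtain ⟨v, hv⟩ : ∃ v : ℝ, v = 1 / (x : ℝ) := ⟨_, rfl⟩
  have hu1 : |u| ≤ δ := by
    rw [hu, abs_of_nonneg (by positivity)]
    exact hau
  have hv1 : |v| ≤ δ := by
    rw [hv, abs_div, abs_one]
    exact hxu
  have hau' : (a : ℝ) * u = 1 := by
    rw [hu]
    exact mul_one_div_cancel ha0
  have hxv : (x : ℝ) * v = 1 := by
    rw [hv]
    exact mul_one_div_cancel hx0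
  have hen : ∀ t : ℝ, |t| ≤ δ → ‖t‖ₑ ≤ ENNReal.ofReal ρ := by
    intro t ht
    rw [Real.enorm_eq_ofReal_abs]
    exact ENNReal.ofReal_le_ofReal (by linarith)
  rw [← hu, ← hv]
  obtain ⟨z', hz'⟩ : ∃ z' : ℝ, z' = ev2 u v Φs := ⟨_, rfl⟩
  have hp1 : pk n m F u v z' = 0 := by
    have h2 := ev2_pk (ρ := fun _ => ENNReal.ofReal ρ) (hen u hu1) (hen v hv1) hρt hfin n m F
    rw [hroot, ← hz'] at h2
    rw [← h2]
    unfold ev2
    simp
  have hz1 : |z' - θ| ≤ c0 := by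
    have h2 := ev2_near hρ hκ0.le hnrm hu1 hv1 (by linarith : δ ≤ ρ)
    rw [hcst, ← hz'] at h2
    exact h2.trans hδ3
  have hev : ev3 (a : ℝ) (x : ℝ) (y : ℝ) F = 0 := by
    have h2 := ev3_hom (Int.castRingHom ℝ) (a : ℤ) x y F
    rw [hN.ev, map_zero] at h2
    simp only [eq_intCast, Int.cast_natCast] at h2
    exact h2.symm
  have hp2 : pk n m F u v ((y : ℝ) * v) = 0 := by
    rw [pk_ev H (y : ℝ) hau' hxv, hev, mul_zero]
  have hz2 : |(y : ℝ) * v - θ| ≤ c0 := by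
    rw [hv, mul_one_div]
    exact hN.near
  have hdk0 := hdk u v ((y : ℝ) * v) z' (hu1.trans hδ1) (hv1.trans hδ1) hz2 hz1
  have hzz : (y : ℝ) * v = z' := by
    have h2 := pk_sub n m F u v ((y : ℝ) * v) z'
    rw [hp1, hp2, sub_zero] at h2
    rcases mul_eq_zero.1 h2.symm with h3 | h3
    · exact absurd h3 hdk0
    · linarith
  refine ⟨?_, fun Y hY => ?_⟩
  · rw [← hz', ← hzz]
    linear_combination -(y : ℝ) * hxv
  · obtain ⟨Y', hY'⟩ : ∃ f : MvPowerSeries (Fin 2) ℝ, f = MvPowerSeries.map (algebraMap ℚ ℝ) Y :=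
      ⟨_, rfl⟩
    rw [← hY']
    obtain ⟨U, hU⟩ : ∃ f : MvPowerSeries (Fin 2) ℝ, f = iv 0 a := ⟨_, rfl⟩
    obtain ⟨V, hV⟩ : ∃ f : MvPowerSeries (Fin 2) ℝ, f = iv 1 x := ⟨_, rfl⟩
    rw [← hU, ← hV]
    have hU1 : (MvPowerSeries.C (a : ℝ) + MvPowerSeries.X 0) * U = 1 := by
      rw [hU]
      exact iv_mul 0 ha0
    have hV1 : (MvPowerSeries.C (x : ℝ) + MvPowerSeries.X 1) * V = 1 := by
      rw [hV]
      exact iv_mul 1 hx0
    have hevY : ev3 (MvPowerSeries.C (a : ℝ) + MvPowerSeries.X 0)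
        (MvPowerSeries.C (x : ℝ) + MvPowerSeries.X 1) Y' F = 0 := by
      have h2 := ev3_hom (MvPowerSeries.map (σ := Fin 2) (algebraMap ℚ ℝ))
        (MvPowerSeries.C (a : ℚ) + MvPowerSeries.X 0) (MvPowerSeries.C (x : ℚ) + MvPowerSeries.X 1)
        Y F
      rw [hY.ev, map_zero, map_add, map_add, MvPowerSeries.map_X, MvPowerSeries.map_X,
        MvPowerSeries.map_C, MvPowerSeries.map_C, ← hY', map_natCast, map_intCast] at h2
      exact h2.symm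
    have hq1 : pk n m F U V (Y' * V) = 0 := by
      rw [pk_ev H Y' hU1 hV1, hevY, mul_zero]
    have hC : Cvg (fun _ => ENNReal.ofReal ρ)
        ![ENNReal.ofReal (|(a : ℝ)| / 2), ENNReal.ofReal (|(x : ℝ)| / 2)] U V := by
      have h2 := cvg_iv ha0 hx0
      refine ⟨h2.w0, h2.w1, ?_, ?_⟩
      · rw [hU]
        refine h2.hU.trans ?_
        show ENNReal.ofReal (2 / |(a : ℝ)|) ≤ ENNReal.ofReal ρ
        apply ENNReal.ofReal_le_ofReal
        have h3 : 2 / |(a : ℝ)| = 2 * (1 / (a : ℝ)) := by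
          rw [abs_of_nonneg (by linarith)]
          ring
        rw [h3]
        linarith
      · rw [hV]
        refine h2.hV.trans ?_
        show ENNReal.ofReal (2 / |(x : ℝ)|) ≤ ENNReal.ofReal ρ
        apply ENNReal.ofReal_le_ofReal
        have h3 : 2 / |(x : ℝ)| = 2 * (1 / |(x : ℝ)|) := by ring
        rw [h3]
        linarith
    have hq2 : pk n m F U V (Ew U V Φs) = 0 := by
      rw [← ew_pk hC hρt hfin n m F, hroot]
      unfold Ew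
      simp
      rfl
    have hcU : MvPowerSeries.constantCoeff U = u := by
      rw [hU, iv_cc, hu]
    have hcV : MvPowerSeries.constantCoeff V = v := by
      rw [hV, iv_cc, hv]
    have hcY : MvPowerSeries.constantCoeff Y' = (y : ℝ) := by
      have h2 : MvPowerSeries.constantCoeff Y' = algebraMap ℚ ℝ (MvPowerSeries.constantCoeff Y) := by
        rw [hY']
        rfl
      rw [h2, hY.cst, map_intCast]
    have hcD : MvPowerSeries.constantCoeff (dk n m F U V (Y' * V) (Ew U V Φs)) =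
        dk n m F u v ((y : ℝ) * v) z' := by
      rw [dk_map, map_mul, hcU, hcV, hcY, cc_ew, hcU, hcV, ← hz']
    have hD : dk n m F U V (Y' * V) (Ew U V Φs) ≠ 0 := by
      intro h0
      rw [h0, map_zero] at hcD
      exact hdk0 hcD.symm
    have hZ : Y' * V = Ew U V Φs := by
      have h2 := pk_sub n m F U V (Y' * V) (Ew U V Φs)
      rw [hq1, hq2, sub_zero] at h2
      rcases mul_eq_zero.1 h2.symm with h3 | h3
      · exact absurd h3 hD
      · exact sub_eq_zero.1 h3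
    rw [← hZ]
    linear_combination -Y' * hV1

end Pool.Agent.H48.SX
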