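import Pool.Agent.H48.SX.Defs

/-!
# [H48 SX SHF] the equation of the root, centred at its constant term

PROOF. `D = dk n m F 0 0 g g ≠ 0`; `n ≥ 1` (for `n = 0` the sum `dk` is `0`). For `k ≤ n` put (in `MvPolynomial (Fin 2) K`)
`E_k = ∑_{b ≤ n} pb n m F b X_0 X_1 · C (choose b k · g^(b-k))` and `e_k = C (D⁻¹) E_k - (if k = 1 then 1 else 0)`.
`pk X_0 X_1 (C g + h) = ∑_b pb_b (C g + h)^b = ∑_b pb_b ∑_{k ≤ b} choose b k h^k (C g)^(b-k) = ∑_{k ≤ n} E_k h^k` (`add_pow`; `choose b k = 0` for
`k > b`), which is `C D · (h + ∑_{k ≤ n} e_k h^k)`; it is `0` if `h = -∑ e_k h^k`.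
The constant coefficient of `E_0` is `∑_b pb_b(0,0) g^b = pk n m F 0 0 g = 0`, that of `E_1` is `∑_b pb_b(0,0) b g^(b-1) = D`
(`∑_{i<b} g^i g^(b-1-i) = b g^(b-1)`); the constant coefficient of `pb n m F b X_0 X_1` is `pb n m F b 0 0` (unfold, the
constant coefficient is a ring homomorphism; work with `MvPowerSeries.constantCoeff` of the coerced polynomials or with
`MvPolynomial.constantCoeff`, `MvPolynomial.coeToMvPowerSeries.ringHom`).
-/

namespace Pool.Agent.H48.SX

open Finset Polynomial Pool.Agent.H37.TE Pool.Agent.H98.TE Pool.Agent.H4.TP Pool.Agent.H98.XG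
open scoped ENNReal

private theorem shf_pb {A B : Type*} [CommRing A] [CommRing B] (φ : A →+* B) (n m : ℕ) (F : ℤ[X][X][X])
    (b : ℕ) (u w : A) : φ (pb n m F b u w) = pb n m F b (φ u) (φ w) := by
  unfold pb
  simp only [map_sum, map_mul, map_pow, map_intCast]

/-- the constant coefficient on polynomials -/
private noncomputable def shf_cc (K : Type) [Field K] : MvPolynomial (Fin 2) K →+* K :=
  (MvPowerSeries.constantCoeff (σ := Fin 2) (R := K)).comp MvPolynomial.coeToMvPowerSeries.ringHom

private theorem shf_cc_X (K : Type) [Field K] (i : Fin 2) : shf_cc K (MvPolynomial.X i) = 0 := by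
  simp [shf_cc]

private theorem shf_cc_C (K : Type) [Field K] (a : K) : shf_cc K (MvPolynomial.C a) = a := by
  simp [shf_cc]

private theorem shf_pow {R : Type*} [CommRing R] (x y : R) {b n : ℕ} (hb : b ≤ n) :
    (x + y) ^ b = ∑ k ∈ range (n + 1), (Nat.choose b k : R) * x ^ (b - k) * y ^ k := by
  rw [add_comm x y, add_pow]
  have h1 : range (b + 1) ⊆ range (n + 1) := range_subset_range.2 (by omega)
  rw [← sum_subset h1]
  · refine sum_congr rfl fun k _ => ?_
    ring
  · intro k _ hk
    rw [mem_range, not_lt] at hk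
    rw [Nat.choose_eq_zero_of_lt (by omega), Nat.cast_zero, zero_mul, zero_mul]

theorem shf {K : Type} [Field K] [CharZero K] {n m : ℕ} {F : ℤ[X][X][X]} (g : K)
    (h0 : pk n m F 0 0 g = 0) (h1 : dk n m F 0 0 g g ≠ 0) :
    ∃ e : ℕ → MvPolynomial (Fin 2) K,
      MvPowerSeries.constantCoeff (e 0 : MvPowerSeries (Fin 2) K) = 0 ∧
      MvPowerSeries.constantCoeff (e 1 : MvPowerSeries (Fin 2) K) = 0 ∧
      ∀ h : MvPowerSeries (Fin 2) K,
        h = -∑ k ∈ range (n + 1), (e k : MvPowerSeries (Fin 2) K) * h ^ k →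
        pk n m F (MvPowerSeries.X 0) (MvPowerSeries.X 1) (MvPowerSeries.C g + h) = 0 := by
  have hn : 1 ≤ n := by
    by_contra hn
    have hn0 : n = 0 := by omega
    subst hn0
    apply h1
    simp [dk]
  set D : K := dk n m F 0 0 g g with hD
  set P : ℕ → MvPolynomial (Fin 2) K := fun b => pb n m F b (MvPolynomial.X 0) (MvPolynomial.X 1)
    with hP
  set E : ℕ → MvPolynomial (Fin 2) K := fun k =>
    ∑ b ∈ range (n + 1), P b * MvPolynomial.C ((Nat.choose b k : K) * g ^ (b - k)) with hE
  set e : ℕ → MvPolynomial (Fin 2) K := fun k => MvPolynomial.C D⁻¹ * E k - (if k = 1 then 1 else 0)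
    with he
  have hcP : ∀ b, shf_cc K (P b) = pb n m F b 0 0 := by
    intro b
    rw [hP]
    simp only
    rw [shf_pb, shf_cc_X, shf_cc_X]
  have hcE : ∀ k, shf_cc K (E k) = ∑ b ∈ range (n + 1), pb n m F b 0 0 * ((Nat.choose b k : K) * g ^ (b - k)) := by
    intro k
    rw [hE]
    simp only [map_sum, map_mul, hcP, shf_cc_C]
  have hcE0 : shf_cc K (E 0) = 0 := by
    refine Eq.trans ?_ h0
    rw [hcE, pk]
    refine sum_congr rfl fun b _ => ?_
    rw [Nat.choose_zero_right, Nat.cast_one, one_mul, Nat.sub_zero]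
  have hcE1 : shf_cc K (E 1) = D := by
    rw [hcE, hD, dk]
    refine sum_congr rfl fun b _ => ?_
    congr 1
    rw [Nat.choose_one_right]
    have h2 : ∀ i ∈ range b, g ^ i * g ^ (b - 1 - i) = g ^ (b - 1) := by
      intro i hi
      rw [mem_range] at hi
      rw [← pow_add]
      congr 1
      omega
    rw [sum_congr rfl h2, sum_const, card_range, nsmul_eq_mul]
  refine ⟨e, ?_, ?_, ?_⟩
  · have h2 : shf_cc K (e 0) = 0 := by
      rw [he]
      simp only
      rw [if_neg (by norm_num), sub_zero, map_mul, hcE0, mul_zero]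
    exact h2
  · have h2 : shf_cc K (e 1) = 0 := by
      rw [he]
      simp only
      rw [if_true, map_sub, map_mul, hcE1, map_one, shf_cc_C, inv_mul_cancel₀ h1, sub_self]
    exact h2
  · intro h hh
    set φ : MvPolynomial (Fin 2) K →+* MvPowerSeries (Fin 2) K :=
      MvPolynomial.coeToMvPowerSeries.ringHom with hφ
    have hφX : ∀ i, φ (MvPolynomial.X i) = MvPowerSeries.X i := by
      intro i
      simp [hφ]
    have hφC : ∀ a, φ (MvPolynomial.C a) = MvPowerSeries.C a := by
      intro a
      simp [hφ]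
    have hφP : ∀ b, φ (P b) = pb n m F b (MvPowerSeries.X 0) (MvPowerSeries.X 1) := by
      intro b
      rw [hP]
      simp only
      rw [shf_pb, hφX, hφX]
    have hEe : ∀ k, φ (E k) = MvPowerSeries.C D * (φ (e k) + (if k = 1 then 1 else 0)) := by
      intro k
      rw [he]
      simp only [map_sub, map_mul, hφC]
      have h3 : (MvPowerSeries.C D : MvPowerSeries (Fin 2) K) * MvPowerSeries.C D⁻¹ = 1 := by
        rw [← map_mul, mul_inv_cancel₀ h1, map_one]
      have h4 : φ (if k = 1 then 1 else 0) = if k = 1 then 1 else 0 := by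
        split_ifs <;> simp
      rw [h4]
      linear_combination (-φ (E k)) * h3
    have h2 : pk n m F (MvPowerSeries.X 0) (MvPowerSeries.X 1) (MvPowerSeries.C g + h) =
        ∑ k ∈ range (n + 1), φ (E k) * h ^ k := by
      rw [pk]
      have h5 : ∀ b ∈ range (n + 1), pb n m F b (MvPowerSeries.X 0) (MvPowerSeries.X 1) * (MvPowerSeries.C g + h) ^ b =
          ∑ k ∈ range (n + 1), φ (P b * MvPolynomial.C ((Nat.choose b k : K) * g ^ (b - k))) * h ^ k := by
        intro b hb
        rw [mem_range] at hb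
        rw [shf_pow _ h (n := n) (by omega), mul_sum]
        refine sum_congr rfl fun k _ => ?_
        rw [map_mul, hφP, hφC, map_mul, map_pow, map_natCast]
        ring
      rw [sum_congr rfl h5, sum_comm]
      refine sum_congr rfl fun k _ => ?_
      rw [hE]
      simp only
      rw [map_sum, sum_mul]
    rw [h2]
    have h6 : ∑ k ∈ range (n + 1), φ (E k) * h ^ k = MvPowerSeries.C D * (∑ k ∈ range (n + 1), φ (e k) * h ^ k + h) := by
      have h7 : ∀ k ∈ range (n + 1), φ (E k) * h ^ k = MvPowerSeries.C D * (φ (e k) * h ^ k) +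
          (if k = 1 then MvPowerSeries.C D * h ^ k else 0) := by
        intro k _
        rw [hEe k]
        split_ifs <;> ring
      rw [sum_congr rfl h7, sum_add_distrib, ← mul_sum, sum_ite_eq' (range (n + 1)) 1, if_pos (mem_range.2 (by omega)),
        pow_one]
      ring
    rw [h6]
    have h8 : ∑ k ∈ range (n + 1), φ (e k) * h ^ k + h = 0 := by
      have h9 : h = -∑ k ∈ range (n + 1), φ (e k) * h ^ k := hh
      linear_combination h9
    rw [h8, mul_zero]

end Pool.Agent.H48.SX
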