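import Pool.Agent.H48.SX.Hna
import Pool.Agent.H48.SX.Hnb
import Pool.Agent.H48.SX.Shf
import Pool.Agent.H48.SX.Dnm

/-!
# [H48 SX SER] the power series root over a number field

PROOF. `e` from `shf g h0 h1`, `(h, s)` from `it_exists n (fun k => e k)`, `Φ = C g + h`; `pk (Φ) = 0` by `shf` and `fix`; `constantCoeff Φ = g`.
`int`: `den_fin` for the finite set `{g} ∪ ⋃_{k ≤ n} {coefficients of e k}` (image of `coeff` over the support) gives `q ≥ 1`; for `ν = 0`: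
`q g` is integral; for `ν ≠ 0`: `coeff ν Φ = coeff ν h` and `q^(2|ν|+1) h_ν = q · (q^(2|ν|) h_ν)`, `it_int`.
`nrm`: `B_k = wn hs 1 (e k) < ∞` (finite sum over the support; other coefficients `0`), `B = 1 + ∑_{k ≤ n} B_k` as a real number.
For `0 < ρ ≤ 1` (constant weights `ρ`): `wn hs ρ (e k) ≤ B_k`, and for `k = 0, 1` even `≤ ρ B_k`, because the constant coefficient is `0` and
`pw ρ ν = ρ^(ν 0 + ν 1) ≤ ρ` for `ν ≠ 0`. With `κ0 = 1/(4B)`, `ρ = κ0/(4B)`: `∑_{k ≤ n} wn (e k) κ0^k ≤ ρ B_0 + ρ B_1 κ0 + κ0² ∑_{k ≥ 2} B_k ≤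
ρ B + ρ B + B κ0² ≤ κ0/4 + κ0/4 + κ0/4 ≤ κ0`. So `wn h ≤ κ0` by `it_nrm` (`hs_isNrm`), and `wn Φ ≤ hs g + κ0 ≤ κ = house g + 1`
(`wn_isNrm`, `wn_C`).
-/

namespace Pool.Agent.H48.SX

open Finset Polynomial Pool.Agent.H37.TE Pool.Agent.H98.TE Pool.Agent.H4.TP Pool.Agent.H98.XG
open scoped ENNReal

private theorem qn_int {K : Type} [Field K] (q k : ℕ) : IsIntegral ℤ ((q : K) ^ k) := by
  have h : IsIntegral ℤ (q : K) := by
    have h1 := isIntegral_algebraMap (R := ℤ) (A := K) (x := (q : ℤ))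
    simpa using h1
  exact h.pow k

private theorem pw_const (r : ℝ≥0∞) (ν : Fin 2 →₀ ℕ) : pw (fun _ => r) ν = r ^ (ν 0 + ν 1) := by
  unfold pw
  rw [pow_add]

private theorem wn_small {R : Type*} [CommRing R] {N : R → ℝ≥0∞} (hN : IsNrm N) (r : ℝ≥0∞)
    (hr : r ≤ 1) (f : MvPowerSeries (Fin 2) R) (hf : MvPowerSeries.constantCoeff f = 0) :
    wn N (fun _ => r) f ≤ r * wn N (fun _ => 1) f := by
  unfold wn
  rw [← ENNReal.tsum_mul_left]
  refine ENNReal.tsum_le_tsum fun ν => ?_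
  rw [pw_const, pw_const, one_pow, mul_one]
  by_cases hν : ν = 0
  · rw [hν, MvPowerSeries.coeff_zero_eq_constantCoeff_apply, hf, hN.zero, zero_mul, mul_zero]
  · have h1 : 1 ≤ ν 0 + ν 1 := by
      by_contra hlt
      apply hν
      ext i
      fin_cases i
      · change ν 0 = 0
        omega
      · change ν 1 = 0
        omega
    have h2 : r ^ (ν 0 + ν 1) ≤ r := by
      calc r ^ (ν 0 + ν 1) ≤ r ^ 1 := pow_le_pow_right_of_le_one' hr h1
        _ = r := pow_one r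
    rw [mul_comm r]
    exact mul_le_mul' le_rfl h2

private theorem wn_fin {K : Type} [Field K] [NumberField K] (p : MvPolynomial (Fin 2) K) :
    wn hs (fun _ => 1) (p : MvPowerSeries (Fin 2) K) ≠ ⊤ := by
  classical
  unfold wn
  rw [tsum_eq_sum (s := p.support)]
  · refine (ENNReal.sum_lt_top.2 fun ν _ => ?_).ne
    rw [pw_const, one_pow, mul_one]
    exact ENNReal.ofReal_lt_top
  · intro ν hν
    rw [MvPolynomial.coeff_coe, MvPolynomial.notMem_support_iff.1 hν, (hs_isNrm K).zero, zero_mul]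

theorem ser {K : Type} [Field K] [NumberField K] {n m : ℕ} {F : ℤ[X][X][X]} (g : K)
    (h0 : pk n m F 0 0 g = 0) (h1 : dk n m F 0 0 g g ≠ 0) :
    ∃ (Φ : MvPowerSeries (Fin 2) K) (q : ℕ) (ρ κ : ℝ), IsRt n m F g Φ q ρ κ := by
  classical
  obtain ⟨e, he0, he1, he⟩ := shf g h0 h1
  obtain ⟨h, s, hi⟩ := it_exists n (fun k => (e k : MvPowerSeries (Fin 2) K)) he0 he1
  obtain ⟨D, hD⟩ : ∃ D : Finset K, D = insert g ((range (n + 1)).biUnion fun k =>
    (e k).support.image fun ν => (e k).coeff ν) := ⟨_, rfl⟩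
  obtain ⟨q, hq1, hq⟩ := den_fin D
  have hint : ∀ k ≤ n, ∀ ν : Fin 2 →₀ ℕ, IsIntegral ℤ ((q : K) *
      MvPowerSeries.coeff ν (e k : MvPowerSeries (Fin 2) K)) := by
    intro k hk ν
    rw [MvPolynomial.coeff_coe]
    by_cases hν : ν ∈ (e k).support
    · refine hq _ ?_
      rw [hD, mem_insert, mem_biUnion]
      exact Or.inr ⟨k, mem_range.2 (by omega), mem_image.2 ⟨ν, hν, rfl⟩⟩
    · rw [MvPolynomial.notMem_support_iff.1 hν, mul_zero]
      exact isIntegral_zero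
  have hh := it_int hi q he0 he1 hint
  -- the norm
  obtain ⟨S, hS⟩ : ∃ S : ℝ≥0∞, S = ∑ k ∈ range (n + 1),
    wn hs (fun _ => 1) (e k : MvPowerSeries (Fin 2) K) := ⟨_, rfl⟩
  have hSt : S ≠ ⊤ := by
    rw [hS]
    exact (ENNReal.sum_lt_top.2 fun k _ => (wn_fin (e k)).lt_top).ne
  obtain ⟨B, hB⟩ : ∃ B : ℝ, B = 1 + S.toReal := ⟨_, rfl⟩
  have hB1 : 1 ≤ B := by
    have := ENNReal.toReal_nonneg (a := S)
    linarith
  have hSB : S ≤ ENNReal.ofReal B := by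
    rw [← ENNReal.ofReal_toReal hSt]
    exact ENNReal.ofReal_le_ofReal (by linarith)
  obtain ⟨κ0, hκ0⟩ : ∃ κ0 : ℝ, κ0 = 1 / (4 * B) := ⟨_, rfl⟩
  obtain ⟨ρ, hρ⟩ : ∃ ρ : ℝ, ρ = κ0 / (4 * B) := ⟨_, rfl⟩
  have hκ00 : 0 < κ0 := by
    rw [hκ0]
    positivity
  have hκ01 : κ0 ≤ 1 := by
    rw [hκ0, div_le_one (by positivity)]
    linarith
  have hρ0 : 0 < ρ := by
    rw [hρ]
    positivity
  have hρ1 : ρ ≤ 1 := by
    rw [hρ, div_le_one (by positivity)]
    linarith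
  have hκ' : ENNReal.ofReal κ0 ≤ 1 := ENNReal.ofReal_le_one.2 hκ01
  have hρ' : ENNReal.ofReal ρ ≤ 1 := ENNReal.ofReal_le_one.2 hρ1
  have hterm : ∀ k ∈ range (n + 1), wn hs (fun _ => ENNReal.ofReal ρ)
      (e k : MvPowerSeries (Fin 2) K) * ENNReal.ofReal κ0 ^ k ≤
      wn hs (fun _ => 1) (e k : MvPowerSeries (Fin 2) K) * ENNReal.ofReal (ρ + κ0 ^ 2) := by
    intro k _
    have hr1 : ENNReal.ofReal ρ ≤ ENNReal.ofReal (ρ + κ0 ^ 2) :=
      ENNReal.ofReal_le_ofReal (by nlinarith)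
    have hr2 : ENNReal.ofReal κ0 ^ 2 ≤ ENNReal.ofReal (ρ + κ0 ^ 2) := by
      rw [← ENNReal.ofReal_pow hκ00.le]
      exact ENNReal.ofReal_le_ofReal (by linarith)
    have hcase : ∀ f : MvPowerSeries (Fin 2) K, MvPowerSeries.constantCoeff f = 0 →
        wn hs (fun _ => ENNReal.ofReal ρ) f * ENNReal.ofReal κ0 ^ k ≤
        wn hs (fun _ => 1) f * ENNReal.ofReal (ρ + κ0 ^ 2) := by
      intro f hf
      calc wn hs (fun _ => ENNReal.ofReal ρ) f * ENNReal.ofReal κ0 ^ k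
          ≤ (ENNReal.ofReal ρ * wn hs (fun _ => 1) f) * 1 :=
            mul_le_mul' (wn_small (hs_isNrm K) _ hρ' f hf) (pow_le_one₀ zero_le hκ')
        _ = wn hs (fun _ => 1) f * ENNReal.ofReal ρ := by rw [mul_one, mul_comm]
        _ ≤ wn hs (fun _ => 1) f * ENNReal.ofReal (ρ + κ0 ^ 2) := mul_le_mul' le_rfl hr1
    by_cases hk0 : k = 0
    · rw [hk0] at hcase ⊢
      exact hcase _ he0
    by_cases hk1 : k = 1
    · rw [hk1] at hcase ⊢
      exact hcase _ he1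
    have hk2 : 2 ≤ k := by omega
    calc wn hs (fun _ => ENNReal.ofReal ρ) (e k : MvPowerSeries (Fin 2) K) * ENNReal.ofReal κ0 ^ k
        ≤ wn hs (fun _ => 1) (e k : MvPowerSeries (Fin 2) K) * ENNReal.ofReal κ0 ^ 2 :=
          mul_le_mul' (wn_mono hs (fun _ => hρ') _) (pow_le_pow_right_of_le_one' hκ' hk2)
      _ ≤ wn hs (fun _ => 1) (e k : MvPowerSeries (Fin 2) K) * ENNReal.ofReal (ρ + κ0 ^ 2) :=
          mul_le_mul' le_rfl hr2
  have hsum : ∑ k ∈ range (n + 1), wn hs (fun _ => ENNReal.ofReal ρ)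
      (e k : MvPowerSeries (Fin 2) K) * ENNReal.ofReal κ0 ^ k ≤ ENNReal.ofReal κ0 := by
    refine (sum_le_sum hterm).trans ?_
    rw [← sum_mul, ← hS]
    calc S * ENNReal.ofReal (ρ + κ0 ^ 2) ≤ ENNReal.ofReal B * ENNReal.ofReal (ρ + κ0 ^ 2) := mul_le_mul' hSB le_rfl
      _ = ENNReal.ofReal (B * (ρ + κ0 ^ 2)) := (ENNReal.ofReal_mul (by linarith)).symm
      _ ≤ ENNReal.ofReal κ0 := by
          refine ENNReal.ofReal_le_ofReal ?_
          have h2 : B * ρ = κ0 / 4 := by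
            rw [hρ]
            field_simp
          have h3 : B * κ0 = 1 / 4 := by
            rw [hκ0]
            field_simp
          have h4 : B * (ρ + κ0 ^ 2) = B * ρ + (B * κ0) * κ0 := by ring
          rw [h4, h2, h3]
          linarith
  have hnorm := it_nrm hi (hs_isNrm K) (fun _ => ENNReal.ofReal ρ) (ENNReal.ofReal κ0) hsum
  have hg0 : 0 ≤ NumberField.house g := NumberField.house_nonneg g
  refine ⟨MvPowerSeries.C g + h, q, ρ, NumberField.house g + 1, hq1, hρ0, hρ1, by linarith, ?_,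
    he h hi.fix, ?_, ?_⟩
  · rw [map_add, hi.cst, add_zero, MvPowerSeries.constantCoeff_C]
  · intro ν
    have h2 : (q : K) ^ (2 * (ν 0 + ν 1) + 1) * MvPowerSeries.coeff ν (MvPowerSeries.C g + h) =
        (q : K) ^ (2 * (ν 0 + ν 1)) * ((q : K) * MvPowerSeries.coeff ν (MvPowerSeries.C g)) +
        (q : K) ^ 1 * ((q : K) ^ (2 * (ν 0 + ν 1)) * MvPowerSeries.coeff ν h) := by
      rw [map_add]
      ring
    rw [h2]
    refine IsIntegral.add ((qn_int q _).mul ?_) ((qn_int q _).mul (hh ν))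
    rw [MvPowerSeries.coeff_C]
    split_ifs
    · refine hq g ?_
      rw [hD]
      exact mem_insert_self _ _
    · rw [mul_zero]
      exact isIntegral_zero
  · have hN := wn_isNrm (hs_isNrm K) (fun _ => ENNReal.ofReal ρ)
    rw [ENNReal.ofReal_add hg0 zero_le_one]
    refine (hN.add _ _).trans (add_le_add ?_ ?_)
    · rw [wn_C (hs_isNrm K)]
      exact le_rfl
    · exact hnorm.trans (ENNReal.ofReal_le_ofReal hκ01)

end Pool.Agent.H48.SX
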