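import Pool.Agent.H48.SX.Slk
import Pool.Agent.H48.SX.Ser

/-!
# [H48 SX MAIN] the chapter SLX

PROOF. As `aux_window` in `Pool/Agent/H4/SX/AXW.lean`: `K = ℚ⟮θ⟯`, `g` the generator.
-/

namespace Pool.Agent.H48.SX

open Finset Polynomial Pool.Agent.H37.TE Pool.Agent.H98.TE Pool.Agent.H4.TP Pool.Agent.H98.XG
open scoped ENNReal

private theorem main_pb {A : Type*} [CommRing A] (n m : ℕ) (F : ℤ[X][X][X]) {b : ℕ} (hb : b ≤ n) :
    pb n m F b (0 : A) 0 = ((cf3 F m (n - b) b : ℤ) : A) := by
  unfold pb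
  rw [sum_eq_single (n - b), sum_eq_single m]
  · rw [Nat.sub_self, pow_zero, one_mul]
    have h1 : n - (n - b) - b = 0 := by omega
    rw [h1, pow_zero, mul_one]
  · intro j hj hjm
    rw [mem_range] at hj
    rw [zero_pow (by omega : m - j ≠ 0)]
    ring
  · intro h
    exact absurd (mem_range.2 (Nat.lt_succ_self m)) h
  · intro a ha han
    rw [mem_range] at ha
    refine sum_eq_zero fun j _ => ?_
    rw [zero_pow (by omega : n - a - b ≠ 0)]
    ring
  · intro h
    exact absurd (mem_range.2 (by omega)) h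

private theorem main_pk {K : Type} [Field K] (σ : K →+* ℝ) (n m : ℕ) (F : ℤ[X][X][X]) (g : K) :
    σ (pk n m F 0 0 g) = (topm n m F).eval (σ g) := by
  unfold pk topm
  rw [map_sum, eval_finsetSum]
  refine sum_congr rfl fun b hb => ?_
  rw [mem_range] at hb
  rw [main_pb n m F (by omega : b ≤ n), map_mul, map_intCast, map_pow, eval_mul, eval_C, eval_pow,
    eval_X]

private theorem main_dk {K : Type} [Field K] (σ : K →+* ℝ) (n m : ℕ) (F : ℤ[X][X][X]) (g : K) :
    σ (dk n m F 0 0 g g) = (topm n m F).derivative.eval (σ g) := by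
  unfold dk topm
  rw [map_sum, derivative_sum, eval_finsetSum]
  refine sum_congr rfl fun b hb => ?_
  rw [mem_range] at hb
  rw [main_pb n m F (by omega : b ≤ n), map_mul, map_intCast, derivative_C_mul, derivative_X_pow,
    eval_mul, eval_C, eval_mul, eval_pow, eval_X, eval_C]
  congr 1
  have h1 : ∀ i ∈ range b, g ^ i * g ^ (b - 1 - i) = g ^ (b - 1) := by
    intro i hi
    rw [mem_range] at hi
    rw [← pow_add]
    congr 1
    omega
  rw [sum_congr rfl h1, sum_const, card_range, nsmul_eq_mul, map_mul, map_natCast, map_pow]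

theorem slx {n m : ℕ} {F : ℤ[X][X][X]} (h : HypG n m F) {θ : ℝ} (h0 : (topm n m F).eval θ = 0)
    (hr : 32 * (minpoly ℚ θ).natDegree < 3 * n ^ 2) (hF : FYN F θ) (hD : DEN n F) :
    SLX n F θ := by
  have h1 := (topm_simple h.sq).2 θ h0
  have hq0 : topq n m F ≠ 0 := h.sq.ne_zero
  have hint : IsIntegral ℚ θ := by
    have h2 : IsAlgebraic ℚ θ := ⟨topq n m F, hq0, by
      rw [aeval_def, ← eval_map, ← topm_eq]
      exact h0⟩
    exact h2.isIntegral
  have hfd : FiniteDimensional ℚ (IntermediateField.adjoin ℚ {θ}) :=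
    IntermediateField.adjoin.finiteDimensional hint
  have hfr : Module.finrank ℚ (IntermediateField.adjoin ℚ {θ}) = (minpoly ℚ θ).natDegree :=
    IntermediateField.adjoin.finrank hint
  have hnf : NumberField (IntermediateField.adjoin ℚ {θ}) := by
    refine @NumberField.mk _ _ inferInstance ?_
    convert hfd
  have hg : algebraMap (IntermediateField.adjoin ℚ {θ}) ℝ
      (IntermediateField.AdjoinSimple.gen ℚ θ) = θ :=
    IntermediateField.AdjoinSimple.algebraMap_gen ℚ θ
  have hk0 : pk n m F 0 0 (IntermediateField.AdjoinSimple.gen ℚ θ) = 0 := by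
    apply (algebraMap (IntermediateField.adjoin ℚ {θ}) ℝ).injective
    rw [main_pk, hg, h0, map_zero]
  have hk1 : dk n m F 0 0 (IntermediateField.AdjoinSimple.gen ℚ θ)
      (IntermediateField.AdjoinSimple.gen ℚ θ) ≠ 0 := by
    intro h2
    apply h1
    have h3 := congrArg (algebraMap (IntermediateField.adjoin ℚ {θ}) ℝ) h2
    rw [main_dk, hg, map_zero] at h3
    exact h3
  obtain ⟨Φ, q, ρ, κ, hΦ⟩ := ser (IntermediateField.AdjoinSimple.gen ℚ θ) hk0 hk1
  refine slk (algebraMap (IntermediateField.adjoin ℚ {θ}) ℝ) hΦ h.H hg h1 ?_ hF hD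
  have h4 : Module.finrank ℚ (IntermediateField.adjoin ℚ {θ}) = (minpoly ℚ θ).natDegree := hfr
  rw [← h4] at hr
  convert hr

end Pool.Agent.H48.SX
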