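import Pool.Agent.H48.SX.Defs

/-!
# [H48 SX NRM] submultiplicative norms and weighted norms of power series

PROOF. `IsNrm.pow`: induction (`N (x^0) = N 1 ≤ 1`). `IsNrm.sum`: `Finset.induction_on`. `wn_coeff`: `ENNReal.le_tsum`.
`wn_C`: only `ν = 0` contributes (`tsum_eq_single`, `pw ρ 0 = 1`). `wn_X`: only `ν = single i 1`, `N 1 ≤ 1`. `wn_mono`: termwise
(`ENNReal.tsum_le_tsum`, powers are monotone).
`wn_isNrm`: `zero, neg, add` termwise (`ENNReal.tsum_add`); `one` from `wn_C`. `mul`: `coeff ν (f g) = ∑_{(a,b) : a + b = ν} f_a g_b`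
(`MvPowerSeries.coeff_mul`) and `pw ρ ν = pw ρ a * pw ρ b`, so the term of `ν` is at most
`∑_{(a,b) ∈ antidiagonal ν} (N f_a pw a) (N g_b pw b)`; the sum over `ν` of these finite sums is the sum over all pairs `(a, b)`
(`Finset.sigmaAntidiagonalEquivProd`, `ENNReal.tsum_sigma`, `tsum_fintype`, `Equiv.tsum_eq`), which is the product
(`ENNReal.tsum_prod`, `ENNReal.tsum_mul_left`, `ENNReal.tsum_mul_right`).
`en_isNrm`: `enorm_zero, enorm_one, enorm_neg, enorm_add_le, enorm_mul`. `hs_isNrm`: `NumberField.house_add_le, house_mul_le,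
house_nonneg, house_intCast` (for `0` and `1`), `house (-x) = house x` from the definition; `ENNReal.ofReal_add`,
`ENNReal.ofReal_mul`. `wn_map`: for `σ : K →+* ℝ` the composition with `ℝ → ℂ` is an embedding `φ`, `|σ x| = ‖φ x‖ ≤ house x`
(`NumberField.norm_embedding_le_house`).
-/

namespace Pool.Agent.H48.SX

open Finset Polynomial Pool.Agent.H37.TE Pool.Agent.H98.TE Pool.Agent.H4.TP Pool.Agent.H98.XG
open scoped ENNReal

theorem IsNrm.pow {R : Type*} [CommRing R] {N : R → ℝ≥0∞} (h : IsNrm N) (x : R) (k : ℕ) :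
    N (x ^ k) ≤ N x ^ k := by
  induction k with
  | zero =>
    rw [pow_zero, pow_zero]
    exact h.one
  | succ k ih =>
    rw [pow_succ, pow_succ]
    exact (h.mul _ _).trans (mul_le_mul' ih le_rfl)

theorem IsNrm.sum {R : Type*} [CommRing R] {N : R → ℝ≥0∞} (h : IsNrm N) {ι : Type*}
    (s : Finset ι) (f : ι → R) : N (∑ i ∈ s, f i) ≤ ∑ i ∈ s, N (f i) := by
  classical
  induction s using Finset.induction_on with
  | empty => rw [sum_empty, sum_empty, h.zero]
  | insert a s ha ih =>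
    rw [sum_insert ha, sum_insert ha]
    exact (h.add _ _).trans (add_le_add le_rfl ih)

theorem pw_add (ρ : Fin 2 → ℝ≥0∞) (a b : Fin 2 →₀ ℕ) : pw ρ (a + b) = pw ρ a * pw ρ b := by
  unfold pw
  rw [Finsupp.add_apply, Finsupp.add_apply, pow_add, pow_add]
  ring

theorem wn_coeff {R : Type*} [CommRing R] (N : R → ℝ≥0∞) (ρ : Fin 2 → ℝ≥0∞)
    (f : MvPowerSeries (Fin 2) R) (ν : Fin 2 →₀ ℕ) :
    N (MvPowerSeries.coeff ν f) * pw ρ ν ≤ wn N ρ f :=
  ENNReal.le_tsum (f := fun ν => N (MvPowerSeries.coeff ν f) * pw ρ ν) ν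

theorem wn_C {R : Type*} [CommRing R] {N : R → ℝ≥0∞} (h : IsNrm N) (ρ : Fin 2 → ℝ≥0∞) (x : R) :
    wn N ρ (MvPowerSeries.C x) = N x := by
  unfold wn
  rw [tsum_eq_single 0]
  · rw [MvPowerSeries.coeff_zero_C]
    simp [pw]
  · intro ν hν
    rw [MvPowerSeries.coeff_C_of_ne_zero hν, h.zero, zero_mul]

theorem wn_X {R : Type*} [CommRing R] {N : R → ℝ≥0∞} (h : IsNrm N) (ρ : Fin 2 → ℝ≥0∞)
    (i : Fin 2) : wn N ρ (MvPowerSeries.X i) ≤ ρ i := by
  unfold wn
  rw [tsum_eq_single (Finsupp.single i 1)]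
  · rw [MvPowerSeries.coeff_index_single_self_X]
    have h1 : pw ρ (Finsupp.single i 1) = ρ i := by
      unfold pw
      fin_cases i <;> simp
    rw [h1]
    exact mul_le_of_le_one_left' h.one
  · intro ν hν
    classical
    rw [MvPowerSeries.coeff_X, if_neg hν, h.zero, zero_mul]

theorem wn_mono {R : Type*} [CommRing R] (N : R → ℝ≥0∞) {ρ ρ' : Fin 2 → ℝ≥0∞}
    (h : ∀ i, ρ i ≤ ρ' i) (f : MvPowerSeries (Fin 2) R) : wn N ρ f ≤ wn N ρ' f :=
  ENNReal.tsum_le_tsum fun _ => mul_le_mul' le_rfl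
    (mul_le_mul' (pow_le_pow_left' (h 0) _) (pow_le_pow_left' (h 1) _))

private theorem wn_mul {R : Type*} [CommRing R] {N : R → ℝ≥0∞} (h : IsNrm N) (ρ : Fin 2 → ℝ≥0∞)
    (f g : MvPowerSeries (Fin 2) R) : wn N ρ (f * g) ≤ wn N ρ f * wn N ρ g := by
  have h1 : wn N ρ (f * g) ≤ ∑' ν : Fin 2 →₀ ℕ, ∑ p ∈ antidiagonal ν,
      (N (MvPowerSeries.coeff p.1 f) * pw ρ p.1) * (N (MvPowerSeries.coeff p.2 g) * pw ρ p.2) := by
    refine ENNReal.tsum_le_tsum fun ν => ?_
    rw [MvPowerSeries.coeff_mul]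
    refine (mul_le_mul' (h.sum _ _) le_rfl).trans ?_
    rw [Finset.sum_mul]
    refine Finset.sum_le_sum fun p hp => ?_
    rw [← HasAntidiagonal.mem_antidiagonal.1 hp, pw_add]
    calc N (MvPowerSeries.coeff p.1 f * MvPowerSeries.coeff p.2 g) * (pw ρ p.1 * pw ρ p.2) ≤
          (N (MvPowerSeries.coeff p.1 f) * N (MvPowerSeries.coeff p.2 g)) *
            (pw ρ p.1 * pw ρ p.2) := mul_le_mul' (h.mul _ _) le_rfl
      _ = _ := by ring
  refine h1.trans (le_of_eq ?_)
  have h2 : ∑' p : (Fin 2 →₀ ℕ) × (Fin 2 →₀ ℕ), (N (MvPowerSeries.coeff p.1 f) * pw ρ p.1) *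
      (N (MvPowerSeries.coeff p.2 g) * pw ρ p.2) = wn N ρ f * wn N ρ g := by
    rw [ENNReal.tsum_prod (f := fun a b => (N (MvPowerSeries.coeff a f) * pw ρ a) *
      (N (MvPowerSeries.coeff b g) * pw ρ b))]
    unfold wn
    rw [← ENNReal.tsum_mul_right]
    congr 1
    funext a
    rw [ENNReal.tsum_mul_left]
  rw [← h2, ← HasAntidiagonal.sigmaAntidiagonalEquivProd.tsum_eq, ENNReal.tsum_sigma']
  congr 1
  funext ν
  exact (Finset.tsum_subtype (antidiagonal ν) fun p : (Fin 2 →₀ ℕ) × (Fin 2 →₀ ℕ) =>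
    (N (MvPowerSeries.coeff p.1 f) * pw ρ p.1) *
      (N (MvPowerSeries.coeff p.2 g) * pw ρ p.2)).symm

theorem wn_isNrm {R : Type*} [CommRing R] {N : R → ℝ≥0∞} (h : IsNrm N) (ρ : Fin 2 → ℝ≥0∞) :
    IsNrm (wn N ρ) where
  zero := by
    unfold wn
    simp only [map_zero, h.zero, zero_mul, tsum_zero]
  one := by
    rw [← map_one (MvPowerSeries.C (σ := Fin 2) (R := R)), wn_C h]
    exact h.one
  neg f := by
    unfold wn
    simp only [map_neg, h.neg]
  add f g := by
    unfold wn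
    rw [← ENNReal.tsum_add]
    refine ENNReal.tsum_le_tsum fun ν => ?_
    rw [map_add, ← add_mul]
    exact mul_le_mul' (h.add _ _) le_rfl
  mul f g := wn_mul h ρ f g

theorem en_isNrm : IsNrm en where
  zero := enorm_zero
  one := by
    unfold en
    rw [enorm_one]
  neg x := by
    unfold en
    rw [enorm_neg]
  add x y := enorm_add_le x y
  mul x y := by
    unfold en
    rw [enorm_mul]

theorem hs_isNrm (K : Type) [Field K] [NumberField K] : IsNrm (hs (K := K)) where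
  zero := by
    unfold hs
    have h := NumberField.house_intCast (K := K) 0
    rw [Int.cast_zero, abs_zero, Int.cast_zero] at h
    rw [h, ENNReal.ofReal_zero]
  one := by
    unfold hs
    have h := NumberField.house_intCast (K := K) 1
    rw [Int.cast_one, abs_one, Int.cast_one] at h
    rw [h, ENNReal.ofReal_one]
  neg x := by
    unfold hs NumberField.house
    rw [map_neg, norm_neg]
  add x y := by
    unfold hs
    rw [← ENNReal.ofReal_add (NumberField.house_nonneg x) (NumberField.house_nonneg y)]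
    exact ENNReal.ofReal_le_ofReal (NumberField.house_add_le x y)
  mul x y := by
    unfold hs
    rw [← ENNReal.ofReal_mul (NumberField.house_nonneg x)]
    exact ENNReal.ofReal_le_ofReal (NumberField.house_mul_le x y)

theorem wn_map {K : Type} [Field K] [NumberField K] (σ : K →+* ℝ) (ρ : Fin 2 → ℝ≥0∞)
    (f : MvPowerSeries (Fin 2) K) : wn en ρ (MvPowerSeries.map σ f) ≤ wn hs ρ f := by
  refine ENNReal.tsum_le_tsum fun ν => mul_le_mul' ?_ le_rfl
  rw [MvPowerSeries.coeff_map]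
  unfold en hs
  rw [← ofReal_norm]
  refine ENNReal.ofReal_le_ofReal ?_
  have h := NumberField.norm_embedding_le_house (MvPowerSeries.coeff ν f)
    (Complex.ofRealHom.comp σ)
  rw [RingHom.comp_apply, Complex.ofRealHom_eq_coe, Complex.norm_real] at h
  exact h

end Pool.Agent.H48.SX
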