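import Pool.Agent.H48.SX.Defs

/-!
# [H48 SX SIZ] the final numerical inequality

PROOF. Put `Υ = N0 α₂`, `z = Υ/α₁ ≥ 1` (`α₁ ≥ L0 ≥ 1`). All factors are `≥ 0`. In logarithms (bound every factor by an exponential):
`exp(Cf α₁)^(2d) = exp(2 d Cf α₁) ≤ exp(τΥ/16)`; `exp(α₂)^I₂ exp(ξ₂)^M₂ exp(α₁)^I₁ exp(ξ₁)^M₁ ≤ exp(4Υ)`; `(3/2)^(I₁+M₁) ≤ exp(I₁ + M₁) ≤ exp((1 + Q) z)` (`M₁ ≤ Υ/ξ₁ ≤ Q z`, `ξ₁ > 0`);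
`exp(-(s (4+τ) Υ)) = exp(-(4 + τ/2) Υ)` for `s = 1 - τ/(2 (4+τ))`; `H ≤ exp(τΥ/16)`; `card`: `(I₁ (n (M₁+1))) (I₂ (n (M₂+1))) κ^(2n) ≤ B z²` with a constant `B ≥ 1` (`I₁ ≤ z`,
`M₁ + 1 ≤ 2 Q z`, `I₂ ≤ N0`, `M₂ ≤ Q N0`) `≤ exp(B z + 2 z)`. Total exponent: `τΥ/16 + 4Υ + (1+Q) z - (4 + τ/2)Υ + τΥ/16 + (B + 2) z =
-(3/8) τ Υ + (B + Q + 3) z < 0` if `(B + Q + 3) z ≤ τ Υ/8`, i.e. `8 (B + Q + 3) ≤ τ α₁`: `L0 = max 1 (8 (B + Q + 3)/τ)`.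
-/

namespace Pool.Agent.H48.SX

open Finset Polynomial Pool.Agent.H37.TE Pool.Agent.H98.TE Pool.Agent.H4.TP Pool.Agent.H98.XG
open scoped ENNReal

private lemma siz_geo {N0 Q : ℕ} {α₁ ξ₁ α₂ ξ₂ : ℝ} (hN0 : 1 ≤ N0) (hα : 1 ≤ α₁) (h12 : α₁ ≤ α₂)
    (h1 : α₁ ≤ Q * ξ₁) (h2 : α₂ ≤ Q * ξ₂) {I₁ M₁ I₂ M₂ : ℕ} (hI₁ : I₁ * α₁ ≤ N0 * α₂)
    (hM₁ : M₁ * ξ₁ ≤ N0 * α₂) (hI₂ : I₂ * α₂ ≤ N0 * α₂) (hM₂ : M₂ * ξ₂ ≤ N0 * α₂) :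
    1 ≤ N0 * α₂ / α₁ ∧ N0 * α₂ / α₁ * α₁ = N0 * α₂ ∧ (I₁ : ℝ) ≤ N0 * α₂ / α₁ ∧
      (M₁ : ℝ) ≤ Q * (N0 * α₂ / α₁) ∧ (I₂ : ℝ) ≤ N0 ∧ (M₂ : ℝ) ≤ Q * N0 := by
  have hα0 : 0 < α₁ := by linarith
  have hα20 : 0 < α₂ := by linarith
  have hN : (1 : ℝ) ≤ N0 := by exact_mod_cast hN0
  have hQ0 : (0 : ℝ) ≤ Q := Nat.cast_nonneg _
  refine ⟨?_, div_mul_cancel₀ _ hα0.ne', ?_, ?_, le_of_mul_le_mul_right hI₂ hα20, ?_⟩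
  · rw [le_div_iff₀ hα0]
    nlinarith
  · rw [le_div_iff₀ hα0]
    exact hI₁
  · rw [← mul_div_assoc, le_div_iff₀ hα0]
    calc (M₁ : ℝ) * α₁ ≤ M₁ * (Q * ξ₁) := by gcongr
      _ = Q * (M₁ * ξ₁) := by ring
      _ ≤ Q * (N0 * α₂) := by gcongr
  · refine le_of_mul_le_mul_right ?_ hα20
    calc (M₂ : ℝ) * α₂ ≤ M₂ * (Q * ξ₂) := by gcongr
      _ = Q * (M₂ * ξ₂) := by ring
      _ ≤ Q * (N0 * α₂) := by gcongr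
      _ = Q * N0 * α₂ := by ring

private lemma siz_cnt {n N0 Q I₁ M₁ I₂ M₂ : ℕ} {z : ℝ} (hz : 1 ≤ z) (h1 : (I₁ : ℝ) ≤ z)
    (h2 : (M₁ : ℝ) ≤ Q * z) (h3 : (I₂ : ℝ) ≤ N0) (h4 : (M₂ : ℝ) ≤ Q * N0) :
    ((I₁ : ℝ) * (n * (M₁ + 1))) * (I₂ * (n * (M₂ + 1))) ≤
      ((n : ℝ) * (Q + 1) * (N0 * (n * (Q * N0 + 1)))) * z ^ 2 := by
  have hQ0 : (0 : ℝ) ≤ Q := Nat.cast_nonneg _
  have h5 : (M₁ : ℝ) + 1 ≤ (Q + 1) * z := by nlinarith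
  calc ((I₁ : ℝ) * (n * (M₁ + 1))) * (I₂ * (n * (M₂ + 1))) ≤
        (z * (n * ((Q + 1) * z))) * (N0 * (n * (Q * N0 + 1))) := by gcongr
    _ = _ := by ring

private lemma siz_exp {B z : ℝ} (hB : 0 ≤ B) (hz : 1 ≤ z) :
    B * z ^ 2 ≤ Real.exp ((B + 2) * z) := by
  have h1 : z ≤ Real.exp z := by
    have := Real.add_one_le_exp z
    linarith
  have h2 : B ≤ Real.exp (B * z) := by
    have h3 := Real.add_one_le_exp (B * z)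
    nlinarith
  calc B * z ^ 2 ≤ Real.exp (B * z) * Real.exp z ^ 2 := by gcongr
    _ = Real.exp ((B + 2) * z) := by
        rw [← Real.exp_nat_mul, ← Real.exp_add]
        congr 1
        push_cast
        ring

theorem siz_ineq (n N0 Q : ℕ) (τ κ Cf : ℝ) (hτ : 0 < τ) (hκ : 1 ≤ κ) (hCf : 1 ≤ Cf)
    (hN0 : 1 ≤ N0) (hQ : 1 ≤ Q) :
    ∃ L0 : ℝ, 1 ≤ L0 ∧ ∀ α₁ ξ₁ α₂ ξ₂ : ℝ, L0 ≤ α₁ → α₁ ≤ α₂ → α₁ ≤ Q * ξ₁ → α₂ ≤ Q * ξ₂ →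
      ∀ I₁ M₁ I₂ M₂ d : ℕ, I₁ * α₁ ≤ N0 * α₂ → M₁ * ξ₁ ≤ N0 * α₂ → I₂ * α₂ ≤ N0 * α₂ →
      M₂ * ξ₂ ≤ N0 * α₂ → d * α₁ ≤ τ / (32 * Cf) * (N0 * α₂) →
      ∀ H : ℝ, 0 ≤ H → H ≤ Real.exp (τ / 16 * (N0 * α₂)) →
      Real.exp (Cf * α₁) ^ (2 * d) * ((Real.exp α₂ ^ I₂ * Real.exp ξ₂ ^ M₂) *
        ((3 / 2 * Real.exp α₁) ^ I₁ * (3 / 2 * Real.exp ξ₁) ^ M₁) *
        (Real.exp (-((1 - τ / (2 * (4 + τ))) * ((4 + τ) * (N0 * α₂)))) *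
          (((I₁ : ℝ) * (n * (M₁ + 1))) * (I₂ * (n * (M₂ + 1))) * H * κ ^ (2 * n)))) < 1 := by
  set B : ℝ := ((n : ℝ) * (Q + 1) * (N0 * (n * (Q * N0 + 1)))) * κ ^ (2 * n) with hB
  have hB0 : 0 ≤ B := by positivity
  refine ⟨max 1 (8 * (B + Q + 3) / τ), le_max_left _ _, ?_⟩
  intro α₁ ξ₁ α₂ ξ₂ hα h12 h1 h2 I₁ M₁ I₂ M₂ d hI₁ hM₁ hI₂ hM₂ hd H hH0 hH
  have hα1 : 1 ≤ α₁ := (le_max_left _ _).trans hα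
  have hα0 : 0 < α₁ := by linarith
  obtain ⟨hz, hzα, g1, g2, g3, g4⟩ := siz_geo hN0 hα1 h12 h1 h2 hI₁ hM₁ hI₂ hM₂
  have hαB : 8 * (B + Q + 3) ≤ τ * α₁ := by
    have h3 := (le_max_right _ _).trans hα
    rw [div_le_iff₀ hτ] at h3
    linarith
  set Υ : ℝ := N0 * α₂ with hΥ
  set z : ℝ := Υ / α₁ with hzdef
  have hΥ0 : 0 < Υ := by
    rw [← hzα]
    positivity
  have f1 : Real.exp (Cf * α₁) ^ (2 * d) ≤ Real.exp (τ / 16 * Υ) := by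
    rw [← Real.exp_nat_mul]
    apply Real.exp_le_exp.2
    have h3 : (0 : ℝ) < Cf := by linarith
    have h4 : τ / (32 * Cf) * Υ * (2 * Cf) = τ / 16 * Υ := by
      field_simp
      ring
    calc ((2 * d : ℕ) : ℝ) * (Cf * α₁) = (d * α₁) * (2 * Cf) := by push_cast; ring
      _ ≤ τ / (32 * Cf) * Υ * (2 * Cf) := by gcongr
      _ = _ := h4
  have f2 : Real.exp α₂ ^ I₂ ≤ Real.exp Υ := by
    rw [← Real.exp_nat_mul]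
    exact Real.exp_le_exp.2 hI₂
  have f3 : Real.exp ξ₂ ^ M₂ ≤ Real.exp Υ := by
    rw [← Real.exp_nat_mul]
    exact Real.exp_le_exp.2 hM₂
  have f0 : (3 / 2 : ℝ) ≤ Real.exp 1 := by
    have := Real.add_one_le_exp (1 : ℝ)
    linarith
  have f4 : (3 / 2 * Real.exp α₁) ^ I₁ ≤ Real.exp (z + Υ) := by
    calc (3 / 2 * Real.exp α₁) ^ I₁ ≤ (Real.exp 1 * Real.exp α₁) ^ I₁ := by gcongr
      _ = Real.exp (I₁ + I₁ * α₁) := by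
          rw [← Real.exp_add, ← Real.exp_nat_mul]
          congr 1
          ring
      _ ≤ Real.exp (z + Υ) := Real.exp_le_exp.2 (add_le_add g1 hI₁)
  have f5 : (3 / 2 * Real.exp ξ₁) ^ M₁ ≤ Real.exp (Q * z + Υ) := by
    calc (3 / 2 * Real.exp ξ₁) ^ M₁ ≤ (Real.exp 1 * Real.exp ξ₁) ^ M₁ := by gcongr
      _ = Real.exp (M₁ + M₁ * ξ₁) := by
          rw [← Real.exp_add, ← Real.exp_nat_mul]
          congr 1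
          ring
      _ ≤ Real.exp (Q * z + Υ) := Real.exp_le_exp.2 (add_le_add g2 hM₁)
  have f6 : ((I₁ : ℝ) * (n * (M₁ + 1))) * (I₂ * (n * (M₂ + 1))) * H * κ ^ (2 * n) ≤
      Real.exp ((B + 2) * z) * Real.exp (τ / 16 * Υ) := by
    have h3 : ((I₁ : ℝ) * (n * (M₁ + 1))) * (I₂ * (n * (M₂ + 1))) * κ ^ (2 * n) ≤
        Real.exp ((B + 2) * z) := by
      refine le_trans ?_ (siz_exp hB0 hz)
      calc ((I₁ : ℝ) * (n * (M₁ + 1))) * (I₂ * (n * (M₂ + 1))) * κ ^ (2 * n) ≤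
          (((n : ℝ) * (Q + 1) * (N0 * (n * (Q * N0 + 1)))) * z ^ 2) * κ ^ (2 * n) := by
            have := siz_cnt (n := n) hz g1 g2 g3 g4
            gcongr
        _ = B * z ^ 2 := by rw [hB]; ring
    calc ((I₁ : ℝ) * (n * (M₁ + 1))) * (I₂ * (n * (M₂ + 1))) * H * κ ^ (2 * n) =
        (((I₁ : ℝ) * (n * (M₁ + 1))) * (I₂ * (n * (M₂ + 1))) * κ ^ (2 * n)) * H := by ring
      _ ≤ Real.exp ((B + 2) * z) * Real.exp (τ / 16 * Υ) := by gcongr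
  have h4τ : (4 + τ) ≠ 0 := by positivity
  have f7 : (1 - τ / (2 * (4 + τ))) * ((4 + τ) * Υ) = (4 + τ / 2) * Υ := by
    field_simp
    ring
  rw [f7]
  have hκ0 : 0 ≤ κ := by linarith
  have hcount : 0 ≤ ((I₁ : ℝ) * (n * (M₁ + 1))) * (I₂ * (n * (M₂ + 1))) * H * κ ^ (2 * n) := by
    positivity
  calc Real.exp (Cf * α₁) ^ (2 * d) * ((Real.exp α₂ ^ I₂ * Real.exp ξ₂ ^ M₂) *
        ((3 / 2 * Real.exp α₁) ^ I₁ * (3 / 2 * Real.exp ξ₁) ^ M₁) *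
        (Real.exp (-((4 + τ / 2) * Υ)) *
          (((I₁ : ℝ) * (n * (M₁ + 1))) * (I₂ * (n * (M₂ + 1))) * H * κ ^ (2 * n))))
      ≤ Real.exp (τ / 16 * Υ) * ((Real.exp Υ * Real.exp Υ) *
        (Real.exp (z + Υ) * Real.exp (Q * z + Υ)) *
        (Real.exp (-((4 + τ / 2) * Υ)) *
          (Real.exp ((B + 2) * z) * Real.exp (τ / 16 * Υ)))) := by
        gcongr
    _ = Real.exp ((B + Q + 3) * z - 3 / 8 * τ * Υ) := by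
        simp only [← Real.exp_add]
        congr 1
        ring
    _ < 1 := by
        rw [Real.exp_lt_one_iff]
        have h3 : (B + Q + 3) * z ≤ τ / 8 * Υ := by
          rw [← hzα]
          nlinarith
        nlinarith [mul_pos hτ hΥ0]

end Pool.Agent.H48.SX
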