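import Pool.Agent.H48.SX.Axc
import Pool.Agent.H48.SX.Lcl
import Pool.Agent.H48.SX.Est
import Pool.Agent.H48.SX.Fyb
import Pool.Agent.H48.SX.Siz

/-!
# [H48 SX SLK] the chapter SLX for a number field `K` with a real place `σ` and the root `Φ`
-/

namespace Pool.Agent.H48.SX

open Finset Polynomial Pool.Agent.H37.TE Pool.Agent.H98.TE Pool.Agent.H4.TP Pool.Agent.H98.XG
open scoped ENNReal

private theorem near_log {F : ℤ[X][X][X]} {θ c1 : ℝ} {Q j a : ℕ} {x y : ℤ} (hQ : 1 ≤ Q)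
    (hj : 1 ≤ j) (ha : 2 ≤ a) (hN : Near F θ c1 Q j a x y) : x ≠ 0 ∧
      Real.log a ≤ Q * Real.log |(x : ℝ)| ∧ Real.log |(x : ℝ)| ≤ (j + 1) * Real.log a := by
  have haR : (2 : ℝ) ≤ a := by exact_mod_cast ha
  have ha0 : (0 : ℝ) < a := by linarith
  have hla : 0 < Real.log a := Real.log_pos (by linarith)
  have hx0 : x ≠ 0 := by
    rintro rfl
    have h1 := hN.lo
    rw [abs_zero, zero_pow (by omega)] at h1
    have : (0 : ℤ) < (a : ℤ) ^ j := by positivity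
    omega
  have hxR : (1 : ℝ) ≤ |(x : ℝ)| := by
    have := Int.one_le_abs hx0
    exact_mod_cast this
  have hlx : 0 ≤ Real.log |(x : ℝ)| := Real.log_nonneg hxR
  have hb1 : (a : ℝ) ^ j ≤ |(x : ℝ)| ^ Q := by exact_mod_cast hN.lo
  have hb2 : |(x : ℝ)| ^ Q ≤ (a : ℝ) ^ (j + 1) := by exact_mod_cast hN.hi
  have h1 := Real.log_le_log (by positivity) hb1
  have h2 := Real.log_le_log (by positivity) hb2
  rw [Real.log_pow, Real.log_pow] at h1 h2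
  have hj' : (1 : ℝ) ≤ j := by exact_mod_cast hj
  have hQ' : (1 : ℝ) ≤ Q := by exact_mod_cast hQ
  refine ⟨hx0, ?_, ?_⟩
  · nlinarith
  · push_cast at h2
    nlinarith

private theorem e_log {ρ z s : ℝ} (hρ : 0 < ρ) (hz : 0 < z)
    (h : Real.log (2 / ρ) ≤ (1 - s) * Real.log z) :
    2 / z ≤ ρ * Real.exp (-(s * Real.log z)) := by
  have h1 : 2 / ρ ≤ Real.exp ((1 - s) * Real.log z) := by
    rw [← Real.exp_log (show 0 < 2 / ρ by positivity)]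
    exact Real.exp_le_exp.2 h
  have h2 : Real.exp ((1 - s) * Real.log z) = z * Real.exp (-(s * Real.log z)) := by
    have e : (1 - s) * Real.log z = Real.log z + -(s * Real.log z) := by ring
    rw [e, Real.exp_add, Real.exp_log hz]
  rw [h2, div_le_iff₀ hρ] at h1
  rw [div_le_iff₀ hz]
  linarith

private theorem sm_int {n : ℕ} {F : ℤ[X][X][X]} (hD : DEN n F) {a₁ a₂ : ℕ} {x₁ y₁ x₂ y₂ : ℤ}
    (hfy : fy F a₁ x₁ y₁ ≠ 0) {Y₁ : MvPowerSeries (Fin 2) ℚ} (hY : IsLoc F a₁ x₁ y₁ Y₁)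
    {I₁ M₁ I₂ M₂ : ℕ} (c : Lam I₁ n M₁ → Lam I₂ n M₂ → ℤ) (ν : Fin 2 →₀ ℕ) :
    ∃ z : ℤ, (fy F a₁ x₁ y₁ : ℚ) ^ (2 * (ν 0 + ν 1)) * Sm c Y₁ a₁ x₁ a₂ x₂ y₂ ν = z := by
  choose z hz using fun l : Lam I₁ n M₁ => hD a₁ x₁ y₁ Y₁ hfy hY I₁ M₁ l ν
  refine ⟨∑ l, ∑ l', c l l' * z l * mv a₂ x₂ y₂ l', ?_⟩
  unfold Sm
  rw [mul_sum]
  push_cast
  refine sum_congr rfl fun l _ => ?_
  rw [mul_sum]
  refine sum_congr rfl fun l' _ => ?_
  rw [← hz l]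
  ring

theorem slk {K : Type} [Field K] [NumberField K] (σ : K →+* ℝ) {n m : ℕ} {F : ℤ[X][X][X]} {g : K}
    {Φ : MvPowerSeries (Fin 2) K} {q : ℕ} {ρ κ : ℝ} (h : IsRt n m F g Φ q ρ κ) (H : DegF n m F)
    {θ : ℝ} (hg : σ g = θ) (h1 : (topm n m F).derivative.eval θ ≠ 0)
    (hr : 32 * Module.finrank ℚ K < 3 * n ^ 2) (hF : FYN F θ) (hD : DEN n F) : SLX n F θ := by
  refine ⟨1, fun Q j hQ hj => ?_⟩
  obtain ⟨N0, E, τ, hp⟩ := par_exists hr j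
  obtain ⟨c1, A1, hc1, hlcl⟩ := lcl σ h H hg h1 Q j hQ hj
  obtain ⟨c2, hc2, A2, hfy⟩ := hF Q j hQ hj
  obtain ⟨Cf, hCf, hfb⟩ := fy_bd H Q j hQ
  have hτ := hp.τ0
  have hCf0 : 0 < Cf := by linarith
  have hQR : (1 : ℝ) ≤ Q := by exact_mod_cast hQ
  refine ⟨τ / (32 * Cf), N0, min c1 c2, by positivity, lt_min hc1 hc2, fun η hη => ?_⟩
  obtain ⟨L1, hL1, hax⟩ := axc h hp hQ (min η (τ / 16)) (lt_min hη (by positivity))
  obtain ⟨L2, hL2, hsz⟩ := siz_ineq n N0 Q τ κ Cf hτ h.κ1 hCf hp.N1 hQ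
  obtain ⟨s, hs⟩ : ∃ s : ℝ, s = 1 - τ / (2 * (4 + τ)) := ⟨_, rfl⟩
  have hs1 : 0 < 1 - s := by
    rw [hs]
    have : 0 < τ / (2 * (4 + τ)) := by positivity
    linarith
  have hs0 : 0 ≤ s := by
    rw [hs]
    have : τ / (2 * (4 + τ)) ≤ 1 := by
      rw [div_le_one (by positivity)]
      linarith
    linarith
  obtain ⟨L3, hL3⟩ : ∃ L3 : ℝ, L3 = Q * (|Real.log (2 / ρ)| / (1 - s) + Real.log 2) := ⟨_, rfl⟩
  refine ⟨A1 + A2 + 2 + ⌈Real.exp L1⌉₊ + ⌈Real.exp L2⌉₊ + ⌈Real.exp L3⌉₊, 1,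
    fun a₁ a₂ x₁ y₁ x₂ y₂ ha hR hN1 hN2 => ?_⟩
  have ha₁ : 2 ≤ a₁ := by omega
  have ha₁R : (2 : ℝ) ≤ a₁ := by exact_mod_cast ha₁
  have hla₁ : 0 < Real.log a₁ := Real.log_pos (by linarith)
  rw [one_mul] at hR
  have haa : a₁ ≤ a₂ := by
    by_contra hc
    push Not at hc
    have h2 : 0 < Real.log a₂ := lt_of_lt_of_le hla₁ hR
    have h3 : (0 : ℝ) < a₂ := by
      rcases Nat.eq_zero_or_pos a₂ with h4 | h4
      · rw [h4] at h2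
        simp at h2
      · exact_mod_cast h4
    have h4 : Real.log a₂ < Real.log a₁ := Real.log_lt_log h3 (by exact_mod_cast hc)
    linarith
  have hlog : ∀ L : ℝ, ⌈Real.exp L⌉₊ ≤ a₁ → L ≤ Real.log a₁ := by
    intro L hL
    have h3 : Real.exp L ≤ (a₁ : ℝ) := (Nat.le_ceil _).trans (by exact_mod_cast hL)
    rwa [← Real.le_log_iff_exp_le (by linarith)] at h3
  have hl1 := hlog L1 (by omega)
  have hl2 := hlog L2 (by omega)
  have hl3 := hlog L3 (by omega)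
  have ha₂ : 2 ≤ a₂ := by omega
  have ha₂R : (2 : ℝ) ≤ a₂ := by exact_mod_cast ha₂
  obtain ⟨hx₁, hq₁, hj₁⟩ := near_log hQ hj ha₁ hN1
  obtain ⟨hx₂, hq₂, hj₂⟩ := near_log hQ hj ha₂ hN2
  have hla₂ : 0 < Real.log a₂ := lt_of_lt_of_le hla₁ hR
  obtain ⟨c, hc, hcH, hB⟩ := hax (Real.log a₁) (Real.log |(x₁ : ℝ)|) (Real.log a₂)
    (Real.log |(x₂ : ℝ)|) hl1 hR hq₁ hj₁ hq₂ hj₂
  have hlx₁ : 0 < Real.log |(x₁ : ℝ)| := by
    by_contra h2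
    push Not at h2
    nlinarith
  have hlx₂ : 0 < Real.log |(x₂ : ℝ)| := by
    by_contra h2
    push Not at h2
    nlinarith
  have hN0 : (1 : ℝ) ≤ N0 := by exact_mod_cast hp.N1
  have hU0 : 0 ≤ N0 * Real.log a₂ := by positivity
  have hfl : ∀ w : ℝ, 0 < w → (⌊N0 * Real.log a₂ / w⌋₊ : ℝ) * w ≤ N0 * Real.log a₂ := by
    intro w hw
    have h2 := Nat.floor_le (show 0 ≤ N0 * Real.log a₂ / w by positivity)
    rwa [le_div_iff₀ hw] at h2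
  refine ⟨N0 * Real.log a₂, _, _, _, _, ⟨by nlinarith, le_rfl, hfl _ hla₁, hfl _ hlx₁,
    hfl _ hla₂, hfl _ hlx₂⟩, c, hc, fun l l' => ?_, fun Y₁ hY₁ ν hν => ?_⟩
  · refine (hcH l l').trans (Real.exp_le_exp.2 ?_)
    exact mul_le_mul_of_nonneg_right (min_le_left _ _) hU0
  -- the estimate
  have hl3' : ∀ w : ℝ, Real.log a₁ ≤ Q * w → |Real.log (2 / ρ)| / (1 - s) + Real.log 2 ≤ w := by
    intro w hw
    have h2 : (Q : ℝ) * (|Real.log (2 / ρ)| / (1 - s) + Real.log 2) ≤ Q * w := by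
      rw [← hL3]
      linarith
    exact le_of_mul_le_mul_left h2 (by linarith)
  have hthr : ∀ w : ℝ, Real.log a₁ ≤ Q * w → Real.log (2 / ρ) ≤ (1 - s) * w ∧ Real.log 2 ≤ w := by
    intro w hw
    have h2 := hl3' w hw
    have h3 : 0 ≤ |Real.log (2 / ρ)| / (1 - s) := by positivity
    have h4 : 0 < Real.log 2 := Real.log_pos (by norm_num)
    refine ⟨?_, by linarith⟩
    have h5 : |Real.log (2 / ρ)| / (1 - s) ≤ w := by linarith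
    rw [div_le_iff₀ hs1] at h5
    have h6 := le_abs_self (Real.log (2 / ρ))
    linarith
  have hw1 : Real.log a₁ ≤ Q * Real.log a₁ := by nlinarith
  have hw2 : Real.log a₁ ≤ Q * Real.log a₂ := by nlinarith
  have hw3 : Real.log a₁ ≤ Q * Real.log |(x₂ : ℝ)| := hR.trans hq₂
  have hx₁p : 0 < |(x₁ : ℝ)| := abs_pos.2 (by exact_mod_cast hx₁)
  have hx₂p : 0 < |(x₂ : ℝ)| := abs_pos.2 (by exact_mod_cast hx₂)
  have e1 := e_log h.ρ0 (show (0 : ℝ) < a₁ by linarith) (hthr _ hw1).1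
  have e2 := e_log h.ρ0 hx₁p (hthr _ hq₁).1
  have e3 := e_log h.ρ0 (show (0 : ℝ) < a₂ by linarith) (hthr _ hw2).1
  have e4 := e_log h.ρ0 hx₂p (hthr _ hw3).1
  have h12 : ∀ w : ℝ, 0 < w → 1 / w ≤ 2 / w := fun w hw => by
    rw [div_le_div_iff_of_pos_right hw]
    norm_num
  have hx2 : ∀ x : ℤ, 0 < |(x : ℝ)| → Real.log 2 ≤ Real.log |(x : ℝ)| → 2 ≤ |x| := by
    intro x h2 h3
    have h4 := (Real.log_le_log_iff (by norm_num) h2).1 h3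
    exact_mod_cast h4
  have hfyne := hfy a₁ x₁ y₁ (by omega) (hN1.mono (min_le_right _ _))
  have hY := (hlcl a₁ x₁ y₁ (by omega) (hN1.mono (min_le_left _ _))).2 Y₁ hY₁
  have hy₂ := (hlcl a₂ x₂ y₂ (by omega) (hN2.mono (min_le_left _ _))).1
  have hest := est σ h ha₁ (hx2 x₁ hx₁p (hthr _ hq₁).2) ha₂ (hx2 x₂ hx₂p (hthr _ hw3).2) hs0
    (Real.exp_pos (min η (τ / 16) * (N0 * Real.log a₂))).le e1 e2 ((h12 _ (by linarith)).trans e3)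
    ((h12 _ hx₂p).trans e4) hY hy₂ c hcH hB ν
  obtain ⟨z, hz⟩ := sm_int (x₂ := x₂) (y₂ := y₂) (a₂ := a₂) hD hfyne hY₁ c ν
  have hzR : ((fy F a₁ x₁ y₁ : ℤ) : ℝ) ^ (2 * (ν 0 + ν 1)) *
      ((Sm c Y₁ a₁ x₁ a₂ x₂ y₂ ν : ℚ) : ℝ) = (z : ℝ) := by
    have h2 := congrArg (fun t : ℚ => (t : ℝ)) hz
    push_cast at h2
    exact h2
  have hfb' := hfb a₁ x₁ y₁ ha₁ hx₁ hN1.le hN1.hi
  have hz1 : |(z : ℝ)| < 1 := by
    rw [← hzR, abs_mul, abs_pow]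
    refine lt_of_le_of_lt (mul_le_mul (pow_le_pow_left₀ (abs_nonneg _) hfb' _) hest
      (abs_nonneg _) (by positivity)) ?_
    have hfin := hsz (Real.log a₁) (Real.log |(x₁ : ℝ)|) (Real.log a₂) (Real.log |(x₂ : ℝ)|) hl2
      hR hq₁ hq₂ ⌊N0 * Real.log a₂ / Real.log a₁⌋₊ ⌊N0 * Real.log a₂ / Real.log |(x₁ : ℝ)|⌋₊
      ⌊N0 * Real.log a₂ / Real.log a₂⌋₊ ⌊N0 * Real.log a₂ / Real.log |(x₂ : ℝ)|⌋₊ (ν 0 + ν 1)
      (hfl _ hla₁) (hfl _ hlx₁) (hfl _ hla₂) (hfl _ hlx₂) hν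
      (Real.exp (min η (τ / 16) * (N0 * Real.log a₂))) (Real.exp_pos _).le
      (Real.exp_le_exp.2 (mul_le_mul_of_nonneg_right (min_le_right _ _) hU0))
    rw [Real.exp_log (show (0 : ℝ) < a₁ by linarith), Real.exp_log (show (0 : ℝ) < a₂ by linarith),
      Real.exp_log hx₁p, Real.exp_log hx₂p, ← hs] at hfin
    refine lt_of_le_of_lt ?_ hfin
    have hcard : ∀ I M : ℕ, (Fintype.card (Lam I n M) : ℝ) ≤ (I : ℝ) * (n * (M + 1)) := by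
      intro I M
      exact_mod_cast lam_ub I n M
    have hκ : 0 ≤ κ := by linarith [h.κ1]
    gcongr
    · exact hcard _ _
    · exact hcard _ _
  have hz0 : z = 0 := by
    have h2 : |z| < 1 := by exact_mod_cast hz1
    exact Int.abs_lt_one_iff.1 h2
  rw [hz0, Int.cast_zero] at hz
  rcases mul_eq_zero.1 hz with h2 | h2
  · exact absurd h2 (pow_ne_zero _ (by exact_mod_cast hfyne))
  · exact h2

end Pool.Agent.H48.SX
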